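import Pool.Agent.T2h28.SQ.Stm2

set_option autoImplicit false

namespace Pool.Agent.T2h28.SQ

namespace AFF

theorem unit {x y : ℤ} (h : |x| + |y| = 1) :
    (x = 1 ∧ y = 0) ∨ (x = -1 ∧ y = 0) ∨ (x = 0 ∧ y = 1) ∨ (x = 0 ∧ y = -1) := by
  rcases abs_cases x with h1 | h1 <;> rcases abs_cases y with h2 | h2 <;> omega

theorem one {x : ℤ} (h : |x| = 1) : x = 1 ∨ x = -1 := by
  rcases abs_cases x with h1 | h1 <;> omega

/-- the unit square -/
theorem sq {p q r s : ℤ × ℤ} (h1 : |q.1 - p.1| + |q.2 - p.2| = 1)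
    (h2 : |r.1 - p.1| + |r.2 - p.2| = 1) (h3 : |s.1 - q.1| + |s.2 - q.2| = 1)
    (h4 : |s.1 - r.1| + |s.2 - r.2| = 1) (h5 : |s.1 - p.1| = 1) (h6 : |s.2 - p.2| = 1)
    (h7 : |r.1 - q.1| = 1) (h8 : |r.2 - q.2| = 1) :
    Fr (q - p) (r - p) ∧ s = q + (r - p) := by
  have e1 := unit h1
  have e2 := unit h2
  have e3 := unit h3
  have e4 := unit h4
  have e5 := one h5
  have e6 := one h6
  have e7 := one h7
  have e8 := one h8
  obtain ⟨p1, p2⟩ := p
  obtain ⟨q1, q2⟩ := q
  obtain ⟨r1, r2⟩ := r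
  obtain ⟨s1, s2⟩ := s
  simp only at e1 e2 e3 e4 e5 e6 e7 e8
  unfold Fr
  simp only [Prod.mk_sub_mk, Prod.mk_add_mk, Prod.mk.injEq]
  clear h1 h2 h3 h4 h5 h6 h7 h8
  rcases e1 with e1 | e1 | e1 | e1 <;> rcases e2 with e2 | e2 | e2 | e2 <;>
    rcases e3 with e3 | e3 | e3 | e3 <;> omega

theorem perp1 {a u b : ℤ × ℤ} (h : Fr a b) (h' : Fr u b) : u = a ∨ u = -a := by
  unfold Fr at h h'
  rcases h with ⟨h1 | h1, h2 | h2⟩ | ⟨h1 | h1, h2 | h2⟩ <;>
    rcases h' with ⟨h3 | h3, h4 | h4⟩ | ⟨h3 | h3, h4 | h4⟩ <;>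
    subst h1 h3 <;> simp_all

theorem perp2 {a v b : ℤ × ℤ} (h : Fr a b) (h' : Fr a v) : v = b ∨ v = -b := by
  unfold Fr at h h'
  rcases h with ⟨h1 | h1, h2 | h2⟩ | ⟨h1 | h1, h2 | h2⟩ <;>
    rcases h' with ⟨h3 | h3, h4 | h4⟩ | ⟨h3 | h3, h4 | h4⟩ <;>
    subst h2 h4 <;> simp_all

end AFF

open AFF

theorem t_AFF : S_AFF := by
  intro A B g hA hB hg
  -- the unit squares
  have sqr : ∀ i j : ℤ, 1 ≤ i → i + 1 ≤ A → 0 ≤ j → j + 1 ≤ B →
      Fr (g (i + 1, j) - g (i, j)) (g (i, j + 1) - g (i, j)) ∧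
        g (i + 1, j + 1) = g (i + 1, j) + (g (i, j + 1) - g (i, j)) := by
    intro i j hi hi' hj hj'
    have k1 := (hg (i, j) (i + 1, j) hi (by simp; omega) hj (by simp; omega) (by simp; omega)
      (by simpa using hi') hj (by simp; omega)).1 (by simp)
    have k2 := (hg (i, j) (i, j + 1) hi (by simp; omega) hj (by simp; omega) hi
      (by simp; omega) (by simp; omega) (by simpa using hj')).1 (by simp)
    have k3 := (hg (i + 1, j) (i + 1, j + 1) (by simp; omega) (by simpa using hi') hj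
      (by simp; omega) (by simp; omega) (by simpa using hi') (by simp; omega)
      (by simpa using hj')).1 (by simp)
    have k4 := (hg (i, j + 1) (i + 1, j + 1) hi (by simp; omega) (by simp; omega)
      (by simpa using hj') (by simp; omega) (by simpa using hi') (by simp; omega)
      (by simpa using hj')).1 (by simp)
    have k5 := (hg (i, j) (i + 1, j + 1) hi (by simp; omega) hj (by simp; omega) (by simp; omega)
      (by simpa using hi') (by simp; omega) (by simpa using hj')).2.1 (by simp) (by simp)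
    have k6 := (hg (i + 1, j) (i, j + 1) (by simp; omega) (by simpa using hi') hj
      (by simp; omega) hi (by simp; omega) (by simp; omega)
      (by simpa using hj')).2.1 (by simp) (by simp)
    exact sq k1 k2 k3 k4 k5.1 k5.2 k6.1 k6.2
  have hne : ∀ i j i' j' : ℤ, 1 ≤ i → i ≤ A → 0 ≤ j → j ≤ B → 1 ≤ i' → i' ≤ A → 0 ≤ j' → j' ≤ B →
      (i, j) ≠ (i', j') → g (i, j) ≠ g (i', j') := by
    intro i j i' j' h1 h2 h3 h4 h5 h6 h7 h8 h9
    exact (hg (i, j) (i', j') h1 h2 h3 h4 h5 h6 h7 h8).2.2 h9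
  obtain ⟨a, ha⟩ : ∃ a, a = g (1 + 1, 0) - g (1, 0) := ⟨_, rfl⟩
  obtain ⟨b, hb⟩ : ∃ b, b = g (1, 0 + 1) - g (1, 0) := ⟨_, rfl⟩
  have base := sqr 1 0 le_rfl (by omega) le_rfl (by omega)
  rw [← ha, ← hb] at base
  obtain ⟨hab, h11⟩ := base
  -- step 2
  have step2 : ∀ n : ℕ, (n : ℤ) + 2 ≤ A →
      g ((n : ℤ) + 1, 0) = g (1, 0) + (n : ℤ) • a ∧
      g ((n : ℤ) + 1 + 1, 0) = g (1, 0) + ((n : ℤ) + 1) • a ∧
      g ((n : ℤ) + 1, 0 + 1) = g (1, 0) + (n : ℤ) • a + b ∧
      g ((n : ℤ) + 1 + 1, 0 + 1) = g (1, 0) + ((n : ℤ) + 1) • a + b := by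
    intro n
    induction n with
    | zero =>
      intro _
      simp only [Nat.cast_zero, zero_add, zero_smul, add_zero, one_smul]
      refine ⟨trivial, ?_, ?_, ?_⟩
      · rw [ha]; abel
      · have : b = g (1, 0 + 1) - g (1, 0) := hb
        rw [this]
        simp only [zero_add]
        abel
      · have e := h11
        simp only [zero_add] at e
        rw [e, ha]
        abel
    | succ n ih =>
      intro hn
      push_cast at hn
      obtain ⟨i1, i2, i3, i4⟩ := ih (by omega)
      have s1 := sqr ((n : ℤ) + 1 + 1) 0 (by omega) (by omega) le_rfl (by omega)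
      have e1 : g ((n : ℤ) + 1 + 1, 0 + 1) - g ((n : ℤ) + 1 + 1, 0) = b := by
        rw [i4, i2]; abel
      rw [e1] at s1
      obtain ⟨s1, s2⟩ := s1
      have e2 : g ((n : ℤ) + 1 + 1 + 1, 0) = g (1, 0) + ((n : ℤ) + 1 + 1) • a := by
        rcases perp1 hab s1 with h | h
        · have : g ((n : ℤ) + 1 + 1 + 1, 0) = g ((n : ℤ) + 1 + 1, 0) + a := by
            rw [← h]; abel
          rw [this, i2]
          module
        · exfalso
          have h3 : g ((n : ℤ) + 1 + 1 + 1, 0) = g ((n : ℤ) + 1, 0) := by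
            have : g ((n : ℤ) + 1 + 1 + 1, 0) = g ((n : ℤ) + 1 + 1, 0) - a := by
              rw [sub_eq_add_neg, ← h]; abel
            rw [this, i2, i1]
            module
          refine hne _ _ _ _ ?_ ?_ ?_ ?_ ?_ ?_ ?_ ?_ ?_ h3 <;> try omega
          intro h4
          rw [Prod.mk.injEq] at h4
          omega
      push_cast
      exact ⟨i2, e2, i4, s2.trans (by rw [e2])⟩
  have row0 : ∀ i : ℤ, 1 ≤ i → i ≤ A → g (i, 0) = g (1, 0) + (i - 1) • a := by
    intro i hi hi'
    rcases eq_or_lt_of_le hi' with h | h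
    · have := (step2 (i - 2).toNat (by omega)).2.1
      have e : ((i - 2).toNat : ℤ) = i - 2 := by omega
      rw [e] at this
      have e2 : i - 2 + 1 + 1 = i := by ring
      have e3 : i - 2 + 1 = i - 1 := by ring
      rw [e2, e3] at this
      exact this
    · have := (step2 (i - 1).toNat (by omega)).1
      have e : ((i - 1).toNat : ℤ) = i - 1 := by omega
      rw [e] at this
      have e2 : i - 1 + 1 = i := by ring
      rw [e2] at this
      exact this
  have row1 : ∀ i : ℤ, 1 ≤ i → i ≤ A → g (i, 1) = g (1, 0) + (i - 1) • a + b := by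
    intro i hi hi'
    rcases eq_or_lt_of_le hi' with h | h
    · have := (step2 (i - 2).toNat (by omega)).2.2.2
      have e : ((i - 2).toNat : ℤ) = i - 2 := by omega
      rw [e] at this
      have e2 : i - 2 + 1 + 1 = i := by ring
      have e3 : i - 2 + 1 = i - 1 := by ring
      rw [e2, e3, zero_add] at this
      exact this
    · have := (step2 (i - 1).toNat (by omega)).2.2.1
      have e : ((i - 1).toNat : ℤ) = i - 1 := by omega
      rw [e] at this
      have e2 : i - 1 + 1 = i := by ring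
      rw [e2, zero_add] at this
      exact this
  -- step 3
  have step3 : ∀ n : ℕ, (n : ℤ) + 1 ≤ B → ∀ i : ℤ, 1 ≤ i → i ≤ A →
      g (i, (n : ℤ)) = g (1, 0) + (i - 1) • a + (n : ℤ) • b ∧
      g (i, (n : ℤ) + 1) = g (1, 0) + (i - 1) • a + ((n : ℤ) + 1) • b := by
    intro n
    induction n with
    | zero =>
      intro _ i hi hi'
      simp only [Nat.cast_zero, zero_add, zero_smul, add_zero, one_smul]
      exact ⟨row0 i hi hi', row1 i hi hi'⟩
    | succ n ih =>
      intro hn i hi hi'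
      push_cast at hn
      have ih' := ih (by omega)
      push_cast
      refine ⟨(ih' i hi hi').2, ?_⟩
      -- the squares in the row
      have key : ∀ i : ℤ, 1 ≤ i → i + 1 ≤ A →
          g (i, (n : ℤ) + 1 + 1) = g (1, 0) + (i - 1) • a + ((n : ℤ) + 1 + 1) • b ∧
          g (i + 1, (n : ℤ) + 1 + 1) = g (1, 0) + (i + 1 - 1) • a + ((n : ℤ) + 1 + 1) • b := by
        intro i hi hi'
        obtain ⟨s1, s2⟩ := sqr i ((n : ℤ) + 1) hi hi' (by omega) (by omega)
        have e1 : g (i + 1, (n : ℤ) + 1) - g (i, (n : ℤ) + 1) = a := by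
          rw [(ih' i hi (by omega)).2, (ih' (i + 1) (by omega) hi').2]
          module
        rw [e1] at s1
        have e2 : g (i, (n : ℤ) + 1 + 1) = g (1, 0) + (i - 1) • a + ((n : ℤ) + 1 + 1) • b := by
          rcases perp2 hab s1 with h | h
          · have : g (i, (n : ℤ) + 1 + 1) = g (i, (n : ℤ) + 1) + b := by
              rw [← h]; abel
            rw [this, (ih' i hi (by omega)).2]
            module
          · exfalso
            have h3 : g (i, (n : ℤ) + 1 + 1) = g (i, (n : ℤ)) := by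
              have : g (i, (n : ℤ) + 1 + 1) = g (i, (n : ℤ) + 1) - b := by
                rw [sub_eq_add_neg, ← h]; abel
              rw [this, (ih' i hi (by omega)).2, (ih' i hi (by omega)).1]
              module
            refine hne _ _ _ _ ?_ ?_ ?_ ?_ ?_ ?_ ?_ ?_ ?_ h3 <;> try omega
            intro h4
            rw [Prod.mk.injEq] at h4
            omega
        refine ⟨e2, ?_⟩
        rw [s2, e2, (ih' i hi (by omega)).2, (ih' (i + 1) (by omega) hi').2]
        module
      rcases eq_or_lt_of_le hi' with h | h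
      · have := (key (i - 1) (by omega) (by omega)).2
        have e2 : i - 1 + 1 = i := by ring
        rw [e2] at this
        exact this
      · exact (key i hi (by omega)).1
  refine ⟨g (1, 0) - a, a, b, hab, ?_⟩
  rintro ⟨i, j⟩ h1 h2 h3 h4
  simp only at h1 h2 h3 h4 ⊢
  have fin : g (i, j) = g (1, 0) + (i - 1) • a + j • b := by
    rcases eq_or_lt_of_le h4 with h | h
    · have := (step3 (j - 1).toNat (by omega) i h1 h2).2
      have e : ((j - 1).toNat : ℤ) = j - 1 := by omega
      rw [e] at this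
      have e2 : j - 1 + 1 = j := by ring
      rw [e2] at this
      exact this
    · have := (step3 j.toNat (by omega) i h1 h2).1
      have e : (j.toNat : ℤ) = j := by omega
      rw [e] at this
      exact this
  rw [fin]
  module

end Pool.Agent.T2h28.SQ
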