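import Pool.Agent.T2h28.SQ.Stm2

/-!
# Task `BAS` of the project SQ (helper22)
-/

set_option autoImplicit false

namespace Pool.Agent.T2h28.SQ

theorem cn_bd22 (k N m : ℕ) (fl : Fl) (kd i j : ℕ) :
    k + 1 ≤ cn k N m kd i ∧ cn k N m kd i + k ≤ wd k N m fl kd i j := by
  have hH : 3 * k + 3 ≤ HH k m := by
    unfold HH
    nlinarith
  unfold cn wd
  split_ifs <;> omega

theorem t_BAS : S_BAS_task := by
  intro hFRA k N m fl F hk hN hR kd i j o a b hB hP v hv hne hy hlink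
  obtain ⟨hF, hpl⟩ := hP
  obtain ⟨hc1, hc2⟩ := cn_bd22 k N m fl kd i j
  set c := cn k N m kd i with hc
  obtain ⟨hsp, hco⟩ := hFRA k a b hF
  obtain ⟨X, Y, hXY⟩ := hsp o (F v)
  -- the neighbours of `v`
  have key : ∀ x y : ℕ, 1 ≤ x → x ≤ wd k N m fl kd i j → y ≤ 2 * k + 2 →
      ((|X - x| ≤ k ∧ |Y - y| ≤ k) ↔ y = 0 ∧ c ≤ x + k ∧ x ≤ c + k) := by
    intro x y h1 h2 h3
    have hloc : loc k N m fl kd i j x y := Or.inl ⟨h1, h2, h3⟩
    have hg : good k N m fl (kd, i, j, x, y) := ⟨hB, hloc⟩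
    have hne' : v ≠ (kd, i, j, x, y) := by
      rintro rfl
      exact hne ⟨rfl, rfl, rfl⟩
    have hadj := hR v (kd, i, j, x, y) hv hg hne'
    rw [hXY, hpl x y hloc, (hco o X Y x y).1] at hadj
    rw [← hadj, ← hlink x y hloc]
    constructor
    · rintro ⟨-, hs | hl | hl⟩
      · exact absurd ⟨hs.1.1, hs.1.2.1, hs.1.2.2⟩ hne
      · exact hl
      · exact absurd hl.1 hy
    · intro hl
      exact ⟨hne', Or.inr (Or.inl hl)⟩
  have k1 := (key (c - k) 0 (by omega) (by omega) (by omega)).2 ⟨rfl, by omega, by omega⟩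
  have k2 := (key (c + k) 0 (by omega) (by omega) (by omega)).2 ⟨rfl, by omega, by omega⟩
  have k3 := mt (key c 1 (by omega) (by omega) (by omega)).1 (by omega)
  rw [abs_le, abs_le] at k1 k2 k3
  have hX : X = c := by
    obtain ⟨⟨_, _⟩, _⟩ := k1
    obtain ⟨⟨_, _⟩, _⟩ := k2
    omega
  have hY : Y = -k := by
    obtain ⟨⟨_, _⟩, ⟨_, _⟩⟩ := k1
    obtain ⟨⟨_, _⟩, ⟨_, _⟩⟩ := k2
    by_contra hcon
    exact k3 ⟨⟨by omega, by omega⟩, by omega, by omega⟩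
  rw [hXY, hX, hY, neg_smul, ← sub_eq_add_neg]

end Pool.Agent.T2h28.SQ
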