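import Pool.Agent.T2h28.SQ.Att

set_option autoImplicit false

/-!
# Task CHS: a body attached to a side pin
-/

namespace Pool.Agent.T2h28.SQ

theorem t_CHS : S_CHS_task := by
  intro hBAS hDIR k N m fl F hk hN hrep i s hi1 hiN hm hs o a b o' a' b' hPl hPl'
  have hb : body N m 0 i 0 := Or.inl ⟨rfl, by omega, rfl⟩
  have hb' : body N m s i 0 := Or.inr ⟨hs, hi1, hiN, hm⟩
  have hwd : wd k N m fl 0 i 0 = 2 * k + 3 := by
    unfold wd
    rw [if_pos rfl, if_neg (by omega)]
  have hcn : cn k N m s i = k + 1 := by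
    unfold cn
    rw [if_neg (by omega)]
  have hfr : Fr b a := by
    rcases hPl.1 with ⟨h1, h2⟩ | ⟨h1, h2⟩
    · exact Or.inr ⟨h2, h1⟩
    · exact Or.inl ⟨h2, h1⟩
  rcases hs with rfl | rfl
  · -- the pin `(2 k + 4, k + 1)`
    have hlocv : loc k N m fl 0 i 0 (2 * k + 4) (k + 1) :=
      Or.inr (Or.inr ⟨rfl, hi1, hiN, Or.inr rfl, rfl⟩)
    have hFv : F (0, i, 0, 2 * k + 4, k + 1) =
        o + (2 * (k : ℤ) + 4) • a + ((k : ℤ) + 1) • b := by
      have h := hPl.2 _ _ hlocv
      push_cast at h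
      exact h
    have h := CHE.attach hBAS hDIR k N m fl F hk hN hrep (0, i, 0, 2 * k + 4, k + 1)
      ⟨hb, hlocv⟩ b a hfr 1 i 0 hb' o' a' b' hPl' (by
        rintro ⟨h0, -, -⟩
        simp only at h0
        omega) (by simp) (by
        intro x y hl
        unfold link
        simp only
        constructor
        · rintro ⟨h1, h2, h3, -⟩
          exact ⟨h1, h2, h3⟩
        · rintro ⟨h1, h2, h3⟩
          exact ⟨h1, h2, h3, Or.inr (Or.inl ⟨trivial, trivial, trivial, trivial,
            Or.inl ⟨trivial, trivial⟩⟩)⟩) (by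
        intro t s h1 h2 h3
        have h3' := abs_le.mp h3
        obtain ⟨x, hx⟩ := Int.eq_ofNat_of_zero_le (a := 2 * (k : ℤ) + 4 - t) (by omega)
        obtain ⟨y, hy⟩ := Int.eq_ofNat_of_zero_le (a := (k : ℤ) + 1 + s) (by omega)
        have hloc : loc k N m fl 0 i 0 x y := by
          left
          rw [hwd]
          refine ⟨?_, ?_, ?_⟩ <;> omega
        refine ⟨(0, i, 0, x, y), ⟨hb, hloc⟩, ?_, ?_⟩
        · rw [hFv, hPl.2 x y hloc]
          have e1 : (x : ℤ) = 2 * (k : ℤ) + 4 - t := by omega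
          have e2 : (y : ℤ) = (k : ℤ) + 1 + s := by omega
          rw [e1, e2, add_smul ((k : ℤ) + 1) s b, sub_smul]
          abel
        · intro x' y' hl'
          refine ⟨?_, ?_⟩
          · intro he
            simp only [Prod.mk.injEq] at he
            omega
          · unfold adj same link
            simp only
            rintro ⟨-, hadj⟩
            rcases hadj with ⟨⟨g1, g2⟩, -⟩ | ⟨g1, g2, g3, g4⟩ | ⟨g1, g2, g3, g4⟩ <;> omega)
    obtain ⟨h1, h2, h3⟩ := h
    rw [hcn] at h3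
    push_cast at h3
    rw [if_pos rfl]
    refine ⟨h1, h2, ?_⟩
    rw [h3, hFv, h1]
    rw [show (2 * (k : ℤ) + 4) = (k : ℤ) + 4 + k by ring,
      show (2 * (k : ℤ) + 2) = (k : ℤ) + 2 + k by ring,
      add_smul ((k : ℤ) + 4) (k : ℤ) a, add_smul ((k : ℤ) + 2) (k : ℤ) a,
      add_smul (k : ℤ) 4 a, add_smul (k : ℤ) 2 a]
    rw [show (4 : ℤ) = 2 + 2 by norm_num, add_smul (2 : ℤ) 2 a]
    abel
  · -- the pin `(0, k + 1)`
    have hfr' : Fr b (-a) := by
      rcases hPl.1 with ⟨h1, h2⟩ | ⟨h1, h2⟩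
      · refine Or.inr ⟨h2, ?_⟩
        rcases h1 with rfl | rfl
        · right; rfl
        · left; rfl
      · refine Or.inl ⟨h2, ?_⟩
        rcases h1 with rfl | rfl
        · right; rfl
        · left; rfl
    have hlocv : loc k N m fl 0 i 0 0 (k + 1) :=
      Or.inr (Or.inr ⟨rfl, hi1, hiN, Or.inl rfl, rfl⟩)
    have hFv : F (0, i, 0, 0, k + 1) = o + ((k : ℤ) + 1) • b := by
      have h := hPl.2 _ _ hlocv
      push_cast at h
      rw [zero_smul, add_zero] at h
      exact h
    have h := CHE.attach hBAS hDIR k N m fl F hk hN hrep (0, i, 0, 0, k + 1)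
      ⟨hb, hlocv⟩ b (-a) hfr' 2 i 0 hb' o' a' b' hPl' (by
        rintro ⟨h0, -, -⟩
        simp only at h0
        omega) (by simp) (by
        intro x y hl
        unfold link
        simp only
        constructor
        · rintro ⟨h1, h2, h3, -⟩
          exact ⟨h1, h2, h3⟩
        · rintro ⟨h1, h2, h3⟩
          exact ⟨h1, h2, h3, Or.inr (Or.inl ⟨trivial, trivial, trivial, trivial,
            Or.inr ⟨trivial, trivial⟩⟩)⟩) (by
        intro t s h1 h2 h3
        have h3' := abs_le.mp h3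
        obtain ⟨x, hx⟩ := Int.eq_ofNat_of_zero_le (a := t) (by omega)
        obtain ⟨y, hy⟩ := Int.eq_ofNat_of_zero_le (a := (k : ℤ) + 1 + s) (by omega)
        have hloc : loc k N m fl 0 i 0 x y := by
          left
          rw [hwd]
          refine ⟨?_, ?_, ?_⟩ <;> omega
        refine ⟨(0, i, 0, x, y), ⟨hb, hloc⟩, ?_, ?_⟩
        · rw [hFv, hPl.2 x y hloc]
          have e1 : (x : ℤ) = t := by omega
          have e2 : (y : ℤ) = (k : ℤ) + 1 + s := by omega
          rw [e1, e2, add_smul ((k : ℤ) + 1) s b, smul_neg]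
          abel
        · intro x' y' hl'
          refine ⟨?_, ?_⟩
          · intro he
            simp only [Prod.mk.injEq] at he
            omega
          · unfold adj same link
            simp only
            rintro ⟨-, hadj⟩
            rcases hadj with ⟨⟨g1, g2⟩, -⟩ | ⟨g1, g2, g3, g4⟩ | ⟨g1, g2, g3, g4⟩ <;> omega)
    obtain ⟨h1, h2, h3⟩ := h
    rw [hcn] at h3
    push_cast at h3
    rw [if_neg (by norm_num)]
    refine ⟨h1, h2, ?_⟩
    rw [h3, hFv, h1]
    rw [show (2 * (k : ℤ) + 2) = (k : ℤ) + 2 + k by ring,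
      add_smul ((k : ℤ) + 2) (k : ℤ) (-a), smul_neg ((k : ℤ) + 2) a]
    abel

end Pool.Agent.T2h28.SQ
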