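import Pool.Agent.T2h28.SQ.Stm2

/-!
# Task CMP: compression of the coordinates
-/

set_option autoImplicit false

namespace Pool.Agent.T2h28.SQ

theorem cmp_one (k n : ℕ) (x : Fin n → ℤ) : ∃ x' : Fin n → ℕ, (∀ u, x' u ≤ n * (k + 1)) ∧
    ∀ u v, |x u - x v| ≤ (k : ℤ) ↔ |(x' u : ℤ) - x' v| ≤ (k : ℤ) := by
  classical
  set S : Finset ℤ := Finset.univ.biUnion fun u => Finset.Icc (x u) (x u + k) with hS
  have hcard : S.card ≤ n * (k + 1) := by
    refine Finset.card_biUnion_le.trans ?_
    have h1 : ∀ u : Fin n, (Finset.Icc (x u) (x u + k)).card = k + 1 := fun u => by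
      rw [Int.card_Icc]
      omega
    simp only [h1, Finset.sum_const, Finset.card_univ, Fintype.card_fin, smul_eq_mul, le_refl]
  have hmem : ∀ u s, x u ≤ s → s ≤ x u + k → s ∈ S := fun u s h1 h2 =>
    Finset.mem_biUnion.2 ⟨u, Finset.mem_univ _, Finset.mem_Icc.2 ⟨h1, h2⟩⟩
  have key : ∀ u v, x u ≤ x v → (S.filter (· < x v)).card =
      (S.filter (· < x u)).card + (S.filter (fun s => x u ≤ s ∧ s < x v)).card := by
    intro u v h
    rw [← Finset.card_union_of_disjoint]
    · congr 1
      ext s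
      simp only [Finset.mem_filter, Finset.mem_union]
      constructor
      · rintro ⟨h1, h2⟩
        by_cases h3 : s < x u
        · exact Or.inl ⟨h1, h3⟩
        · exact Or.inr ⟨h1, by omega, h2⟩
      · rintro (⟨h1, h2⟩ | ⟨h1, h2, h3⟩)
        · exact ⟨h1, by omega⟩
        · exact ⟨h1, h3⟩
    · rw [Finset.disjoint_left]
      intro s h1 h2
      rw [Finset.mem_filter] at h1 h2
      omega
  have k1 : ∀ u v, x u ≤ x v → x v - x u ≤ k →
      ((S.filter (fun s => x u ≤ s ∧ s < x v)).card : ℤ) = x v - x u := by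
    intro u v h1 h2
    have h3 : S.filter (fun s => x u ≤ s ∧ s < x v) = Finset.Ico (x u) (x v) := by
      ext s
      rw [Finset.mem_filter, Finset.mem_Ico]
      exact ⟨fun h => h.2, fun h => ⟨hmem u s h.1 (by omega), h⟩⟩
    rw [h3, Int.card_Ico]
    omega
  have k2 : ∀ u v, (k : ℤ) < x v - x u →
      (k : ℤ) + 1 ≤ ((S.filter (fun s => x u ≤ s ∧ s < x v)).card : ℤ) := by
    intro u v h1
    have h3 : Finset.Ico (x u) (x u + k + 1) ⊆ S.filter (fun s => x u ≤ s ∧ s < x v) := by
      intro s hs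
      rw [Finset.mem_Ico] at hs
      rw [Finset.mem_filter]
      exact ⟨hmem u s hs.1 (by omega), hs.1, by omega⟩
    have h4 := Finset.card_le_card h3
    rw [Int.card_Ico] at h4
    omega
  have k3 : ∀ u v, x u ≤ x v → (|x u - x v| ≤ (k : ℤ) ↔
      |((S.filter (· < x u)).card : ℤ) - (S.filter (· < x v)).card| ≤ (k : ℤ)) := by
    intro u v h
    have h1 := key u v h
    have h2 := k1 u v h
    have h3 := k2 u v
    rw [abs_le, abs_le]
    generalize (S.filter (· < x v)).card = A at *
    generalize (S.filter (· < x u)).card = B at *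
    generalize (S.filter (fun s => x u ≤ s ∧ s < x v)).card = C at *
    by_cases h4 : x v - x u ≤ k
    · have h5 := h2 h4
      omega
    · have h5 := h3 (by omega)
      omega
  refine ⟨fun u => (S.filter (· < x u)).card, fun u => (Finset.card_filter_le _ _).trans hcard, ?_⟩
  intro u v
  rcases le_total (x u) (x v) with h | h
  · exact k3 u v h
  · rw [abs_sub_comm, abs_sub_comm ((S.filter (· < x u)).card : ℤ)]
    exact k3 v u h

theorem t_CMP : S_CMP := by
  intro k n c
  obtain ⟨x, hx, hx'⟩ := cmp_one k n fun u => (c u).1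
  obtain ⟨y, hy, hy'⟩ := cmp_one k n fun u => (c u).2
  exact ⟨fun u => (x u, y u), fun u => ⟨hx u, hy u⟩, fun u v => and_congr (hx' u v) (hy' u v)⟩

end Pool.Agent.T2h28.SQ
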