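import Pool.Agent.T2h28.SQ.Stm2

set_option autoImplicit false

namespace Pool.Agent.T2h28.SQ

namespace CRD

/-- the number of common points of two intervals of `k + 1` integers -/
theorem card_inter (k : ℕ) (x y : ℤ) :
    ((Finset.Icc x (x + k) ∩ Finset.Icc y (y + k)).card : ℤ) = max 0 (k + 1 - |y - x|) := by
  have : Finset.Icc x (x + k) ∩ Finset.Icc y (y + k) = Finset.Icc (max x y) (min x y + k) := by
    ext z
    simp only [Finset.mem_inter, Finset.mem_Icc]
    omega
  rw [this, Int.card_Icc]
  rcases le_total x y with h | h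
  · rw [max_eq_right h, min_eq_left h, abs_of_nonneg (by omega)]
    omega
  · rw [max_eq_left h, min_eq_right h, abs_of_nonpos (by omega)]
    omega

theorem card_win_inter (k : ℕ) (c d : ℤ × ℤ) :
    ((win k c ∩ win k d).card : ℤ) =
      max 0 (k + 1 - |d.1 - c.1|) * max 0 (k + 1 - |d.2 - c.2|) := by
  unfold win
  rw [Finset.product_inter_product, Finset.card_product]
  push_cast
  rw [card_inter, card_inter]

/-- the number of common points determines the type -/
theorem arith (k : ℤ) (hk : 1 ≤ k) (s t : ℤ) (hs : 0 ≤ s) (ht : 0 ≤ t) :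
    (max 0 (k + 1 - s) * max 0 (k + 1 - t) = k * (k + 1) → s + t = 1) ∧
    (max 0 (k + 1 - s) * max 0 (k + 1 - t) = k * k → s = 1 ∧ t = 1) ∧
    (max 0 (k + 1 - s) * max 0 (k + 1 - t) = (k + 1) * (k + 1) → s = 0 ∧ t = 0) := by
  have a0 : 0 ≤ max 0 (k + 1 - s) := le_max_left _ _
  have b0 : 0 ≤ max 0 (k + 1 - t) := le_max_left _ _
  by_cases hs1 : k + 1 ≤ s
  · rw [max_eq_left (by omega), zero_mul]
    refine ⟨fun h => ?_, fun h => ?_, fun h => ?_⟩ <;> nlinarith
  by_cases ht1 : k + 1 ≤ t
  · rw [max_eq_left (a := (0 : ℤ)) (b := k + 1 - t) (by omega), mul_zero]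
    refine ⟨fun h => ?_, fun h => ?_, fun h => ?_⟩ <;> nlinarith
  rw [max_eq_right (by omega), max_eq_right (by omega)]
  push Not at hs1 ht1
  refine ⟨fun h => ?_, fun h => ?_, fun h => ?_⟩
  · by_cases h1 : 1 ≤ s
    · by_cases h2 : 1 ≤ t
      · nlinarith
      · have : t = 0 := by omega
        subst this
        have : s = 1 := by nlinarith
        omega
    · have : s = 0 := by omega
      subst this
      have : t = 1 := by nlinarith
      omega
  · by_cases h1 : 1 ≤ s
    · by_cases h2 : 1 ≤ t
      · by_cases h3 : s = 1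
        · refine ⟨h3, ?_⟩
          subst h3
          nlinarith
        · exfalso
          have : 2 ≤ s := by omega
          nlinarith
      · exfalso
        have : t = 0 := by omega
        subst this
        have hd : (k + 1) ∣ 1 := ⟨k + 1 - s - (k - 1), by nlinarith⟩
        have := Int.le_of_dvd one_pos hd
        omega
    · exfalso
      have : s = 0 := by omega
      subst this
      have hd : (k + 1) ∣ 1 := ⟨k + 1 - t - (k - 1), by nlinarith⟩
      have := Int.le_of_dvd one_pos hd
      omega
  · constructor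
    · by_contra h1
      have : 1 ≤ s := by omega
      nlinarith
    · by_contra h1
      have : 1 ≤ t := by omega
      nlinarith

end CRD

theorem t_CRD : S_CRD := by
  intro k c d c' d' hk he
  have he' : ((win k c ∩ win k d).card : ℤ) = ((win k c' ∩ win k d').card : ℤ) := by rw [he]
  rw [CRD.card_win_inter, CRD.card_win_inter] at he'
  have hk' : (1 : ℤ) ≤ k := by exact_mod_cast hk
  obtain ⟨A1, A2, A3⟩ := CRD.arith k hk' |d'.1 - c'.1| |d'.2 - c'.2| (abs_nonneg _) (abs_nonneg _)
  refine ⟨fun h => A1 ?_, fun h1 h2 => A2 ?_, fun h => ?_⟩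
  · rw [← he']
    have ha := abs_nonneg (d.1 - c.1)
    have hb := abs_nonneg (d.2 - c.2)
    by_cases h0 : |d.1 - c.1| = 0
    · have h1 : |d.2 - c.2| = 1 := by omega
      rw [h0, h1, max_eq_right (by omega), max_eq_right (by omega)]
      ring
    · have h0 : |d.1 - c.1| = 1 := by omega
      have h1 : |d.2 - c.2| = 0 := by omega
      rw [h0, h1, max_eq_right (by omega), max_eq_right (by omega)]
      ring
  · rw [← he', h1, h2, max_eq_right (by omega)]
    ring
  · intro hcd
    apply h
    have B := CRD.arith k hk' |d.1 - c.1| |d.2 - c.2| (abs_nonneg _) (abs_nonneg _)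
    have h5 := B.2.2 (by
      rw [he', hcd]
      simp only [sub_self, abs_zero, sub_zero]
      rw [max_eq_right (by omega)])
    obtain ⟨h6, h7⟩ := h5
    rw [abs_eq_zero] at h6 h7
    ext <;> omega

end Pool.Agent.T2h28.SQ
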