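import Pool.Agent.T2h28.SQ.Stm2

/-!
# Task `DIR` of the project SQ (helper22)
-/

set_option autoImplicit false

namespace Pool.Agent.T2h28.SQ

theorem t_DIR : S_DIR := by
  intro k p n d a' b' hk h1 h2 h
  have hk' : (1 : ℤ) ≤ k := by exact_mod_cast hk
  have e0 := h k 0 0 0 hk' (by omega) (by simp) le_rfl (by omega) (by simp)
  have e1 := h 1 k 0 1 le_rfl (by omega) (by simp) le_rfl (by omega) (by simpa using hk')
  have e2 := h 1 k 0 (-1) le_rfl (by omega) (by simp) le_rfl (by omega) (by simpa using hk')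
  have e3 := h 1 (-k) 0 1 le_rfl (by omega) (by simp) le_rfl (by omega) (by simpa using hk')
  have e4 := h 1 (-k) 0 (-1) le_rfl (by omega) (by simp) le_rfl (by omega) (by simpa using hk')
  clear h
  obtain ⟨p1, p2⟩ := p
  rcases h1 with ⟨ha, hb⟩ | ⟨ha, hb⟩ <;> rcases ha with rfl | rfl <;> rcases hb with rfl | rfl <;>
    rcases h2 with ⟨ha, hb⟩ | ⟨ha, hb⟩ <;> rcases ha with rfl | rfl <;> rcases hb with rfl | rfl <;>
    simp only [ne_eq, Prod.ext_iff, Prod.fst_add, Prod.snd_add, Prod.fst_sub, Prod.snd_sub,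
      Prod.smul_fst, Prod.smul_snd, smul_eq_mul, Prod.fst_neg, Prod.snd_neg] at e0 e1 e2 e3 e4 ⊢
  all_goals first | omega | simp

end Pool.Agent.T2h28.SQ
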