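import Pool.Agent.T2h28.SQ.Stm2

/-!
# Task EXT of the project SQ
-/

set_option autoImplicit false

namespace Pool.Agent.T2h28.SQ

theorem EXT_kdt {σ : ℕ → ℤ} (hσ : ∀ i, Sg (σ i)) {τ : ℤ} (hτ : Sg τ) (i : ℕ) :
    (kdt σ τ i = 1 ∨ kdt σ τ i = 2) ∧ (if kdt σ τ i = 1 then σ i else - σ i) = τ := by
  unfold kdt
  rcases hσ i with h | h <;> rcases hτ with h' | h' <;> rw [h, h'] <;> simp

theorem EXT_lay {k N m : ℕ} {σ : ℕ → ℤ} {ε : ℕ → ℕ → ℕ → ℤ} (hσ : ∀ i, Sg (σ i)) {τ : ℤ}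
    (hτ : Sg τ) (i j : ℕ) :
    lay k N m σ ε (kdt σ τ i, i, j, 2 * k + 3, 0) =
      (τ * (2 * k + 2 + (3 * k + 3) * (j : ℤ)),
        (3 * k + 3) * (i : ℤ) + (k + 1) + ε (kdt σ τ i) i j * (k + 2)) := by
  obtain ⟨h1, h2⟩ := EXT_kdt hσ hτ i
  have h0 : ¬ (kdt σ τ i = 0) := by omega
  unfold lay
  simp only [h0, if_false]
  rw [h2]
  refine Prod.ext ?_ ?_
  · simp
  · push_cast
    ring

theorem EXT_good {k N m : ℕ} {fl : Fl} {kd i j : ℕ} (hkd : kd = 1 ∨ kd = 2) (hi : 1 ≤ i)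
    (hiN : i ≤ N) (hj : j < m) (hf : fl kd i j = true) :
    good k N m fl (kd, i, j, 2 * k + 3, 0) := by
  refine ⟨Or.inr ⟨hkd, hi, hiN, hj⟩, Or.inl ⟨?_, ?_, Nat.zero_le _⟩⟩
  · simp only
    omega
  · have h0 : ¬ (kd = 0) := by omega
    simp only
    unfold wd
    simp [h0, hf]

theorem EXT_not_adj {k N m : ℕ} {kd i j : ℕ} (hkd : kd = 1 ∨ kd = 2) (w : Lb)
    (hw : ¬ (kd = w.1 ∧ i = w.2.1 ∧ j = w.2.2.1)) :
    ¬ adj k N m (kd, i, j, 2 * k + 3, 0) w := by
  have h0 : ¬ (kd = 0) := by omega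
  rintro ⟨-, ⟨h, -⟩ | ⟨-, -, -, h⟩ | ⟨-, h1, h2, -⟩⟩
  · exact hw h
  · simp only at h
    omega
  · simp only [cn, h0, if_false] at h1 h2
    omega

theorem EXT_HH {k m j : ℕ} (hj : j < m) :
    (2 * (k : ℤ) + 2 + (3 * k + 3) * (j : ℤ)) ≤ HH k m := by
  unfold HH
  push_cast
  have : (j : ℤ) + 1 ≤ m := by exact_mod_cast hj
  nlinarith

theorem EXT_HH0 {k j : ℕ} : 0 ≤ (2 * (k : ℤ) + 2 + (3 * k + 3) * (j : ℤ)) := by
  positivity

/-- The vertex of a wall with given first coordinate and given `y`. -/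
theorem EXT_wall {k N m : ℕ} {fl : Fl} {σ : ℕ → ℤ} {ε : ℕ → ℕ → ℕ → ℤ} (hσ : ∀ i, Sg (σ i))
    (i : ℕ) (hi : i = 0 ∨ i = N + 1) (T : ℤ) (hT : |T| ≤ HH k m) (y : ℕ) (hy : y ≤ 2 * k + 2) :
    ∃ x : ℕ, good k N m fl (0, i, 0, x, y) ∧
      lay k N m σ ε (0, i, 0, x, y) = (T, (3 * k + 3) * (i : ℤ) + y) := by
  have hcn : cn k N m 0 i = HH k m + 1 := by
    unfold cn
    simp [hi]
  have hwd : wd k N m fl 0 i 0 = 2 * HH k m + 1 := by
    unfold wd
    simp [hi]
  obtain ⟨h1, h2⟩ := abs_le.1 hT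
  have hs : ∀ s : ℤ, Sg s → ∃ x : ℕ, 1 ≤ x ∧ x ≤ 2 * HH k m + 1 ∧
      s * ((x : ℤ) - ((HH k m + 1 : ℕ) : ℤ)) = T := by
    intro s hs
    rcases hs with rfl | rfl
    · refine ⟨((HH k m : ℤ) + 1 + T).toNat, ?_, ?_, ?_⟩ <;> omega
    · refine ⟨((HH k m : ℤ) + 1 - T).toNat, ?_, ?_, ?_⟩ <;> omega
  obtain ⟨x, hx1, hx2, hx3⟩ := hs (σ i) (hσ i)
  refine ⟨x, ⟨Or.inl ⟨rfl, ?_, rfl⟩, Or.inl ⟨hx1, ?_, hy⟩⟩, ?_⟩
  · simp only
    omega
  · simp only
    rw [hwd]
    exact hx2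
  · unfold lay
    simp only [if_true]
    rw [hcn, hx3]

theorem t_EXT : S_EXT := by
  intro k N m fl σ ε hk hN hσ hε hR τ hτ j hj
  have hT : |τ * (2 * (k : ℤ) + 2 + (3 * k + 3) * (j : ℤ))| ≤ HH k m := by
    have h1 := EXT_HH (k := k) hj
    have h2 := EXT_HH0 (k := k) (j := j)
    rw [abs_le]
    rcases hτ with h | h <;> rw [h] <;> constructor <;> linarith
  refine ⟨?_, ?_, ?_⟩
  · intro hf
    rcases hε (kdt σ τ 1) 1 j with he | he
    · exact he
    exfalso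
    have hkd := (EXT_kdt hσ hτ 1).1
    obtain ⟨x, hg, hl⟩ := EXT_wall (k := k) (N := N) (m := m) (fl := fl) (ε := ε) hσ 0
      (Or.inl rfl) _ hT (2 * k + 2) le_rfl
    have hg' := EXT_good (k := k) (N := N) hkd le_rfl hN hj hf
    have hl' := EXT_lay (k := k) (N := N) (m := m) (ε := ε) hσ hτ 1 j
    rw [he] at hl'
    have hna := EXT_not_adj (k := k) (N := N) (m := m) (i := 1) (j := j) hkd
      ((0, 0, 0, x, 2 * k + 2) : Lb) (by rintro ⟨h, -⟩; simp only at h; omega)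
    refine hna ((hR _ _ hg' hg ?_).2 ?_)
    · intro e
      have := congrArg (fun u : Lb => u.1) e
      simp only at this
      omega
    · rw [hl, hl']
      unfold near
      simp only [sub_self, abs_zero]
      refine ⟨by positivity, ?_⟩
      rw [abs_le]
      push_cast
      constructor <;> linarith
  · intro hf
    rcases hε (kdt σ τ N) N j with he | he
    · exfalso
      have hkd := (EXT_kdt hσ hτ N).1
      obtain ⟨x, hg, hl⟩ := EXT_wall (k := k) (N := N) (m := m) (fl := fl) (ε := ε) hσ (N + 1)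
        (Or.inr rfl) _ hT 0 (Nat.zero_le _)
      have hg' := EXT_good (k := k) (N := N) hkd hN le_rfl hj hf
      have hl' := EXT_lay (k := k) (N := N) (m := m) (ε := ε) hσ hτ N j
      rw [he] at hl'
      have hna := EXT_not_adj (k := k) (N := N) (m := m) (i := N) (j := j) hkd
        ((0, N + 1, 0, x, 0) : Lb) (by rintro ⟨h, -⟩; simp only at h; omega)
      refine hna ((hR _ _ hg' hg ?_).2 ?_)
      · intro e
        have := congrArg (fun u : Lb => u.1) e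
        simp only at this
        omega
      · rw [hl, hl']
        unfold near
        simp only [sub_self, abs_zero]
        refine ⟨by positivity, ?_⟩
        rw [abs_le]
        push_cast
        constructor <;> linarith
    · exact he
  · rintro i hi hiN hf hf' ⟨he, he'⟩
    have hkd := (EXT_kdt hσ hτ i).1
    have hkd' := (EXT_kdt hσ hτ (i + 1)).1
    have hg := EXT_good (k := k) (N := N) hkd hi hiN.le hj hf
    have hg' := EXT_good (k := k) (N := N) hkd' (Nat.succ_le_succ (Nat.zero_le _)) hiN hj hf'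
    have hl := EXT_lay (k := k) (N := N) (m := m) (ε := ε) hσ hτ i j
    have hl' := EXT_lay (k := k) (N := N) (m := m) (ε := ε) hσ hτ (i + 1) j
    rw [he] at hl
    rw [he'] at hl'
    have hna := EXT_not_adj (k := k) (N := N) (m := m) (i := i) (j := j) hkd
      ((kdt σ τ (i + 1), i + 1, j, 2 * k + 3, 0) : Lb)
      (by rintro ⟨-, h, -⟩; simp only at h; omega)
    refine hna ((hR _ _ hg hg' ?_).2 ?_)
    · intro e
      have := congrArg (fun u : Lb => u.2.1) e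
      simp only at this
      omega
    · rw [hl, hl']
      unfold near
      simp only [sub_self, abs_zero]
      refine ⟨by positivity, ?_⟩
      rw [abs_le]
      push_cast
      constructor <;> linarith

end Pool.Agent.T2h28.SQ
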