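import Pool.Agent.T2h28.SQ.Stm2

/-!
# Task `FRA` of the project SQ (helper22)
-/

set_option autoImplicit false

namespace Pool.Agent.T2h28.SQ

theorem t_FRA : S_FRA := by
  intro k a b hF
  constructor
  · intro o p
    rcases hF with ⟨ha, hb⟩ | ⟨ha, hb⟩ <;> rcases ha with rfl | rfl <;> rcases hb with rfl | rfl
    · exact ⟨p.1 - o.1, p.2 - o.2, by ext <;> simp⟩
    · exact ⟨p.1 - o.1, o.2 - p.2, by ext <;> simp⟩
    · exact ⟨o.1 - p.1, p.2 - o.2, by ext <;> simp⟩
    · exact ⟨o.1 - p.1, o.2 - p.2, by ext <;> simp⟩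
    · exact ⟨p.2 - o.2, p.1 - o.1, by ext <;> simp⟩
    · exact ⟨p.2 - o.2, o.1 - p.1, by ext <;> simp⟩
    · exact ⟨o.2 - p.2, p.1 - o.1, by ext <;> simp⟩
    · exact ⟨o.2 - p.2, o.1 - p.1, by ext <;> simp⟩
  · intro o X Y X' Y'
    constructor
    · unfold near
      rcases hF with ⟨ha, hb⟩ | ⟨ha, hb⟩ <;> rcases ha with rfl | rfl <;>
        rcases hb with rfl | rfl <;>
        simp only [Prod.fst_add, Prod.snd_add, Prod.smul_fst, Prod.smul_snd, smul_eq_mul,
          abs_le] <;> constructor <;> intro h <;> constructor <;> constructor <;> omega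
    · intro h
      have h1 := congrArg Prod.fst h
      have h2 := congrArg Prod.snd h
      rcases hF with ⟨ha, hb⟩ | ⟨ha, hb⟩ <;> rcases ha with rfl | rfl <;>
        rcases hb with rfl | rfl <;>
        simp only [Prod.fst_add, Prod.snd_add, Prod.smul_fst, Prod.smul_snd, smul_eq_mul] at h1 h2 <;>
        constructor <;> omega

end Pool.Agent.T2h28.SQ
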