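import Pool.Agent.T2h28.SQ.Stm2

set_option autoImplicit false

namespace Pool.Agent.T2h28.SQ

namespace INJ

theorem near_symm {k : ℕ} {p q : ℤ × ℤ} : near k p q ↔ near k q p := by
  unfold near
  rw [abs_sub_comm p.1, abs_sub_comm p.2]

/-- if the images agree, then the neighbours agree -/
theorem nb {k w h : ℕ} {f : ℤ × ℤ → ℤ × ℤ} (hf : RepR k w h f) {p q : ℤ × ℤ}
    (hp : p ∈ rect w h) (hq : q ∈ rect w h) (e : f p = f q) {r : ℤ × ℤ} (hr : r ∈ rect w h) :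
    near k p r ↔ near k q r := by
  rw [← hf p hp r hr, ← hf q hq r hr, e]

theorem c1 {k w h : ℕ} {f : ℤ × ℤ → ℤ × ℤ} (hk : 1 ≤ k) (hw : 2 * k + 1 ≤ w)
    (hf : RepR k w h f) {p q : ℤ × ℤ}
    (hp : p ∈ rect w h) (hq : q ∈ rect w h) (e : f p = f q) : ¬ p.1 < q.1 := by
  intro hlt
  obtain ⟨hp1, hp2, hp3, hp4⟩ := hp
  obtain ⟨hq1, hq2, hq3, hq4⟩ := hq
  by_cases hc : q.1 + k ≤ w
  · have hr : ((q.1 + k, q.2) : ℤ × ℤ) ∈ rect w h := ⟨by simp; omega, by simpa using hc, hq3, hq4⟩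
    have h1 := (nb hf ⟨hp1, hp2, hp3, hp4⟩ ⟨hq1, hq2, hq3, hq4⟩ e hr).2
      (by
        unfold near
        simp only [abs_le]
        omega)
    unfold near at h1
    simp only [abs_le] at h1
    omega
  · have hr : ((max 1 (p.1 - k), p.2) : ℤ × ℤ) ∈ rect w h :=
      ⟨by simp, by simp only [max_le_iff]; omega, hp3, hp4⟩
    have h1 := (nb hf ⟨hp1, hp2, hp3, hp4⟩ ⟨hq1, hq2, hq3, hq4⟩ e hr).1
      (by
        unfold near
        simp only [abs_le]
        omega)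
    unfold near at h1
    simp only [abs_le] at h1
    omega

theorem c2 {k w h : ℕ} {f : ℤ × ℤ → ℤ × ℤ} (hk : 1 ≤ k) (hh : 2 * k ≤ h)
    (hf : RepR k w h f) {p q : ℤ × ℤ}
    (hp : p ∈ rect w h) (hq : q ∈ rect w h) (e : f p = f q) : ¬ p.2 < q.2 := by
  intro hlt
  obtain ⟨hp1, hp2, hp3, hp4⟩ := hp
  obtain ⟨hq1, hq2, hq3, hq4⟩ := hq
  by_cases hc : q.2 + k ≤ h
  · have hr : ((q.1, q.2 + k) : ℤ × ℤ) ∈ rect w h := ⟨hq1, hq2, by simp; omega, by simpa using hc⟩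
    have h1 := (nb hf ⟨hp1, hp2, hp3, hp4⟩ ⟨hq1, hq2, hq3, hq4⟩ e hr).2
      (by
        unfold near
        simp only [abs_le]
        omega)
    unfold near at h1
    simp only [abs_le] at h1
    omega
  · have hr : ((p.1, max 0 (p.2 - k)) : ℤ × ℤ) ∈ rect w h :=
      ⟨hp1, hp2, by simp, by simp only [max_le_iff]; omega⟩
    have h1 := (nb hf ⟨hp1, hp2, hp3, hp4⟩ ⟨hq1, hq2, hq3, hq4⟩ e hr).1
      (by
        unfold near
        simp only [abs_le]
        omega)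
    unfold near at h1
    simp only [abs_le] at h1
    omega

end INJ

theorem t_INJ : S_INJ := by
  intro k w h f hk hw hh hf p hp q hq e
  have h1 := INJ.c1 hk hw hf hp hq e
  have h2 := INJ.c1 hk hw hf hq hp e.symm
  have h3 := INJ.c2 hk hh hf hp hq e
  have h4 := INJ.c2 hk hh hf hq hp e.symm
  ext <;> omega

end Pool.Agent.T2h28.SQ
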