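import Pool.Agent.T2h28.SQ.Stm2

set_option autoImplicit false

namespace Pool.Agent.T2h28.SQ

open Pool.Agent.NPC Pool.Agent.NPC.R671

theorem inC_iff (l : Lit ℕ) (c : Lit ℕ × Lit ℕ × Lit ℕ) :
    inC l c = true ↔ l = c.1 ∨ l = c.2.1 ∨ l = c.2.2 := by
  unfold inC
  simp only [Bool.or_eq_true, decide_eq_true_eq]

theorem cls_mem (φ : Fm) {j : ℕ} (hj : j < φ.length) : cls φ j ∈ φ := by
  unfold cls
  rw [List.getD_eq_getElem _ _ hj]
  exact List.getElem_mem hj

theorem mem_cls (φ : Fm) {c : Lit ℕ × Lit ℕ × Lit ℕ} (hc : c ∈ φ) :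
    ∃ j < φ.length, cls φ j = c := by
  obtain ⟨j, hj, h⟩ := List.mem_iff_getElem.1 hc
  refine ⟨j, hj, ?_⟩
  unfold cls
  rw [List.getD_eq_getElem _ _ hj, h]

/-- if a literal of the clause is true -/
theorem rod_of (φ : Fm) (x : ℕ → Bool) (j : ℕ) (l : Lit ℕ)
    (hl : inC l (cls φ j) = true) (hb : l.2 < 3 * φ.length) (hx : x l.2 = l.1)
    (σ : ℕ → ℤ) (hσ : ∀ i, σ i = if i ≤ 3 * φ.length ∧ x (i - 1) = true then 1 else -1) :
    ∃ i, 1 ≤ i ∧ i ≤ NN φ ∧ flg φ (kdt σ 1 i) i j = false := by
  refine ⟨l.2 + 1, by omega, by unfold NN; omega, ?_⟩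
  obtain ⟨b, v⟩ := l
  have hv : v + 1 - 1 = v := by omega
  simp only at hl hb hx ⊢
  cases b with
  | true =>
    have h1 : σ (v + 1) = 1 := by
      rw [hσ, hv, if_pos ⟨by omega, hx⟩]
    have h2 : kdt σ 1 (v + 1) = 1 := by unfold kdt; rw [if_pos h1]
    rw [h2]
    unfold flg
    rw [if_pos rfl, hv, hl, Bool.or_true]
    rfl
  | false =>
    have h1 : σ (v + 1) = -1 := by
      rw [hσ, hv, if_neg]
      rintro ⟨_, h⟩
      rw [hx] at h
      exact absurd h (by decide)
    have h2 : kdt σ 1 (v + 1) = 2 := by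
      unfold kdt
      rw [if_neg]
      rw [h1]
      norm_num
    rw [h2]
    unfold flg
    rw [if_neg (by norm_num), hv, hl]
    rfl

theorem t_LOG : S_LOG := by
  intro φ hB
  constructor
  · rintro ⟨x, hx⟩
    let σ : ℕ → ℤ := fun i => if i ≤ 3 * φ.length ∧ x (i - 1) = true then 1 else -1
    refine ⟨σ, ?_, ?_⟩
    · intro i
      show Sg (if i ≤ 3 * φ.length ∧ x (i - 1) = true then (1 : ℤ) else -1)
      split_ifs
      · exact Or.inl rfl
      · exact Or.inr rfl
    · intro τ hτ j hj
      rcases hτ with rfl | rfl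
      · have hc := cls_mem φ hj
        obtain ⟨hb1, hb2, hb3⟩ := hB _ hc
        rcases hx _ hc with h | h | h
        · exact rod_of φ x j _ ((inC_iff _ _).2 (Or.inl rfl)) hb1 h σ (fun i => rfl)
        · exact rod_of φ x j _ ((inC_iff _ _).2 (Or.inr (Or.inl rfl))) hb2 h σ (fun i => rfl)
        · exact rod_of φ x j _ ((inC_iff _ _).2 (Or.inr (Or.inr rfl))) hb3 h σ (fun i => rfl)
      · refine ⟨NN φ, by unfold NN; omega, le_rfl, ?_⟩
        have h1 : σ (NN φ) = -1 := by
          show (if NN φ ≤ 3 * φ.length ∧ x (NN φ - 1) = true then (1 : ℤ) else -1) = -1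
          rw [if_neg]
          rintro ⟨h, _⟩
          unfold NN at h
          omega
        have h2 : kdt σ (-1) (NN φ) = 1 := by unfold kdt; rw [if_pos h1]
        rw [h2]
        unfold flg
        rw [if_pos rfl]
        simp
  · rintro ⟨σ, hσ, H⟩
    have hτ : Sg (- σ (NN φ)) := by
      rcases hσ (NN φ) with h | h
      · right; rw [h]
      · left; rw [h]; norm_num
    have hne : σ (NN φ) ≠ - σ (NN φ) := by
      rcases hσ (NN φ) with h | h <;> rw [h] <;> norm_num
    refine ⟨fun v => decide (σ (v + 1) = - σ (NN φ)), ?_⟩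
    intro c hc
    obtain ⟨j, hj, rfl⟩ := mem_cls φ hc
    obtain ⟨i, hi1, hi2, hf⟩ := H _ hτ j hj
    have hi : i - 1 + 1 = i := by omega
    -- a literal which is true
    have key : ∃ l : Lit ℕ, inC l (cls φ j) = true ∧
        decide (σ (l.2 + 1) = - σ (NN φ)) = l.1 := by
      unfold kdt at hf
      by_cases h : σ i = - σ (NN φ)
      · rw [if_pos h] at hf
        unfold flg at hf
        rw [if_pos rfl] at hf
        have h0 : ¬ i = NN φ → inC (true, i - 1) (cls φ j) = true := by
          simpa using hf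
        have h1 : i = NN φ ∨ inC (true, i - 1) (cls φ j) = true := by
          by_cases h2 : i = NN φ
          · exact Or.inl h2
          · exact Or.inr (h0 h2)
        rcases h1 with h1 | h1
        · rw [h1] at h
          exact absurd h hne
        · refine ⟨(true, i - 1), h1, ?_⟩
          simp only [hi]
          rw [h]
          simp
      · rw [if_neg h] at hf
        unfold flg at hf
        rw [if_neg (by norm_num)] at hf
        have h1 : inC (false, i - 1) (cls φ j) = true := by simpa using hf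
        refine ⟨(false, i - 1), h1, ?_⟩
        simp only [hi]
        simp [h]
    obtain ⟨l, hl, hd⟩ := key
    rcases (inC_iff _ _).1 hl with rfl | rfl | rfl
    · exact Or.inl hd
    · exact Or.inr (Or.inl hd)
    · exact Or.inr (Or.inr hd)

end Pool.Agent.T2h28.SQ
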