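import Pool.Agent.T2h28.SQ.Stm2

/-!
# Task NRM of the project SQ
-/

set_option autoImplicit false

namespace Pool.Agent.T2h28.SQ

theorem NRM_sgn (p q : ℤ × ℤ) (h : p = q ∨ p = -q) :
    p = (if p = q then (1 : ℤ) else -1) • q := by
  by_cases hpq : p = q
  · rw [if_pos hpq, one_smul]
    exact hpq
  · rw [if_neg hpq]
    rcases h with h | h
    · exact absurd h hpq
    · rw [h]
      simp

theorem t_NRM : S_NRM_task := by
  intro hPLC hCHE hCHS k N m fl F hk hN hR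
  have hP0 : ∀ kd i j, ∃ o a b, body N m kd i j → Pl k N m fl F kd i j o a b := by
    intro kd i j
    by_cases h : body N m kd i j
    · obtain ⟨o, a, b, h1⟩ := hPLC k N m fl F hk hN hR kd i j h
      exact ⟨o, a, b, fun _ => h1⟩
    · exact ⟨0, 0, 0, fun h1 => absurd h1 h⟩
  choose o a b hP using hP0
  have hb0 : ∀ i, i ≤ N + 1 → body N m 0 i 0 := fun i hi => Or.inl ⟨rfl, hi, rfl⟩
  have hb1 : ∀ s i j, (s = 1 ∨ s = 2) → 1 ≤ i → i ≤ N → j < m → body N m s i j :=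
    fun s i j hs h1 h2 h3 => Or.inr ⟨hs, h1, h2, h3⟩
  obtain ⟨z, hz⟩ : ∃ z, z = o 0 0 0 + (cn k N m 0 0 : ℤ) • a 0 0 0 := ⟨_, rfl⟩
  obtain ⟨A, hA⟩ : ∃ A, A = a 0 0 0 := ⟨_, rfl⟩
  obtain ⟨B, hB⟩ : ∃ B, B = b 0 0 0 := ⟨_, rfl⟩
  -- chain of kind 0
  have C1 : ∀ i, i ≤ N + 1 → b 0 i 0 = B ∧ (a 0 i 0 = A ∨ a 0 i 0 = -A) ∧
      o 0 i 0 + (cn k N m 0 i : ℤ) • a 0 i 0 = z + ((3 * (k : ℤ) + 3) * (i : ℤ)) • B := by
    intro i
    induction i with
    | zero =>
      intro _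
      refine ⟨hB.symm, Or.inl hA.symm, ?_⟩
      rw [hz]
      simp
    | succ i ih =>
      intro hi
      obtain ⟨h1, h2, h3⟩ := ih (by omega)
      obtain ⟨g1, g2, g3⟩ := hCHE k N m fl F hk hN hR 0 i 0 (i + 1) 0 (hb0 i (by omega))
        (hb0 (i + 1) hi) (Or.inl ⟨rfl, rfl, rfl⟩) _ _ _ _ _ _ (hP 0 i 0 (hb0 i (by omega)))
        (hP 0 (i + 1) 0 (hb0 (i + 1) hi))
      refine ⟨g1.trans h1, ?_, ?_⟩
      · rcases g2 with g2 | g2 <;> rcases h2 with h2 | h2 <;> rw [g2, h2] <;> simp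
      · rw [g3, h3, h1]
        push_cast
        module
  let σ : ℕ → ℤ := fun i => if a 0 i 0 = A then 1 else -1
  let ε : ℕ → ℕ → ℕ → ℤ := fun kd i j => if a kd i j = B then 1 else -1
  have hσ : ∀ i, Sg (σ i) := by
    intro i
    simp only [σ]
    split_ifs
    · exact Or.inl rfl
    · exact Or.inr rfl
  have hε : ∀ kd i j, Sg (ε kd i j) := by
    intro kd i j
    simp only [ε]
    split_ifs
    · exact Or.inl rfl
    · exact Or.inr rfl
  have hσa : ∀ i, i ≤ N + 1 → a 0 i 0 = σ i • A := fun i hi => NRM_sgn _ _ (C1 i hi).2.1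
  have hcn1 : ∀ i, 1 ≤ i → i ≤ N → cn k N m 0 i = k + 2 := by
    intro i h1 h2
    have : ¬ (i = 0 ∨ i = N + 1) := by omega
    simp [cn, this]
  have hcn2 : ∀ s i, (s = 1 ∨ s = 2) → cn k N m s i = k + 1 := by
    intro s i hs
    have : ¬ (s = 0) := by omega
    simp [cn, this]
  have C2 : ∀ s i, (s = 1 ∨ s = 2) → 1 ≤ i → i ≤ N → ∀ j, j < m →
      b s i j = (if s = 1 then σ i else - σ i) • A ∧ (a s i j = B ∨ a s i j = -B) ∧
      o s i j + ((k : ℤ) + 1) • a s i j =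
        z + ((if s = 1 then σ i else - σ i) * (2 * k + 2 + (3 * k + 3) * (j : ℤ))) • A +
          ((3 * k + 3) * (i : ℤ) + (k + 1)) • B := by
    intro s i hs hi hiN j
    obtain ⟨h1, h2, h3⟩ := C1 i (by omega)
    have h4 := hσa i (by omega)
    rw [hcn1 i hi hiN] at h3
    induction j with
    | zero =>
      intro hj
      obtain ⟨g1, g2, g3⟩ := hCHS k N m fl F hk hN hR i s hi hiN hj hs _ _ _ _ _ _
        (hP 0 i 0 (hb0 i (by omega))) (hP s i 0 (hb1 s i 0 hs hi hiN hj))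
      have e1 : (if s = 1 then a 0 i 0 else - a 0 i 0) =
          (if s = 1 then σ i else - σ i) • A := by
        rw [h4]
        split_ifs
        · rfl
        · rw [neg_smul]
      refine ⟨g1.trans e1, ?_, ?_⟩
      · rw [h1] at g2
        exact g2
      · rw [g3, e1, h1]
        push_cast at h3
        rw [h3]
        push_cast
        module
    | succ j ih =>
      intro hj
      obtain ⟨i1, i2, i3⟩ := ih (by omega)
      obtain ⟨g1, g2, g3⟩ := hCHE k N m fl F hk hN hR s i j i (j + 1)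
        (hb1 s i j hs hi hiN (by omega)) (hb1 s i (j + 1) hs hi hiN hj)
        (Or.inr ⟨by omega, rfl, rfl⟩) _ _ _ _ _ _ (hP s i j (hb1 s i j hs hi hiN (by omega)))
        (hP s i (j + 1) (hb1 s i (j + 1) hs hi hiN hj))
      rw [hcn2 s i hs] at g3
      push_cast at g3
      refine ⟨g1.trans i1, ?_, ?_⟩
      · rcases g2 with g2 | g2 <;> rcases i2 with h2 | h2 <;> rw [g2, h2] <;> simp
      · rw [g3, i3, i1]
        push_cast
        module
  refine ⟨z, A, B, σ, ε, ?_, hσ, hε, ?_⟩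
  · rw [hA, hB]
    exact (hP 0 0 0 (hb0 0 (by omega))).1
  rintro ⟨kd, i, j, x, y⟩ ⟨hbd, hl⟩
  simp only at hbd hl
  have hF := (hP kd i j hbd).2 x y hl
  rw [hF]
  rcases hbd with ⟨rfl, hi, rfl⟩ | ⟨hs, hi, hiN, hj⟩
  · obtain ⟨h1, h2, h3⟩ := C1 i hi
    have h4 := hσa i hi
    unfold lay
    simp only [if_true]
    have h5 : o 0 i 0 = z + ((3 * (k : ℤ) + 3) * (i : ℤ)) • B -
        (cn k N m 0 i : ℤ) • a 0 i 0 := eq_sub_of_add_eq h3
    rw [h5, h1, h4]
    module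
  · obtain ⟨h1, h2, h3⟩ := C2 kd i hs hi hiN j hj
    have h4 : a kd i j = ε kd i j • B := NRM_sgn _ _ h2
    have h0 : ¬ (kd = 0) := by omega
    unfold lay
    simp only [h0, if_false]
    have h5 := eq_sub_of_add_eq h3
    rw [h5, h1, h4]
    module

end Pool.Agent.T2h28.SQ
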