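import Pool.Agent.T2h28.SQ.Stm2

/-!
# Task PLC: every body is placed
-/

set_option autoImplicit false

namespace Pool.Agent.T2h28.SQ

open Pool.Agent.NPC Pool.Agent.NPC.R671

namespace PLCaux

lemma no_link {k N m : ℕ} {u v : Lb} (h : same u v) : ¬ link k N m u v := by
  obtain ⟨h1, h2, h3⟩ := h
  rintro ⟨-, -, -, h⟩
  rcases h with ⟨-, -, h, -⟩ | ⟨h, -, -, -, h' | h'⟩ | ⟨-, -, -, h, -⟩
  · omega
  · have := h'.1
    omega
  · have := h'.1
    omega
  · omega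

lemma same_symm {u v : Lb} (h : same u v) : same v u := ⟨h.1.symm, h.2.1.symm, h.2.2.symm⟩

/-- near in integers -/
lemma near_iff {k : ℕ} {p q : ℤ × ℤ} : near k p q ↔
    p.1 ≤ q.1 + k ∧ q.1 ≤ p.1 + k ∧ p.2 ≤ q.2 + k ∧ q.2 ≤ p.2 + k := by
  unfold near
  rw [abs_le, abs_le]
  constructor
  · rintro ⟨⟨h1, h2⟩, h3, h4⟩
    refine ⟨by omega, by omega, by omega, by omega⟩
  · rintro ⟨h1, h2, h3, h4⟩
    refine ⟨⟨by omega, by omega⟩, by omega, by omega⟩

lemma abs_iff {k : ℕ} {X Y X' Y' : ℤ} : (|X - X'| ≤ k ∧ |Y - Y'| ≤ k) ↔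
    X ≤ X' + k ∧ X' ≤ X + k ∧ Y ≤ Y' + k ∧ Y' ≤ Y + k :=
  near_iff (k := k) (p := (X, Y)) (q := (X', Y'))

/-- adjacency inside a body -/
lemma rep_same {k N m : ℕ} {fl : Fl} {F : Lb → ℤ × ℤ} (hF : Rep k N m fl F) {kd i j : ℕ}
    (hb : body N m kd i j) {x y x' y' : ℕ} (h : loc k N m fl kd i j x y)
    (h' : loc k N m fl kd i j x' y') (hne : ¬ (x = x' ∧ y = y')) :
    near k (F (kd, i, j, x, y)) (F (kd, i, j, x', y')) ↔
      x ≤ x' + k ∧ x' ≤ x + k ∧ y ≤ y' + k ∧ y' ≤ y + k := by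
  have hs : same (kd, i, j, x, y) (kd, i, j, x', y') := ⟨rfl, rfl, rfl⟩
  have hne' : ((kd, i, j, x, y) : Lb) ≠ (kd, i, j, x', y') := by
    intro h
    simp only [Prod.mk.injEq] at h
    exact hne ⟨h.2.2.2.1, h.2.2.2.2⟩
  rw [← hF _ _ ⟨hb, h⟩ ⟨hb, h'⟩ hne']
  constructor
  · rintro ⟨-, h | h | h⟩
    · exact h.2
    · exact absurd h (no_link hs)
    · exact absurd h (no_link (same_symm hs))
  · intro h
    exact ⟨hne', Or.inl ⟨hs, h⟩⟩

lemma bounds {k N m : ℕ} {fl : Fl} {kd i j : ℕ} :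
    2 * k + 1 ≤ wd k N m fl kd i j ∧ k + 1 ≤ cn k N m kd i ∧
      cn k N m kd i + k ≤ wd k N m fl kd i j := by
  have hH : 3 * k + 3 ≤ HH k m := by
    unfold HH
    nlinarith
  unfold wd cn
  split_ifs <;> omega

end PLCaux

open PLCaux in
theorem t_PLC : S_PLC_task := by
  intro hRIG hFRA k N m fl F hk hN hF kd i j hb
  obtain ⟨b1, b2, b3⟩ := bounds (k := k) (N := N) (m := m) (fl := fl) (kd := kd) (i := i) (j := j)
  set w := wd k N m fl kd i j with hw
  set c := cn k N m kd i with hc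
  -- the rectangle
  have hloc : ∀ x y : ℕ, 1 ≤ x → x ≤ w → y ≤ 2 * k + 2 → loc k N m fl kd i j x y :=
    fun x y h1 h2 h3 => Or.inl ⟨h1, h2, h3⟩
  have hR : RepR k w (2 * k + 2) (fun p => F (kd, i, j, p.1.toNat, p.2.toNat)) := by
    rintro ⟨p1, p2⟩ ⟨hp1, hp2, hp3, hp4⟩ ⟨q1, q2⟩ ⟨hq1, hq2, hq3, hq4⟩
    simp only at hp1 hp2 hp3 hp4 hq1 hq2 hq3 hq4
    push_cast at hp4 hq4
    by_cases hpq : p1 = q1 ∧ p2 = q2
    · obtain ⟨rfl, rfl⟩ := hpq
      rw [near_iff, near_iff]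
      simp
    · simp only
      rw [rep_same hF hb (hloc _ _ (by omega) (by omega) (by omega))
        (hloc _ _ (by omega) (by omega) (by omega)) (by omega), near_iff]
      simp only
      omega
  obtain ⟨o, a, b, hfr, hrect⟩ := hRIG k w (2 * k + 2) _ hk b1 (by omega) hR
  have hrect' : ∀ x y : ℕ, 1 ≤ x → x ≤ w → y ≤ 2 * k + 2 →
      F (kd, i, j, x, y) = o + (x : ℤ) • a + (y : ℤ) • b := by
    intro x y h1 h2 h3
    have := hrect ((x : ℤ), (y : ℤ)) ⟨by simp only; omega, by simp only; omega,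
      by simp only; omega, by simp only; push_cast; omega⟩
    simpa using this
  obtain ⟨hex, hnear⟩ := hFRA k a b hfr
  -- the pins
  have hpin : ∀ x₀ y₀ : ℕ, loc k N m fl kd i j x₀ y₀ →
      ¬ (1 ≤ x₀ ∧ x₀ ≤ w ∧ y₀ ≤ 2 * k + 2) →
      ∃ X Y : ℤ, F (kd, i, j, x₀, y₀) = o + X • a + Y • b ∧ ∀ x y : ℕ, 1 ≤ x → x ≤ w →
        y ≤ 2 * k + 2 → ((X ≤ x + k ∧ (x : ℤ) ≤ X + k ∧ Y ≤ y + k ∧ (y : ℤ) ≤ Y + k) ↔
          (x₀ ≤ x + k ∧ x ≤ x₀ + k ∧ y₀ ≤ y + k ∧ y ≤ y₀ + k)) := by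
    intro x₀ y₀ h0 hn
    obtain ⟨X, Y, hXY⟩ := hex o (F (kd, i, j, x₀, y₀))
    refine ⟨X, Y, hXY, ?_⟩
    intro x y h1 h2 h3
    rw [← rep_same hF hb h0 (hloc x y h1 h2 h3) (by omega), hXY, hrect' x y h1 h2 h3,
      (hnear o X Y x y).1, abs_iff]
  refine ⟨o, a, b, hfr, ?_⟩
  rintro x y (⟨h1, h2, h3⟩ | ⟨rfl, rfl⟩ | ⟨hkd, hi1, hi2, hx, rfl⟩)
  · exact hrect' x y h1 h2 h3
  · obtain ⟨X, Y, hXY, hP⟩ := hpin c (2 * k + 3) (Or.inr (Or.inl ⟨rfl, rfl⟩)) (by omega)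
    have e1 := (hP (c - k) (2 * k + 2) (by omega) (by omega) (by omega)).2 (by omega)
    have e2 := (hP (c + k) (2 * k + 2) (by omega) (by omega) (by omega)).2 (by omega)
    have e3 := (hP c (k + 3) (by omega) (by omega) (by omega)).2 (by omega)
    have e4 := (hP c (k + 2) (by omega) (by omega) (by omega)).1
    push_cast at e1 e2 e3 e4
    have hX : X = (c : ℤ) := by omega
    have hY : Y = ((2 * k + 3 : ℕ) : ℤ) := by
      push_cast
      by_contra hne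
      have := e4 (by omega)
      omega
    rw [hXY, hX, hY]
  · have hw' : w = 2 * k + 3 := by
      rw [hw, wd, if_pos hkd, if_neg (by omega)]
    rcases hx with rfl | rfl
    · obtain ⟨X, Y, hXY, hP⟩ := hpin 0 (k + 1) (Or.inr (Or.inr ⟨hkd, hi1, hi2, Or.inl rfl, rfl⟩))
        (by omega)
      have e1 := (hP 1 1 (by omega) (by omega) (by omega)).2 (by omega)
      have e2 := (hP 1 (2 * k + 1) (by omega) (by omega) (by omega)).2 (by omega)
      have e3 := (hP k (k + 1) (by omega) (by omega) (by omega)).2 (by omega)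
      have e4 := (hP (k + 1) (k + 1) (by omega) (by omega) (by omega)).1
      push_cast at e1 e2 e3 e4
      have hY : Y = ((k + 1 : ℕ) : ℤ) := by
        push_cast
        omega
      have hX : X = ((0 : ℕ) : ℤ) := by
        push_cast
        push_cast at hY
        by_contra hne
        have := e4 (by omega)
        omega
      rw [hXY, hX, hY]
    · obtain ⟨X, Y, hXY, hP⟩ := hpin (2 * k + 4) (k + 1)
        (Or.inr (Or.inr ⟨hkd, hi1, hi2, Or.inr rfl, rfl⟩)) (by omega)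
      have e1 := (hP (2 * k + 3) 1 (by omega) (by omega) (by omega)).2 (by omega)
      have e2 := (hP (2 * k + 3) (2 * k + 1) (by omega) (by omega) (by omega)).2 (by omega)
      have e3 := (hP (k + 4) (k + 1) (by omega) (by omega) (by omega)).2 (by omega)
      have e4 := (hP (k + 3) (k + 1) (by omega) (by omega) (by omega)).1
      push_cast at e1 e2 e3 e4
      have hY : Y = ((k + 1 : ℕ) : ℤ) := by
        push_cast
        omega
      have hX : X = ((2 * k + 4 : ℕ) : ℤ) := by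
        push_cast
        push_cast at hY
        by_contra hne
        have := e4 (by omega)
        omega
      rw [hXY, hX, hY]

end Pool.Agent.T2h28.SQ
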