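import Pool.Agent.T2h28.SQ.Stm2
import Pool.Agent.H671R2.PolyAuto

/-! # The reduction is computable in polynomial time (task PLY) -/

set_option autoImplicit false

namespace Pool.Agent.T2h28.SQ

open Pool.Agent.NPC Pool.Agent.NPC.R671

namespace PLY

variable {α : Type} [TEnc α]

@[fun_prop]
theorem poly_NN {f : α → Fm} (hf : Poly f) : Poly (fun a => NN (f a)) := by
  unfold NN
  fun_prop

@[fun_prop]
theorem poly_cls {f : α → Fm} {j : α → ℕ} (hf : Poly f) (hj : Poly j) :
    Poly (fun a => cls (f a) (j a)) := by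
  unfold cls
  fun_prop

@[fun_prop]
theorem poly_inC {l : α → Lit ℕ} {c : α → Lit ℕ × Lit ℕ × Lit ℕ} (hl : Poly l) (hc : Poly c) :
    Poly (fun a => inC (l a) (c a)) := by
  unfold inC
  fun_prop

@[fun_prop]
theorem poly_flg {f : α → Fm} {kd i j : α → ℕ} (hf : Poly f) (hkd : Poly kd) (hi : Poly i)
    (hj : Poly j) : Poly (fun a => flg (f a) (kd a) (i a) (j a)) := by
  unfold flg
  fun_prop

@[fun_prop]
theorem poly_HH {k : ℕ} {m : α → ℕ} (hm : Poly m) : Poly (fun a => HH k (m a)) := by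
  unfold HH
  fun_prop

@[fun_prop]
theorem poly_wd {k : ℕ} {f : α → Fm} {kd i j : α → ℕ} (hf : Poly f) (hkd : Poly kd) (hi : Poly i)
    (hj : Poly j) :
    Poly (fun a => wd k (NN (f a)) (f a).length (flg (f a)) (kd a) (i a) (j a)) := by
  unfold wd
  fun_prop

@[fun_prop]
theorem poly_cn {k : ℕ} {N m kd i : α → ℕ} (hN : Poly N) (hm : Poly m) (hkd : Poly kd)
    (hi : Poly i) : Poly (fun a => cn k (N a) (m a) (kd a) (i a)) := by
  unfold cn
  fun_prop

@[fun_prop]
theorem poly_goodB {k : ℕ} {f : α → Fm} {u : α → Lb} (hf : Poly f) (hu : Poly u) :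
    Poly (fun a => goodB k (f a) (u a)) := by
  unfold goodB
  fun_prop

@[fun_prop]
theorem poly_linkB {k : ℕ} {N m : α → ℕ} {u v : α → Lb} (hN : Poly N) (hm : Poly m) (hu : Poly u)
    (hv : Poly v) : Poly (fun a => linkB k (N a) (m a) (u a) (v a)) := by
  unfold linkB
  fun_prop

@[fun_prop]
theorem poly_adjB {k : ℕ} {N m : α → ℕ} {u v : α → Lb} (hN : Poly N) (hm : Poly m) (hu : Poly u)
    (hv : Poly v) : Poly (fun a => adjB k (N a) (m a) (u a) (v a)) := by
  unfold adjB
  fun_prop

theorem upoly_len : UPoly (fun φ : Fm => φ.length) := UPoly.length NPC.Poly.id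

theorem upoly_NN : UPoly (fun φ : Fm => NN φ) :=
  ((UPoly.const 3).mul upoly_len).add (UPoly.const 1)

theorem upoly_HH (k : ℕ) : UPoly (fun φ : Fm => HH k φ.length) :=
  (UPoly.const (3 * k + 3)).mul (upoly_len.add (UPoly.const 1))

theorem poly_box (k : ℕ) : Poly (fun φ : Fm =>
    (List.range 3 ×ˢ (List.range (NN φ + 2) ×ˢ (List.range (φ.length + 1) ×ˢ
    (List.range (2 * HH k φ.length + 2 * k + 5) ×ˢ List.range (2 * k + 4)))))) := by
  have h1 : Poly (fun φ : Fm => List.range (NN φ + 2)) := (upoly_NN.add (UPoly.const 2)).range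
  have h2 : Poly (fun φ : Fm => List.range (φ.length + 1)) := (upoly_len.add (UPoly.const 1)).range
  have h3 : Poly (fun φ : Fm => List.range (2 * HH k φ.length + 2 * k + 5)) :=
    ((((UPoly.const 2).mul (upoly_HH k)).add (UPoly.const (2 * k))).add (UPoly.const 5)).range
  have h4 : Poly (fun _ : Fm => List.range (2 * k + 4)) := NPC.Poly.const _
  have h5 : Poly (fun _ : Fm => List.range 3) := NPC.Poly.const _
  exact poly_product h5 (poly_product h1 (poly_product h2 (poly_product h3 h4)))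

theorem poly_verts (k : ℕ) : Poly (fun φ : Fm => verts k φ) := by
  unfold verts
  have h := poly_box k
  exact NPC.Poly.filter h (by fun_prop)

end PLY

open PLY

theorem t_PLY : S_PLY := by
  intro k
  have hv := poly_verts k
  unfold out
  refine NPC.Poly.map hv ?_
  refine NPC.Poly.map (hv.comp (NPC.Poly.fst NPC.Poly.id)) ?_
  fun_prop

end Pool.Agent.T2h28.SQ
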