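import Pool.Agent.T2h28.SQ.Stm2

/-! Task RED of the project SQ. -/

set_option autoImplicit false

namespace Pool.Agent.T2h28.SQ

open Pool.Agent.NPC Pool.Agent.NPC.R671

namespace RED

theorem adj_symm {k N m : ℕ} {u v : Lb} (h : adj k N m u v) : adj k N m v u := by
  obtain ⟨h1, h2⟩ := h
  refine ⟨h1.symm, ?_⟩
  rcases h2 with ⟨⟨a1, a2, a3⟩, h3, h4, h5, h6⟩ | h2 | h2
  · exact Or.inl ⟨⟨a1.symm, a2.symm, a3.symm⟩, h4, h3, h6, h5⟩
  · exact Or.inr (Or.inr h2)
  · exact Or.inr (Or.inl h2)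

theorem length_adj {n : ℕ} (G : SimpleGraph (Fin n)) : (adjMatrix G).length = n := by
  unfold adjMatrix
  exact List.length_ofFn

theorem main1 {k n : ℕ} {G : SimpleGraph (Fin n)} {φ : Fm} (hSQI : S_SQI)
    (vs : List Lb) (ad : Lb → Lb → Bool) (hs : ∀ a b, ad a b = ad b a) (hi : ∀ a, ad a a = false)
    (hG : adjMatrix G = adjMatrix (listGraph vs ad hs hi)) (hn : vs.Nodup)
    (hmem : ∀ u, u ∈ vs ↔ good k (NN φ) φ.length (flg φ) u)
    (had : ∀ u v, ad u v = true ↔ adj k (NN φ) φ.length u v) (hL : LatSq k G) :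
    ∃ F, Rep k (NN φ) φ.length (flg φ) F := by
  classical
  have hlen : n = vs.length := by
    have := congrArg List.length hG
    rwa [length_adj, length_adj] at this
  subst hlen
  have hG' : G = listGraph vs ad hs hi := adjMatrix_inj hG
  subst hG'
  obtain ⟨c, hc⟩ := hL
  have hex : ∀ u, good k (NN φ) φ.length (flg φ) u → ∃ i : Fin vs.length, vs[i] = u := by
    intro u hu
    obtain ⟨i, hi, hi'⟩ := List.getElem_of_mem ((hmem u).2 hu)
    exact ⟨⟨i, hi⟩, hi'⟩
  refine ⟨fun u => if h : ∃ i : Fin vs.length, vs[i] = u then c h.choose else 0, ?_⟩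
  intro u v hu hv huv
  have hu' := hex u hu
  have hv' := hex v hv
  simp only [dif_pos hu', dif_pos hv']
  have e1 := hu'.choose_spec
  have e2 := hv'.choose_spec
  have hne : hu'.choose ≠ hv'.choose := by
    intro h
    apply huv
    rw [← e1, ← e2, h]
  rw [← hSQI, ← hc _ _ hne, ← had]
  show ad u v = true ↔ ad vs[hu'.choose] vs[hv'.choose] = true
  rw [e1, e2]

theorem main2 {k : ℕ} {φ : Fm} (hSQI : S_SQI)
    (vs : List Lb) (ad : Lb → Lb → Bool) (hs : ∀ a b, ad a b = ad b a) (hi : ∀ a, ad a a = false)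
    (hn : vs.Nodup) (hmem : ∀ u, u ∈ vs ↔ good k (NN φ) φ.length (flg φ) u)
    (had : ∀ u v, ad u v = true ↔ adj k (NN φ) φ.length u v)
    (F : Lb → ℤ × ℤ) (hF : Rep k (NN φ) φ.length (flg φ) F) :
    LatSq k (listGraph vs ad hs hi) := by
  refine ⟨fun i => F vs[i], fun i j hij => ?_⟩
  have hne : vs[i] ≠ vs[j] := by
    intro h
    exact hij (Fin.ext ((List.Nodup.getElem_inj_iff hn).1 h))
  rw [hSQI, ← hF vs[i] vs[j] ((hmem _).1 (List.getElem_mem _)) ((hmem _).1 (List.getElem_mem _)) hne,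
    ← had]
  rfl

end RED

theorem t_RED : S_RED_task := by
  intro hSQI hVER k φ hφ
  obtain ⟨hn, hmem, had⟩ := hVER k φ hφ
  have hs : ∀ a b, adjB k (NN φ) φ.length a b = adjB k (NN φ) φ.length b a := by
    intro a b
    rw [Bool.eq_iff_iff, had, had]
    exact ⟨RED.adj_symm, RED.adj_symm⟩
  have hi : ∀ a, adjB k (NN φ) φ.length a a = false := by
    intro a
    rw [Bool.eq_false_iff, Ne, had]
    exact fun h => h.1 rfl
  have hout : out k φ = adjMatrix (listGraph (verts k φ) (adjB k (NN φ) φ.length) hs hi) := by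
    rw [adjMatrix_listGraph]
    rfl
  rw [hout]
  constructor
  · rintro ⟨n, G, hG, hL⟩
    exact RED.main1 hSQI _ _ hs hi hG hn hmem had hL
  · rintro ⟨F, hF⟩
    exact ⟨_, _, rfl, RED.main2 hSQI _ _ hs hi hn hmem had F hF⟩

end Pool.Agent.T2h28.SQ
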