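import Pool.Agent.T2h28.SQ.Stm2

/-! # Task RIG: the rigidity of rectangles -/

set_option autoImplicit false

namespace Pool.Agent.T2h28.SQ

namespace RIG

theorem mem_win (k : ℕ) (c p : ℤ × ℤ) :
    p ∈ win k c ↔ (c.1 ≤ p.1 ∧ p.1 ≤ c.1 + k) ∧ (c.2 ≤ p.2 ∧ p.2 ≤ c.2 + k) := by
  unfold win
  rw [Finset.mem_product, Finset.mem_Icc, Finset.mem_Icc]

theorem frame (k : ℕ) (a b o' : ℤ × ℤ) (h : Fr a b) : ∃ o : ℤ × ℤ, ∀ y : ℤ × ℤ, ∃ q : ℤ × ℤ,
    y = o + q.1 • a + q.2 • b ∧ ∀ c : ℤ × ℤ,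
      (y ∈ win k (o' + c.1 • a + c.2 • b) ↔ q ∈ win k c) := by
  obtain ⟨x, z⟩ := o'
  rcases h with ⟨h1 | h1, h2 | h2⟩ | ⟨h1 | h1, h2 | h2⟩ <;> subst h1 <;> subst h2
  · refine ⟨(x, z), fun y => ⟨(y.1 - x, y.2 - z), ?_, fun c => ?_⟩⟩
    · ext <;> simp
    · simp only [mem_win, Prod.fst_add, Prod.snd_add, Prod.smul_fst, Prod.smul_snd, smul_eq_mul,
        mul_one, mul_zero, mul_neg]
      omega
  · refine ⟨(x, z + k), fun y => ⟨(y.1 - x, z + k - y.2), ?_, fun c => ?_⟩⟩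
    · ext <;> simp
    · simp only [mem_win, Prod.fst_add, Prod.snd_add, Prod.smul_fst, Prod.smul_snd, smul_eq_mul,
        mul_one, mul_zero, mul_neg]
      omega
  · refine ⟨(x + k, z), fun y => ⟨(x + k - y.1, y.2 - z), ?_, fun c => ?_⟩⟩
    · ext <;> simp
    · simp only [mem_win, Prod.fst_add, Prod.snd_add, Prod.smul_fst, Prod.smul_snd, smul_eq_mul,
        mul_one, mul_zero, mul_neg]
      omega
  · refine ⟨(x + k, z + k), fun y => ⟨(x + k - y.1, z + k - y.2), ?_, fun c => ?_⟩⟩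
    · ext <;> simp
    · simp only [mem_win, Prod.fst_add, Prod.snd_add, Prod.smul_fst, Prod.smul_snd, smul_eq_mul,
        mul_one, mul_zero, mul_neg]
      omega
  · refine ⟨(x, z), fun y => ⟨(y.2 - z, y.1 - x), ?_, fun c => ?_⟩⟩
    · ext <;> simp
    · simp only [mem_win, Prod.fst_add, Prod.snd_add, Prod.smul_fst, Prod.smul_snd, smul_eq_mul,
        mul_one, mul_zero, mul_neg]
      omega
  · refine ⟨(x + k, z), fun y => ⟨(y.2 - z, x + k - y.1), ?_, fun c => ?_⟩⟩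
    · ext <;> simp
    · simp only [mem_win, Prod.fst_add, Prod.snd_add, Prod.smul_fst, Prod.smul_snd, smul_eq_mul,
        mul_one, mul_zero, mul_neg]
      omega
  · refine ⟨(x, z + k), fun y => ⟨(z + k - y.2, y.1 - x), ?_, fun c => ?_⟩⟩
    · ext <;> simp
    · simp only [mem_win, Prod.fst_add, Prod.snd_add, Prod.smul_fst, Prod.smul_snd, smul_eq_mul,
        mul_one, mul_zero, mul_neg]
      omega
  · refine ⟨(x + k, z + k), fun y => ⟨(z + k - y.2, x + k - y.1), ?_, fun c => ?_⟩⟩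
    · ext <;> simp
    · simp only [mem_win, Prod.fst_add, Prod.snd_add, Prod.smul_fst, Prod.smul_snd, smul_eq_mul,
        mul_one, mul_zero, mul_neg]
      omega

/-- the corners of the windows in the rectangle -/
def Ok (k w h : ℕ) (c : ℤ × ℤ) : Prop :=
  (1 ≤ c.1 ∧ c.1 ≤ (w : ℤ) - k) ∧ (0 ≤ c.2 ∧ c.2 ≤ (h : ℤ) - k)

theorem ok_win (k w h : ℕ) (c : ℤ × ℤ) (hc : Ok k w h c) : ∀ p ∈ win k c, p ∈ rect w h := by
  intro p hp
  rw [mem_win] at hp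
  obtain ⟨⟨h1, h2⟩, h3, h4⟩ := hc
  show 1 ≤ p.1 ∧ p.1 ≤ (w : ℤ) ∧ 0 ≤ p.2 ∧ p.2 ≤ (h : ℤ)
  omega

theorem half (k w h : ℕ) (hw : 2 * k + 1 ≤ w) (hh : 2 * k ≤ h) (p q : ℤ × ℤ)
    (hp : p ∈ rect w h) (hq : q ∈ rect w h)
    (hn : q.1 ≤ p.1 + k ∧ q.2 ≤ p.2 + k)
    (H : ∀ c, Ok k w h c → (p ∈ win k c ↔ q ∈ win k c)) : ¬ p.1 < q.1 ∧ ¬ p.2 < q.2 := by
  obtain ⟨p1, p2⟩ := p
  obtain ⟨q1, q2⟩ := q
  obtain ⟨hp1, hp2, hp3, hp4⟩ := hp
  obtain ⟨hq1, hq2, hq3, hq4⟩ := hq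
  simp only at hp1 hp2 hp3 hp4 hq1 hq2 hq3 hq4 hn ⊢
  constructor
  · intro hlt
    by_cases hc : p1 + 1 ≤ (w : ℤ) - k
    · have h1 := H (p1 + 1, min q2 ((h : ℤ) - k)) ⟨⟨by simp only; omega, hc⟩, by
        simp only; omega⟩
      rw [mem_win, mem_win] at h1
      simp only at h1
      omega
    · have h1 := H (p1 - k, min p2 ((h : ℤ) - k)) ⟨⟨by simp only; omega, by simp only; omega⟩, by
        simp only; omega⟩
      rw [mem_win, mem_win] at h1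
      simp only at h1
      omega
  · intro hlt
    by_cases hc : p2 + 1 ≤ (h : ℤ) - k
    · have h1 := H (min q1 ((w : ℤ) - k), p2 + 1) ⟨⟨by simp only; omega, by simp only; omega⟩, by
        simp only; omega⟩
      rw [mem_win, mem_win] at h1
      simp only at h1
      omega
    · have h1 := H (min p1 ((w : ℤ) - k), p2 - k) ⟨⟨by simp only; omega, by simp only; omega⟩, by
        simp only; omega⟩
      rw [mem_win, mem_win] at h1
      simp only at h1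
      omega

theorem eq_of (k w h : ℕ) (hw : 2 * k + 1 ≤ w) (hh : 2 * k ≤ h) (p q : ℤ × ℤ)
    (hp : p ∈ rect w h) (H : ∀ c, Ok k w h c → (p ∈ win k c ↔ q ∈ win k c)) : p = q := by
  obtain ⟨hp1, hp2, hp3, hp4⟩ := hp
  have hok : Ok k w h (min p.1 ((w : ℤ) - k), min p.2 ((h : ℤ) - k)) := by
    refine ⟨⟨?_, ?_⟩, ?_, ?_⟩ <;> simp only <;> omega
  have h1 : p ∈ win k (min p.1 ((w : ℤ) - k), min p.2 ((h : ℤ) - k)) := by
    rw [mem_win]
    simp only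
    omega
  have h2 := (H _ hok).1 h1
  have hq := ok_win k w h _ hok q h2
  rw [mem_win] at h1 h2
  simp only at h1 h2
  have h3 := half k w h hw hh p q ⟨hp1, hp2, hp3, hp4⟩ hq (by omega) H
  have h4 := half k w h hw hh q p hq ⟨hp1, hp2, hp3, hp4⟩ (by omega) (fun c hc => (H c hc).symm)
  ext <;> omega

end RIG

open RIG in
theorem t_RIG : S_RIG_task := by
  intro hINJ hWIN hSTP hAFF k w h f hk hw hh hf
  have hg : ∀ c : ℤ × ℤ, ∃ c', Ok k w h c → (win k c).image f = win k c' := by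
    intro c
    by_cases hc : Ok k w h c
    · obtain ⟨c', hc'⟩ := hWIN k w h f hk hw hh hf c (ok_win k w h c hc)
      exact ⟨c', fun _ => hc'⟩
    · exact ⟨0, fun h => absurd h hc⟩
  choose g hg using hg
  obtain ⟨o', a, b, hF, hgc⟩ := hAFF ((w : ℤ) - k) ((h : ℤ) - k) g (by omega) (by omega)
    (fun c d h1 h2 h3 h4 h5 h6 h7 h8 => hSTP k w h f hk hw hh hf c d (g c) (g d)
      (ok_win k w h c ⟨⟨h1, h2⟩, h3, h4⟩) (ok_win k w h d ⟨⟨h5, h6⟩, h7, h8⟩)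
      (hg c ⟨⟨h1, h2⟩, h3, h4⟩) (hg d ⟨⟨h5, h6⟩, h7, h8⟩))
  obtain ⟨o, ho⟩ := frame k a b o' hF
  refine ⟨o, a, b, hF, fun p hp => ?_⟩
  obtain ⟨q, hq1, hq2⟩ := ho (f p)
  have hpq : p = q := by
    refine eq_of k w h hw hh p q hp fun c hc => ?_
    rw [← hq2 c, ← hgc c hc.1.1 hc.1.2 hc.2.1 hc.2.2, ← hg c hc, Finset.mem_image]
    constructor
    · intro h1
      exact ⟨p, h1, rfl⟩
    · rintro ⟨p', h1, h2⟩
      have h3 := hINJ k w h f hk hw hh hf p' (ok_win k w h c hc p' h1) p hp h2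
      rwa [← h3]
  rw [← hpq] at hq1
  exact hq1

end Pool.Agent.T2h28.SQ
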