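import Pool.Agent.T2h28.SQ.Stm2

set_option autoImplicit false

namespace Pool.Agent.T2h28.SQ

theorem t_ROW : S_ROW := by
  classical
  intro N m fl σ hN hσ
  constructor
  · rintro ⟨ε, hε, hNC⟩ τ hτ j hj
    by_contra hc
    push Not at hc
    have hfl : ∀ i, 1 ≤ i → i ≤ N → fl (kdt σ τ i) i j = true := by
      intro i h1 h2
      have := hc i h1 h2
      simpa using this
    obtain ⟨h1, h2, h3⟩ := hNC τ hτ j hj
    have hall : ∀ i, 1 ≤ i → i ≤ N → ε (kdt σ τ i) i j = 1 := by
      intro i hi
      induction i, hi using Nat.le_induction with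
      | base => intro _; exact h1 (hfl 1 le_rfl hN)
      | succ i hi ih =>
        intro hi2
        have h4 := ih (by omega)
        have h5 := h3 i hi (by omega) (hfl i hi (by omega)) (hfl (i + 1) (by omega) hi2)
        rcases hε (kdt σ τ (i + 1)) (i + 1) j with h6 | h6
        · exact h6
        · exact absurd ⟨h4, h6⟩ h5
    have h4 := hall N hN le_rfl
    have h5 := h2 (hfl N hN le_rfl)
    rw [h4] at h5
    norm_num at h5
  · intro H
    let r : ℤ → ℕ → ℕ := fun τ j => if h : Sg τ ∧ j < m then (H τ h.1 j h.2).choose else 0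
    have hr : ∀ τ, Sg τ → ∀ j < m, 1 ≤ r τ j ∧ r τ j ≤ N ∧
        fl (kdt σ τ (r τ j)) (r τ j) j = false := by
      intro τ hτ j hj
      have h : Sg τ ∧ j < m := ⟨hτ, hj⟩
      have e : r τ j = (H τ h.1 j h.2).choose := dif_pos h
      rw [e]
      exact (H τ h.1 j h.2).choose_spec
    let ε : ℕ → ℕ → ℕ → ℤ := fun kd i j =>
      if i < r (if kd = 1 then σ i else - σ i) j then 1 else -1
    have hside : ∀ τ, Sg τ → ∀ i, (if kdt σ τ i = 1 then σ i else - σ i) = τ := by
      intro τ hτ i
      unfold kdt
      by_cases h : σ i = τ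
      · simp [h]
      · rw [if_neg h, if_neg (by norm_num)]
        rcases hσ i with h1 | h1 <;> rcases hτ with h2 | h2
        · exact absurd (h1.trans h2.symm) h
        · rw [h1, h2]
        · rw [h1, h2]; norm_num
        · exact absurd (h1.trans h2.symm) h
    have hεv : ∀ τ, Sg τ → ∀ i j, ε (kdt σ τ i) i j = if i < r τ j then 1 else -1 := by
      intro τ hτ i j
      show (if i < r (if kdt σ τ i = 1 then σ i else - σ i) j then (1 : ℤ) else -1) = _
      rw [hside τ hτ i]
    refine ⟨ε, ?_, ?_⟩
    · intro kd i j
      show Sg (if i < r (if kd = 1 then σ i else - σ i) j then (1 : ℤ) else -1)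
      split_ifs
      · exact Or.inl rfl
      · exact Or.inr rfl
      · exact Or.inl rfl
      · exact Or.inr rfl
    · intro τ hτ j hj
      obtain ⟨h1, h2, h3⟩ := hr τ hτ j hj
      refine ⟨?_, ?_, ?_⟩
      · intro h
        rw [hεv τ hτ, if_pos]
        rcases Nat.lt_or_ge 1 (r τ j) with h4 | h4
        · exact h4
        · have h5 : r τ j = 1 := by omega
          rw [h5] at h3
          rw [h3] at h
          exact absurd h (by decide)
      · intro _
        rw [hεv τ hτ, if_neg (by omega)]
      · intro i hi hiN ha hb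
        rw [hεv τ hτ, hεv τ hτ]
        rintro ⟨h4, h5⟩
        have h6 : i < r τ j := by
          by_contra hc
          rw [if_neg hc] at h4
          norm_num at h4
        have h7 : ¬ (i + 1 < r τ j) := by
          intro hc
          rw [if_pos hc] at h5
          norm_num at h5
        have h8 : r τ j = i + 1 := by omega
        rw [h8] at h3
        rw [h3] at hb
        exact absurd hb (by decide)

end Pool.Agent.T2h28.SQ
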