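import Pool.Agent.T2h28.SQ.Stm2

set_option autoImplicit false

namespace Pool.Agent.T2h28.SQ

theorem t_SQI : S_SQI := by
  intro k p q
  unfold square near
  rw [Set.prod_inter_prod, Set.prod_nonempty_iff, Set.Icc_inter_Icc, Set.Icc_inter_Icc,
    Set.nonempty_Icc, Set.nonempty_Icc]
  have h : ∀ a b : ℤ, ((a : ℝ) ⊔ (b : ℝ) ≤ ((a : ℝ) + k) ⊓ ((b : ℝ) + k)) ↔ |a - b| ≤ k := by
    intro a b
    rw [le_inf_iff, sup_le_iff, sup_le_iff, abs_le]
    have hk : (0 : ℝ) ≤ k := Nat.cast_nonneg k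
    constructor
    · rintro ⟨⟨_, h1⟩, h2, _⟩
      have h1' : (b : ℤ) ≤ a + k := by exact_mod_cast h1
      have h2' : (a : ℤ) ≤ b + k := by exact_mod_cast h2
      constructor <;> linarith
    · rintro ⟨h1, h2⟩
      have h1' : (b : ℝ) ≤ a + k := by exact_mod_cast (by linarith : b ≤ a + k)
      have h2' : (a : ℝ) ≤ b + k := by exact_mod_cast (by linarith : a ≤ b + k)
      exact ⟨⟨by linarith, h1'⟩, h2', by linarith⟩
  rw [h, h]

end Pool.Agent.T2h28.SQ
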