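import Pool.Agent.T2h28.SQ.Stm2

set_option autoImplicit false

namespace Pool.Agent.T2h28.SQ

theorem t_STP : S_STP_task := by
  intro hinj hcrd k w h f hk hw hh hf c d c' d' hc hd ec ed
  apply hcrd k c d c' d' hk
  have h1 : win k c' ∩ win k d' = (win k c ∩ win k d).image f := by
    rw [← ec, ← ed]
    ext P
    simp only [Finset.mem_inter, Finset.mem_image]
    constructor
    · rintro ⟨⟨p, hp, rfl⟩, q, hq, e⟩
      have : q = p := hinj k w h f hk hw hh hf q (hd q hq) p (hc p hp) e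
      subst this
      exact ⟨q, ⟨hp, hq⟩, rfl⟩
    · rintro ⟨p, ⟨hp, hq⟩, rfl⟩
      exact ⟨⟨p, hp, rfl⟩, p, hq, rfl⟩
  rw [h1, Finset.card_image_of_injOn]
  intro p hp q hq e
  rw [Finset.mem_coe, Finset.mem_inter] at hp hq
  exact hinj k w h f hk hw hh hf p (hc p hp.1) q (hc q hq.1) e

end Pool.Agent.T2h28.SQ
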