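import Pool.Agent.T2h28.SQ.Stm2

set_option autoImplicit false

namespace Pool.Agent.T2h28.SQ

open Pool.Agent.NPC Pool.Agent.NPC.R671

theorem vbb_near_comm (k : ℕ) (p q : ℤ × ℤ) : near k p q ↔ near k q p := by
  unfold near; rw [abs_sub_comm p.1, abs_sub_comm p.2]

theorem vbb_adj_comm (k N m : ℕ) (u v : Lb) : adj k N m u v ↔ adj k N m v u := by
  have key : ∀ u v : Lb, adj k N m u v → adj k N m v u := by
    intro u v h
    obtain ⟨hne, h⟩ := h
    refine ⟨fun e => hne e.symm, ?_⟩
    rcases h with ⟨⟨h1, h2, h3⟩, h4, h5, h6, h7⟩ | h | h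
    · exact Or.inl ⟨⟨h1.symm, h2.symm, h3.symm⟩, h5, h4, h7, h6⟩
    · exact Or.inr (Or.inr h)
    · exact Or.inr (Or.inl h)
  exact ⟨key u v, key v u⟩

/-- the description of the layout of a vertex of kind `1` or `2` -/
theorem vbb_desc (k N m : ℕ) (fl : Fl) (σ : ℕ → ℤ) (ε : ℕ → ℕ → ℕ → ℤ)
    (hσ : ∀ i, Sg (σ i)) (hε : ∀ kd i j, Sg (ε kd i j)) (kd i j x y : ℕ)
    (hu : good k N m fl (kd, i, j, x, y)) (h0 : kd ≠ 0) :
    ∃ τ e : ℤ, Sg τ ∧ kdt σ τ i = kd ∧ (kd = 1 ∨ kd = 2) ∧ 1 ≤ i ∧ i ≤ N ∧ j < m ∧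
      lay k N m σ ε (kd, i, j, x, y) =
        (τ * (2 * k + 2 + (3 * k + 3) * (j : ℤ) + y), (3 * k + 3) * (i : ℤ) + (k + 1) + e) ∧
      (e = (x : ℤ) - (k + 1) ∨ e = (k + 1) - (x : ℤ)) ∧ e = ε kd i j * ((x : ℤ) - (k + 1)) ∧
      (e ≤ k ∨ (fl kd i j = true ∧ ε kd i j = 1 ∧ e ≤ k + 2)) ∧
      (-e ≤ k ∨ (fl kd i j = true ∧ ε kd i j = -1 ∧ -e ≤ k + 2)) ∧
      (y = 2 * k + 3 → x = k + 1 ∧ e = 0) ∧ y ≤ 2 * k + 3 := by
  obtain ⟨hb, hl⟩ := hu
  simp only at hb hl
  have hkd : (kd = 1 ∨ kd = 2) ∧ 1 ≤ i ∧ i ≤ N ∧ j < m := by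
    rcases hb with hb | hb
    · exact absurd hb.1 h0
    · exact hb
  obtain ⟨h12, hi1, hiN, hjm⟩ := hkd
  have hcn : cn k N m kd i = k + 1 := by simp [cn, h0]
  have hwd : wd k N m fl kd i j = if fl kd i j = true then 2 * k + 3 else 2 * k + 1 := by
    simp [wd, h0]
  refine ⟨if kd = 1 then σ i else - σ i, ε kd i j * ((x : ℤ) - (k + 1)), ?_, ?_, h12, hi1, hiN, hjm,
    ?_, ?_, rfl, ?_, ?_, ?_, ?_⟩
  · rcases h12 with h | h
    · simpa [h] using hσ i
    · have h1 : ¬ kd = 1 := by omega
      simp only [h1, if_false]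
      rcases hσ i with e | e
      · right; omega
      · left; omega
  · rcases h12 with h | h
    · simp [kdt, h]
    · have h1 : ¬ kd = 1 := by omega
      simp only [h1, if_false, kdt]
      have : ¬ σ i = - σ i := by
        rcases hσ i with e | e <;> omega
      simp [this, h]
  · simp only [lay, h0, if_false]
  · rcases hε kd i j with e | e
    · left; rw [e]; ring
    · right; rw [e]; ring
  · rcases hl with ⟨hx1, hx2, hy⟩ | ⟨hx, hy⟩ | h
    · rw [hwd] at hx2
      rcases hε kd i j with e | e <;> rw [e]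
      · by_cases hf : fl kd i j = true
        · right
          rw [if_pos hf] at hx2
          refine ⟨hf, rfl, ?_⟩
          omega
        · left
          rw [if_neg hf] at hx2
          omega
      · left; omega
    · rw [hcn] at hx
      left
      rw [hx]
      push_cast
      simp
    · exact absurd h.1 h0
  · rcases hl with ⟨hx1, hx2, hy⟩ | ⟨hx, hy⟩ | h
    · rw [hwd] at hx2
      rcases hε kd i j with e | e <;> rw [e]
      · left; omega
      · by_cases hf : fl kd i j = true
        · right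
          rw [if_pos hf] at hx2
          refine ⟨hf, rfl, ?_⟩
          omega
        · left
          rw [if_neg hf] at hx2
          omega
    · rw [hcn] at hx
      left
      rw [hx]
      push_cast
      simp
    · exact absurd h.1 h0
  · intro hy'
    rcases hl with ⟨hx1, hx2, hy⟩ | ⟨hx, hy⟩ | h
    · omega
    · rw [hcn] at hx
      refine ⟨hx, ?_⟩
      rw [hx]; push_cast; simp
    · exact absurd h.1 h0
  · rcases hl with ⟨hx1, hx2, hy⟩ | ⟨hx, hy⟩ | h
    · omega
    · omega
    · exact absurd h.1 h0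

theorem vbb_same (k : ℕ) (τ : ℤ) (A B A' B' : ℤ) (hτ : Sg τ) :
    near k (τ * A, B) (τ * A', B') ↔ |A - A'| ≤ k ∧ |B - B'| ≤ k := by
  unfold near
  simp only
  rw [← mul_sub, abs_mul]
  rcases hτ with h | h <;> simp [h]

/-- different rows, same side -/
theorem vbb_row (k N m : ℕ) (fl : Fl) (σ : ℕ → ℤ) (ε : ℕ → ℕ → ℕ → ℤ) (hk : 1 ≤ k)
    (hσ : ∀ i, Sg (σ i)) (hε : ∀ kd i j, Sg (ε kd i j)) (kd i j x y kd' i' j' x' y' : ℕ)
    (hu : good k N m fl (kd, i, j, x, y)) (h0 : kd ≠ 0)
    (hv : good k N m fl (kd', i', j', x', y')) (h0' : kd' ≠ 0) (hj : j < j') (τ : ℤ) (hτ : Sg τ)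
    (h1 : kdt σ τ i = kd) (h2 : kdt σ τ i' = kd') :
    adj k N m (kd, i, j, x, y) (kd', i', j', x', y') ↔
      near k (lay k N m σ ε (kd, i, j, x, y)) (lay k N m σ ε (kd', i', j', x', y')) := by
  obtain ⟨t, e, ht, ht1, h12, hi1, hiN, hjm, hL, he, -, he1, he2, hy3, hy4⟩ :=
    vbb_desc k N m fl σ ε hσ hε kd i j x y hu h0
  obtain ⟨t', e', ht', ht1', h12', hi1', hiN', hjm', hL', he', -, he1', he2', hy3', hy4'⟩ :=
    vbb_desc k N m fl σ ε hσ hε kd' i' j' x' y' hv h0'
  have hst : ∀ (t : ℤ) (i kd : ℕ), Sg t → kdt σ t i = kd → kdt σ τ i = kd → t = τ := by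
    intro t i kd ht a b
    rw [← b] at a
    unfold kdt at a
    rcases hσ i with e | e <;> rcases ht with e1 | e1 <;> rcases hτ with e2 | e2 <;>
      simp [e, e1, e2] at a ⊢
  have ett := hst t i kd ht ht1 h1
  have ett' := hst t' i' kd' ht' ht1' h2
  subst ett
  rw [ett'] at hL'
  rw [hL, hL', vbb_same k t _ _ _ _ ht]
  have hc : cn k N m kd' i' = k + 1 := by simp [cn, h0']
  have hJ : (3 * (k : ℤ) + 3) * (j : ℤ) + (3 * k + 3) ≤ (3 * (k : ℤ) + 3) * (j' : ℤ) := by
    have : (3 * (k : ℤ) + 3) * ((j : ℤ) + 1) ≤ (3 * (k : ℤ) + 3) * (j' : ℤ) := by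
      apply mul_le_mul_of_nonneg_left
      · omega
      · omega
    linarith
  have hJ2 : j' ≠ j + 1 → (3 * (k : ℤ) + 3) * (j : ℤ) + 2 * (3 * k + 3) ≤ (3 * (k : ℤ) + 3) * (j' : ℤ) := by
    intro hne
    have : (3 * (k : ℤ) + 3) * ((j : ℤ) + 2) ≤ (3 * (k : ℤ) + 3) * (j' : ℤ) := by
      apply mul_le_mul_of_nonneg_left
      · omega
      · omega
    linarith
  have hJe : j' = j + 1 → (3 * (k : ℤ) + 3) * (j' : ℤ) = (3 * (k : ℤ) + 3) * (j : ℤ) + (3 * k + 3) := by
    intro e; subst e; push_cast; ring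
  have hI : i ≠ i' → (3 * (k : ℤ) + 3) * (i : ℤ) + (3 * k + 3) ≤ (3 * (k : ℤ) + 3) * (i' : ℤ) ∨
      (3 * (k : ℤ) + 3) * (i' : ℤ) + (3 * k + 3) ≤ (3 * (k : ℤ) + 3) * (i : ℤ) := by
    intro hne
    rcases Nat.lt_or_ge i i' with h | h
    · left
      have : (3 * (k : ℤ) + 3) * ((i : ℤ) + 1) ≤ (3 * (k : ℤ) + 3) * (i' : ℤ) := by
        apply mul_le_mul_of_nonneg_left
        · omega
        · omega
      linarith
    · right
      have : (3 * (k : ℤ) + 3) * ((i' : ℤ) + 1) ≤ (3 * (k : ℤ) + 3) * (i : ℤ) := by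
        apply mul_le_mul_of_nonneg_left
        · omega
        · omega
      linarith
  constructor
  · rintro ⟨-, h | h | h⟩
    · exfalso
      have := h.1.2.2
      simp only at this
      omega
    · unfold link at h
      simp only at h
      obtain ⟨g1, g2, g3, h | h | h⟩ := h
      · exact absurd h.1 h0
      · exact absurd h.1 h0
      · obtain ⟨-, gk, gi, gj, gy⟩ := h
        obtain ⟨gx, ge⟩ := hy3 gy
        have hJe := hJe gj
        subst gi
        rw [hc] at g2 g3
        generalize (3 * (k : ℤ) + 3) * (j : ℤ) = J at *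
        generalize (3 * (k : ℤ) + 3) * (j' : ℤ) = J' at *
        generalize (3 * (k : ℤ) + 3) * (i' : ℤ) = I' at *
        constructor
        · rw [abs_le]; constructor <;> omega
        · rw [abs_le]; constructor <;> omega
    · exfalso
      unfold link at h
      simp only at h
      obtain ⟨g1, g2, g3, h | h | h⟩ := h
      · exact absurd h.1 h0'
      · exact absurd h.1 h0'
      · obtain ⟨-, gk, gi, gj, gy⟩ := h
        omega
  · rintro ⟨hA, hB⟩
    rw [abs_le] at hA hB
    have hj1 : j' = j + 1 := by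
      by_contra hne
      have := hJ2 hne
      generalize (3 * (k : ℤ) + 3) * (j : ℤ) = J at *
      generalize (3 * (k : ℤ) + 3) * (j' : ℤ) = J' at *
      omega
    have hJe := hJe hj1
    have hyy : y = 2 * k + 3 ∧ y' = 0 := by
      generalize (3 * (k : ℤ) + 3) * (j : ℤ) = J at *
      generalize (3 * (k : ℤ) + 3) * (j' : ℤ) = J' at *
      omega
    obtain ⟨gx, ge⟩ := hy3 hyy.1
    have hii : i = i' := by
      by_contra hne
      have := hI hne
      have a1 : e' ≤ k + 2 := by
        rcases he1' with h | h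
        · omega
        · exact h.2.2
      have a2 : -e' ≤ k + 2 := by
        rcases he2' with h | h
        · omega
        · exact h.2.2
      generalize (3 * (k : ℤ) + 3) * (i : ℤ) = I at *
      generalize (3 * (k : ℤ) + 3) * (i' : ℤ) = I' at *
      omega
    subst hii
    have hkk : kd' = kd := by rw [← h1, ← h2]
    refine ⟨?_, Or.inr (Or.inl ?_)⟩
    · intro e
      simp only [Prod.mk.injEq] at e
      omega
    · unfold link
      simp only
      rw [hc]
      refine ⟨hyy.2, ?_, ?_, Or.inr (Or.inr ⟨h0, hkk, trivial, hj1, hyy.1⟩)⟩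
      · generalize (3 * (k : ℤ) + 3) * (i : ℤ) = I at *
        omega
      · generalize (3 * (k : ℤ) + 3) * (i : ℤ) = I at *
        omega

/-- same row and side, different rods -/
theorem vbb_rod (k N m : ℕ) (fl : Fl) (σ : ℕ → ℤ) (ε : ℕ → ℕ → ℕ → ℤ) (hk : 1 ≤ k)
    (hσ : ∀ i, Sg (σ i)) (hε : ∀ kd i j, Sg (ε kd i j)) (hNC : NC N m fl σ ε)
    (kd i j x y kd' i' x' y' : ℕ)
    (hu : good k N m fl (kd, i, j, x, y)) (h0 : kd ≠ 0)
    (hv : good k N m fl (kd', i', j, x', y')) (h0' : kd' ≠ 0) (hi : i < i') (τ : ℤ) (hτ : Sg τ)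
    (h1 : kdt σ τ i = kd) (h2 : kdt σ τ i' = kd') :
    adj k N m (kd, i, j, x, y) (kd', i', j, x', y') ↔
      near k (lay k N m σ ε (kd, i, j, x, y)) (lay k N m σ ε (kd', i', j, x', y')) := by
  obtain ⟨t, e, ht, ht1, h12, hi1, hiN, hjm, hL, he, -, he1, he2, hy3, hy4⟩ :=
    vbb_desc k N m fl σ ε hσ hε kd i j x y hu h0
  obtain ⟨t', e', ht', ht1', h12', hi1', hiN', hjm', hL', he', -, he1', he2', hy3', hy4'⟩ :=
    vbb_desc k N m fl σ ε hσ hε kd' i' j x' y' hv h0'
  rw [hL, hL']
  have hI : (3 * (k : ℤ) + 3) * (i : ℤ) + (3 * k + 3) ≤ (3 * (k : ℤ) + 3) * (i' : ℤ) := by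
    have : (3 * (k : ℤ) + 3) * ((i : ℤ) + 1) ≤ (3 * (k : ℤ) + 3) * (i' : ℤ) := by
      apply mul_le_mul_of_nonneg_left
      · omega
      · omega
    linarith
  have hI2 : i' ≠ i + 1 → (3 * (k : ℤ) + 3) * (i : ℤ) + 2 * (3 * k + 3) ≤ (3 * (k : ℤ) + 3) * (i' : ℤ) := by
    intro hne
    have : (3 * (k : ℤ) + 3) * ((i : ℤ) + 2) ≤ (3 * (k : ℤ) + 3) * (i' : ℤ) := by
      apply mul_le_mul_of_nonneg_left
      · omega
      · omega
    linarith
  constructor
  · rintro ⟨-, h | h | h⟩
    · exfalso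
      have := h.1.2.1
      simp only at this
      omega
    · exfalso
      unfold link at h
      simp only at h
      obtain ⟨g1, g2, g3, h | h | h⟩ := h
      · exact absurd h.1 h0
      · exact absurd h.1 h0
      · obtain ⟨-, gk, gi, gj, gy⟩ := h
        omega
    · exfalso
      unfold link at h
      simp only at h
      obtain ⟨g1, g2, g3, h | h | h⟩ := h
      · exact absurd h.1 h0'
      · exact absurd h.1 h0'
      · obtain ⟨-, gk, gi, gj, gy⟩ := h
        omega
  · rintro ⟨-, hB⟩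
    exfalso
    simp only at hB
    rw [abs_le] at hB
    by_cases hne : i' = i + 1
    · have hnc := (hNC τ hτ j hjm).2.2 i hi1 (by omega)
      subst hne
      rw [h1, h2] at hnc
      have hor : e ≤ k ∨ -e' ≤ k := by
        by_contra hc
        push Not at hc
        rcases he1 with h | ⟨f1, f2, f3⟩
        · omega
        rcases he2' with h | ⟨g1, g2, g3⟩
        · omega
        exact hnc f1 g1 ⟨f2, g2⟩
      have a1 : e ≤ k + 2 := by
        rcases he1 with h | h
        · omega
        · exact h.2.2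
      have a2 : -e' ≤ k + 2 := by
        rcases he2' with h | h
        · omega
        · exact h.2.2
      generalize (3 * (k : ℤ) + 3) * (i : ℤ) = I at *
      generalize (3 * (k : ℤ) + 3) * ((i + 1 : ℕ) : ℤ) = I' at *
      omega
    · have := hI2 hne
      have a1 : e ≤ k + 2 := by
        rcases he1 with h | h
        · omega
        · exact h.2.2
      have a2 : -e' ≤ k + 2 := by
        rcases he2' with h | h
        · omega
        · exact h.2.2
      generalize (3 * (k : ℤ) + 3) * (i : ℤ) = I at *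
      generalize (3 * (k : ℤ) + 3) * (i' : ℤ) = I' at *
      omega

theorem t_VBB : S_VBB := by
  intro k N m fl σ ε hk hN hσ hε hNC u v hu hv huv hu0 hv0
  obtain ⟨kd, i, j, x, y⟩ := u
  obtain ⟨kd', i', j', x', y'⟩ := v
  simp only at hu0 hv0
  obtain ⟨t, e, ht, ht1, h12, hi1, hiN, hjm, hL, he, hee, he1, he2, hy3, hy4⟩ :=
    vbb_desc k N m fl σ ε hσ hε kd i j x y hu hu0
  obtain ⟨t', e', ht', ht1', h12', hi1', hiN', hjm', hL', he', hee', he1', he2', hy3', hy4'⟩ :=
    vbb_desc k N m fl σ ε hσ hε kd' i' j' x' y' hv hv0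
  by_cases htt : t = t'
  · subst htt
    rcases Nat.lt_trichotomy j j' with hj | hj | hj
    · exact vbb_row k N m fl σ ε hk hσ hε kd i j x y kd' i' j' x' y' hu hu0 hv hv0 hj t ht ht1 ht1'
    · subst hj
      rcases Nat.lt_trichotomy i i' with hi | hi | hi
      · exact vbb_rod k N m fl σ ε hk hσ hε hNC kd i j x y kd' i' x' y' hu hu0 hv hv0 hi t ht ht1 ht1'
      · subst hi
        have hkk : kd' = kd := by rw [← ht1, ← ht1']
        subst hkk
        rw [hL, hL', vbb_same k t _ _ _ _ ht]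
        constructor
        · rintro ⟨-, h | h | h⟩
          · obtain ⟨-, g1, g2, g3, g4⟩ := h
            simp only at g1 g2 g3 g4
            generalize (3 * (k : ℤ) + 3) * (i : ℤ) = I at *
            generalize (3 * (k : ℤ) + 3) * (j : ℤ) = J at *
            rcases hε kd' i j with hh | hh <;> rw [hh] at hee hee' <;>
              constructor <;> rw [abs_le] <;> constructor <;> omega
          · exfalso
            unfold link at h
            simp only at h
            obtain ⟨g1, g2, g3, h | h | h⟩ := h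
            · exact absurd h.1 hu0
            · exact absurd h.1 hu0
            · omega
          · exfalso
            unfold link at h
            simp only at h
            obtain ⟨g1, g2, g3, h | h | h⟩ := h
            · exact absurd h.1 hu0
            · exact absurd h.1 hu0
            · omega
        · rintro ⟨hA, hB⟩
          rw [abs_le] at hA hB
          refine ⟨huv, Or.inl ⟨⟨rfl, rfl, rfl⟩, ?_⟩⟩
          simp only
          generalize (3 * (k : ℤ) + 3) * (i : ℤ) = I at *
          generalize (3 * (k : ℤ) + 3) * (j : ℤ) = J at *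
          rcases hε kd' i j with hh | hh <;> rw [hh] at hee hee' <;> omega
      · rw [vbb_adj_comm, vbb_near_comm]
        exact vbb_rod k N m fl σ ε hk hσ hε hNC kd' i' j x' y' kd i x y hv hv0 hu hu0 hi t ht ht1' ht1
    · rw [vbb_adj_comm, vbb_near_comm]
      exact vbb_row k N m fl σ ε hk hσ hε kd' i' j' x' y' kd i j x y hv hv0 hu hu0 hj t ht ht1' ht1
  · have hJ : 0 ≤ (3 * (k : ℤ) + 3) * (j : ℤ) := by positivity
    have hJ' : 0 ≤ (3 * (k : ℤ) + 3) * (j' : ℤ) := by positivity
    rw [hL, hL']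
    constructor
    · rintro ⟨-, h | h | h⟩
      · exfalso
        obtain ⟨⟨g1, g2, g3⟩, -⟩ := h
        simp only at g1 g2 g3
        subst g1 g2
        apply htt
        rw [← ht1'] at ht1
        unfold kdt at ht1
        rcases hσ i with e | e <;> rcases ht with e1 | e1 <;> rcases ht' with e2 | e2 <;>
          simp [e, e1, e2] at ht1 ⊢
      · exfalso
        unfold link at h
        simp only at h
        obtain ⟨g1, g2, g3, h | h | h⟩ := h
        · exact absurd h.1 hu0
        · exact absurd h.1 hu0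
        · obtain ⟨-, gk, gi, gj, gy⟩ := h
          subst gk gi
          apply htt
          rw [← ht1'] at ht1
          unfold kdt at ht1
          rcases hσ i' with e | e <;> rcases ht with e1 | e1 <;> rcases ht' with e2 | e2 <;>
            simp [e, e1, e2] at ht1 ⊢
      · exfalso
        unfold link at h
        simp only at h
        obtain ⟨g1, g2, g3, h | h | h⟩ := h
        · exact absurd h.1 hv0
        · exact absurd h.1 hv0
        · obtain ⟨-, gk, gi, gj, gy⟩ := h
          subst gk gi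
          apply htt
          rw [← ht1'] at ht1
          unfold kdt at ht1
          rcases hσ i with e | e <;> rcases ht with e1 | e1 <;> rcases ht' with e2 | e2 <;>
            simp [e, e1, e2] at ht1 ⊢
    · rintro ⟨hA, -⟩
      exfalso
      simp only at hA
      rw [abs_le] at hA
      generalize (3 * (k : ℤ) + 3) * (j : ℤ) = J at *
      generalize (3 * (k : ℤ) + 3) * (j' : ℤ) = J' at *
      rcases ht with e1 | e1 <;> rcases ht' with e2 | e2 <;> subst e1 <;> subst e2
      · exact htt rfl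
      · omega
      · omega
      · exact htt rfl

end Pool.Agent.T2h28.SQ
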