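import Pool.Agent.T2h28.SQ.Stm2

/-! # Task VCB: a vertex of kind `0` and a vertex of kind `1` or `2` -/

set_option autoImplicit false

namespace Pool.Agent.T2h28.SQ

open Pool.Agent.NPC Pool.Agent.NPC.R671

/-- the description of the layout of a vertex of kind `1` or `2` -/
theorem vcb_desc (k N m : ℕ) (fl : Fl) (σ : ℕ → ℤ) (ε : ℕ → ℕ → ℕ → ℤ)
    (hσ : ∀ i, Sg (σ i)) (hε : ∀ kd i j, Sg (ε kd i j)) (kd i j x y : ℕ)
    (hu : good k N m fl (kd, i, j, x, y)) (h0 : kd ≠ 0) :
    ∃ τ e : ℤ, Sg τ ∧ kdt σ τ i = kd ∧ (kd = 1 ∨ kd = 2) ∧ 1 ≤ i ∧ i ≤ N ∧ j < m ∧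
      lay k N m σ ε (kd, i, j, x, y) =
        (τ * (2 * k + 2 + (3 * k + 3) * (j : ℤ) + y), (3 * k + 3) * (i : ℤ) + (k + 1) + e) ∧
      (e = (x : ℤ) - (k + 1) ∨ e = (k + 1) - (x : ℤ)) ∧
      (e ≤ k ∨ (fl kd i j = true ∧ ε kd i j = 1 ∧ e ≤ k + 2)) ∧
      (-e ≤ k ∨ (fl kd i j = true ∧ ε kd i j = -1 ∧ -e ≤ k + 2)) := by
  obtain ⟨hb, hl⟩ := hu
  simp only at hb hl
  have hkd : (kd = 1 ∨ kd = 2) ∧ 1 ≤ i ∧ i ≤ N ∧ j < m := by
    rcases hb with hb | hb
    · exact absurd hb.1 h0
    · exact hb
  obtain ⟨h12, hi1, hiN, hjm⟩ := hkd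
  have hcn : cn k N m kd i = k + 1 := by simp [cn, h0]
  have hwd : wd k N m fl kd i j = if fl kd i j = true then 2 * k + 3 else 2 * k + 1 := by
    simp [wd, h0]
  refine ⟨if kd = 1 then σ i else - σ i, ε kd i j * ((x : ℤ) - (k + 1)), ?_, ?_, h12, hi1, hiN, hjm,
    ?_, ?_, ?_, ?_⟩
  · rcases h12 with h | h
    · simpa [h] using hσ i
    · have h1 : ¬ kd = 1 := by omega
      simp only [h1, if_false]
      rcases hσ i with e | e
      · right; omega
      · left; omega
  · rcases h12 with h | h
    · simp [kdt, h]
    · have h1 : ¬ kd = 1 := by omega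
      simp only [h1, if_false, kdt]
      have : ¬ σ i = - σ i := by
        rcases hσ i with e | e <;> omega
      simp [this, h]
  · simp only [lay, h0, if_false]
  · rcases hε kd i j with e | e
    · left; rw [e]; ring
    · right; rw [e]; ring
  · rcases hl with ⟨hx1, hx2, hy⟩ | ⟨hx, hy⟩ | h
    · rw [hwd] at hx2
      rcases hε kd i j with e | e <;> rw [e]
      · by_cases hf : fl kd i j = true
        · right
          rw [if_pos hf] at hx2
          refine ⟨hf, rfl, ?_⟩
          omega
        · left
          rw [if_neg hf] at hx2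
          omega
      · left; omega
    · rw [hcn] at hx
      left
      rw [hx]
      push_cast
      simp
    · exact absurd h.1 h0
  · rcases hl with ⟨hx1, hx2, hy⟩ | ⟨hx, hy⟩ | h
    · rw [hwd] at hx2
      rcases hε kd i j with e | e <;> rw [e]
      · left; omega
      · by_cases hf : fl kd i j = true
        · right
          rw [if_pos hf] at hx2
          refine ⟨hf, rfl, ?_⟩
          omega
        · left
          rw [if_neg hf] at hx2
          omega
    · rw [hcn] at hx
      left
      rw [hx]
      push_cast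
      simp
    · exact absurd h.1 h0

/-- adjacency of a vertex of kind `0` and a vertex of kind `1` or `2` -/
theorem vcb_adj (k N m i x y kd' i' j' x' y' : ℕ) (h0 : kd' ≠ 0) :
    adj k N m (0, i, 0, x, y) (kd', i', j', x', y') ↔
      (y' = 0 ∧ k + 1 ≤ x' + k ∧ x' ≤ k + 1 + k) ∧ i' = i ∧ j' = 0 ∧ y = k + 1 ∧
        ((kd' = 1 ∧ x = 2 * k + 4) ∨ (kd' = 2 ∧ x = 0)) := by
  have hc : cn k N m kd' i' = k + 1 := by simp [cn, h0]
  unfold adj link same
  simp only [hc]
  constructor
  · rintro ⟨-, h | h | h⟩
    · exact absurd h.1.1.symm h0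
    · obtain ⟨g1, g2, g3, h | h | h⟩ := h
      · exact absurd h.2.1 h0
      · exact ⟨⟨g1, g2, g3⟩, h.2.1, h.2.2.1, h.2.2.2.1, h.2.2.2.2⟩
      · exact absurd rfl h.1
    · obtain ⟨g1, g2, g3, h | h | h⟩ := h
      · exact absurd h.1 h0
      · exact absurd h.1 h0
      · exact absurd h.2.1.symm h0
  · rintro ⟨⟨g1, g2, g3⟩, h1, h2, h3, h4⟩
    refine ⟨fun e => ?_, Or.inr (Or.inl ⟨g1, g2, g3, Or.inr (Or.inl ⟨trivial, h1, h2, h3, h4⟩)⟩)⟩
    simp only [Prod.mk.injEq] at e
    exact h0 e.1.symm

theorem t_VCB : S_VCB := by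
  intro k N m fl σ ε hk hN hσ hε hNC u v hu hv huv hu0 hv0
  obtain ⟨kd, i, j, x, y⟩ := u
  obtain ⟨kd', i', j', x', y'⟩ := v
  simp only at hu0 hv0
  subst hu0
  obtain ⟨τ, e, hτ, hkt, h12, hi1, hiN, hjm, hL, he, he1, he2⟩ :=
    vcb_desc k N m fl σ ε hσ hε kd' i' j' x' y' hv hv0
  obtain ⟨hb, hl⟩ := hu
  simp only at hb hl
  have hb' : i ≤ N + 1 ∧ j = 0 := by
    rcases hb with hb | hb
    · exact hb.2
    · exact absurd hb.1 (by omega)
  obtain ⟨hiN1, rfl⟩ := hb'
  have hJ0 : 0 ≤ (3 * (k : ℤ) + 3) * (j' : ℤ) := by positivity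
  have hJ1 : j' ≠ 0 → 3 * (k : ℤ) + 3 ≤ (3 * (k : ℤ) + 3) * (j' : ℤ) := by
    intro hne
    have h1 : (1 : ℤ) ≤ j' := by omega
    nlinarith
  have hI : ∀ a b : ℕ, a < b → (3 * (k : ℤ) + 3) * (a : ℤ) + (3 * k + 3) ≤
      (3 * (k : ℤ) + 3) * (b : ℤ) := by
    intro a b hab
    have h1 : (a : ℤ) + 1 ≤ b := by omega
    nlinarith
  have hI2 : ∀ a b : ℕ, a + 1 < b → (3 * (k : ℤ) + 3) * (a : ℤ) + 2 * (3 * k + 3) ≤
      (3 * (k : ℤ) + 3) * (b : ℤ) := by
    intro a b hab
    have h1 : (a : ℤ) + 2 ≤ b := by omega
    nlinarith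
  have ea : e ≤ k + 2 := by
    rcases he1 with h | h
    · omega
    · exact h.2.2
  have eb : -e ≤ k + 2 := by
    rcases he2 with h | h
    · omega
    · exact h.2.2
  rw [vcb_adj k N m i x y kd' i' j' x' y' hv0, hL]
  have hlu : lay k N m σ ε (0, i, 0, x, y) =
      (σ i * ((x : ℤ) - cn k N m 0 i), (3 * k + 3) * (i : ℤ) + y) := by
    simp only [lay, if_true]
  rw [hlu]
  unfold near
  simp only
  -- if `P = 0` then the points are not near
  have hP0 : ∀ P : ℤ, -(k + 1) ≤ P → P ≤ k + 1 →
      ¬ |P - τ * (2 * k + 2 + (3 * k + 3) * (j' : ℤ) + y')| ≤ k := by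
    intro P hP1 hP2 h
    rw [abs_le] at h
    generalize (3 * (k : ℤ) + 3) * (j' : ℤ) = J at *
    rcases hτ with h1 | h1 <;> rw [h1] at h <;> omega
  by_cases hi0 : i = 0
  · -- the lower wall
    subst hi0
    constructor
    · rintro ⟨-, h1, -⟩
      omega
    · rintro ⟨hA, hB⟩
      exfalso
      rcases hl with ⟨hx1, hx2, hy⟩ | ⟨hx, hy⟩ | h
      · rw [abs_le] at hB
        simp only [Nat.cast_zero, mul_zero, zero_add] at hB
        rcases he2 with h | ⟨hf, hee, h⟩
        · have h3 := hI 0 i' (by omega)
          simp only [Nat.cast_zero, mul_zero, zero_add] at h3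
          generalize (3 * (k : ℤ) + 3) * (i' : ℤ) = I at *
          omega
        · by_cases h1 : i' = 1
          · subst h1
            have h2 := (hNC τ hτ j' hjm).1
            rw [hkt] at h2
            have h3 := h2 hf
            rw [hee] at h3
            exact absurd h3 (by norm_num)
          · have h3 := hI2 0 i' (by omega)
            simp only [Nat.cast_zero, mul_zero, zero_add] at h3
            generalize (3 * (k : ℤ) + 3) * (i' : ℤ) = I at *
            omega
      · rw [hx, sub_self, mul_zero] at hA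
        exact hP0 0 (by omega) (by omega) hA
      · omega
  · by_cases hiN2 : i = N + 1
    · -- the upper wall
      subst hiN2
      constructor
      · rintro ⟨-, h1, -⟩
        omega
      · rintro ⟨hA, hB⟩
        exfalso
        rw [abs_le] at hB
        rcases he1 with h | ⟨hf, hee, h⟩
        · have h3 := hI i' (N + 1) (by omega)
          generalize (3 * (k : ℤ) + 3) * (i' : ℤ) = I at *
          generalize (3 * (k : ℤ) + 3) * ((N + 1 : ℕ) : ℤ) = I2 at *
          omega
        · by_cases h1 : i' = N
          · subst h1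
            have h2 := (hNC τ hτ j' hjm).2.1
            rw [hkt] at h2
            have h3 := h2 hf
            rw [hee] at h3
            exact absurd h3 (by norm_num)
          · have h3 := hI2 i' (N + 1) (by omega)
            generalize (3 * (k : ℤ) + 3) * (i' : ℤ) = I at *
            generalize (3 * (k : ℤ) + 3) * ((N + 1 : ℕ) : ℤ) = I2 at *
            omega
    · -- a rod
      have hcn : cn k N m 0 i = k + 2 := by simp [cn, hi0, hiN2]
      have hwd : wd k N m fl 0 i 0 = 2 * k + 3 := by simp [wd, hi0, hiN2]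
      unfold loc at hl
      rw [hcn] at hl ⊢
      rw [hwd] at hl
      by_cases hside : (x = 0 ∨ x = 2 * k + 4) ∧ y = k + 1
      · obtain ⟨hx, hy⟩ := hside
        subst hy
        -- the sign of the pin
        have hs : ∃ s : ℤ, Sg s ∧ σ i * ((x : ℤ) - ((k + 2 : ℕ) : ℤ)) = s * (k + 2) ∧
            ((x = 0 ∧ s = - σ i) ∨ (x = 2 * k + 4 ∧ s = σ i)) := by
          rcases hx with hx | hx
          · refine ⟨- σ i, ?_, ?_, Or.inl ⟨hx, rfl⟩⟩
            · rcases hσ i with h | h
              · right; omega
              · left; omega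
            · rw [hx]; push_cast; ring
          · refine ⟨σ i, hσ i, ?_, Or.inr ⟨hx, rfl⟩⟩
            rw [hx]; push_cast; ring
        obtain ⟨s, hs1, hs2, hs3⟩ := hs
        rw [hs2]
        have hII : i ≠ i' → (3 * (k : ℤ) + 3) * (i : ℤ) + (3 * k + 3) ≤
            (3 * (k : ℤ) + 3) * (i' : ℤ) ∨ (3 * (k : ℤ) + 3) * (i' : ℤ) + (3 * k + 3) ≤
            (3 * (k : ℤ) + 3) * (i : ℤ) := by
          intro hne
          rcases Nat.lt_or_ge i i' with h | h
          · exact Or.inl (hI _ _ h)
          · exact Or.inr (hI _ _ (by omega))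
        constructor
        · rintro ⟨⟨g1, g2, g3⟩, g4, g5, -, g6⟩
          subst g4
          subst g5
          subst g1
          have hst : s = τ := by
            unfold kdt at hkt
            rcases g6 with ⟨g6, g7⟩ | ⟨g6, g7⟩
            · rw [g6] at hkt
              have h1 : σ i' = τ := by
                by_contra hne
                rw [if_neg hne] at hkt
                omega
              rcases hs3 with h | h
              · omega
              · rw [h.2, h1]
            · rw [g6] at hkt
              have h1 : ¬ σ i' = τ := by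
                intro he'
                rw [if_pos he'] at hkt
                omega
              rcases hs3 with h | h
              · rcases hσ i' with a | a <;> rcases hτ with b | b <;> omega
              · omega
          rw [hst]
          refine ⟨?_, ?_⟩
          · rw [abs_le]
            rcases hτ with h | h <;> rw [h] <;> push_cast <;> constructor <;> omega
          · rw [abs_le]
            generalize (3 * (k : ℤ) + 3) * (i' : ℤ) = I at *
            push_cast
            constructor <;> omega
        · rintro ⟨hA, hB⟩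
          rw [abs_le] at hA hB
          push_cast at hB
          have hii : i = i' := by
            by_contra hne
            have h1 := hII hne
            generalize (3 * (k : ℤ) + 3) * (i : ℤ) = I at *
            generalize (3 * (k : ℤ) + 3) * (i' : ℤ) = I' at *
            omega
          have hst : s = τ ∧ j' = 0 ∧ y' = 0 := by
            have h3 : j' = 0 := by
              by_contra hne
              have h1 := hJ1 hne
              generalize (3 * (k : ℤ) + 3) * (j' : ℤ) = J at *
              rcases hs1 with a | a <;> rcases hτ with b | b <;> rw [a, b] at hA <;> omega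
            subst h3
            simp only [Nat.cast_zero, mul_zero, add_zero] at hA
            rcases hs1 with a | a <;> rcases hτ with b | b <;> rw [a, b] at hA <;>
              refine ⟨by omega, rfl, by omega⟩
          obtain ⟨hst, hj0, hy0⟩ := hst
          subst hii
          refine ⟨⟨hy0, ?_, ?_⟩, rfl, hj0, rfl, ?_⟩
          · generalize (3 * (k : ℤ) + 3) * (i : ℤ) = I at *
            omega
          · generalize (3 * (k : ℤ) + 3) * (i : ℤ) = I at *
            omega
          · unfold kdt at hkt
            rcases hs3 with ⟨h1, h2⟩ | ⟨h1, h2⟩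
            · right
              refine ⟨?_, h1⟩
              have h3 : ¬ σ i = τ := by
                rcases hσ i with a | a <;> omega
              rw [if_neg h3] at hkt
              exact hkt.symm
            · left
              refine ⟨?_, h1⟩
              have h3 : σ i = τ := by omega
              rw [if_pos h3] at hkt
              exact hkt.symm
      · -- not a side pin
        have hx3 : (1 ≤ x ∧ x ≤ 2 * k + 3) := by
          rcases hl with ⟨hx1, hx2, hy⟩ | ⟨hx, hy⟩ | h
          · exact ⟨hx1, hx2⟩
          · omega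
          · exact absurd ⟨h.2.2.2.1, h.2.2.2.2⟩ hside
        constructor
        · rintro ⟨-, -, -, g5, g6⟩
          omega
        · rintro ⟨hA, hB⟩
          exfalso
          refine hP0 _ ?_ ?_ hA
          · push_cast
            rcases hσ i with h | h <;> rw [h] <;> omega
          · push_cast
            rcases hσ i with h | h <;> rw [h] <;> omega

end Pool.Agent.T2h28.SQ
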