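import Pool.Agent.T2h28.SQ.Stm2

/-!
# Task VCC of the project SQ
-/

set_option autoImplicit false

namespace Pool.Agent.T2h28.SQ

theorem VCC_adj_symm {k N m : ℕ} {u v : Lb} (h : adj k N m u v) : adj k N m v u := by
  obtain ⟨h1, h2⟩ := h
  refine ⟨fun e => h1 e.symm, ?_⟩
  rcases h2 with ⟨⟨a, b, c⟩, h3, h4, h5, h6⟩ | h2 | h2
  · exact Or.inl ⟨⟨a.symm, b.symm, c.symm⟩, h4, h3, h6, h5⟩
  · exact Or.inr (Or.inr h2)
  · exact Or.inr (Or.inl h2)

theorem VCC_near_symm {k : ℕ} {p q : ℤ × ℤ} (h : near k p q) : near k q p := by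
  unfold near at h ⊢
  rw [abs_sub_comm q.1, abs_sub_comm q.2]
  exact h

theorem VCC_loc {k N m : ℕ} {fl : Fl} {i j x y : ℕ} (hk : 1 ≤ k)
    (h : good k N m fl (0, i, j, x, y)) :
    j = 0 ∧ k + 2 ≤ cn k N m 0 i ∧ ((1 ≤ x ∧ x + 1 ≤ 2 * cn k N m 0 i ∧ y ≤ 2 * k + 2) ∨
      (x = cn k N m 0 i ∧ y = 2 * k + 3) ∨
      (cn k N m 0 i = k + 2 ∧ (x = 0 ∨ x = 2 * k + 4) ∧ y = k + 1)) := by
  obtain ⟨hb, hl⟩ := h
  have hj : j = 0 := by
    rcases hb with ⟨_, _, h⟩ | ⟨h, _⟩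
    · exact h
    · rcases h with h | h <;> simp at h
  have hH : k + 1 ≤ HH k m := by
    unfold HH
    nlinarith [Nat.zero_le (k * m), Nat.zero_le m]
  have hwd : wd k N m fl 0 i j + 1 = 2 * cn k N m 0 i := by
    unfold wd cn
    split_ifs <;> omega
  have hcn : k + 2 ≤ cn k N m 0 i := by
    unfold cn
    split_ifs <;> omega
  refine ⟨hj, hcn, ?_⟩
  rcases hl with ⟨h1, h2, h3⟩ | ⟨h1, h2⟩ | ⟨_, h2, h3, h4, h5⟩
  · left
    simp only at h1 h2 h3
    refine ⟨h1, ?_, h3⟩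
    omega
  · right; left
    exact ⟨h1, h2⟩
  · right; right
    refine ⟨?_, h4, h5⟩
    simp only at h2 h3
    unfold cn
    have : ¬ (i = 0 ∨ i = N + 1) := by omega
    simp [this]

theorem VCC_same (k N m : ℕ) (fl : Fl) (σ : ℕ → ℤ) (ε : ℕ → ℕ → ℕ → ℤ) (hk : 1 ≤ k)
    (hσ : ∀ i, Sg (σ i)) (i j j' x x' y y' : ℕ)
    (hu : good k N m fl (0, i, j, x, y)) (hv : good k N m fl (0, i, j', x', y'))
    (hne : ((0, i, j, x, y) : Lb) ≠ (0, i, j', x', y')) :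
    (adj k N m (0, i, j, x, y) (0, i, j', x', y') ↔
      near k (lay k N m σ ε (0, i, j, x, y)) (lay k N m σ ε (0, i, j', x', y'))) := by
  obtain ⟨rfl, -, -⟩ := VCC_loc hk hu
  obtain ⟨rfl, -, -⟩ := VCC_loc hk hv
  have h1 : adj k N m (0, i, 0, x, y) (0, i, 0, x', y') ↔
      (x ≤ x' + k ∧ x' ≤ x + k ∧ y ≤ y' + k ∧ y' ≤ y + k) := by
    unfold adj
    constructor
    · rintro ⟨-, ⟨-, h⟩ | ⟨_, _, _, h⟩ | ⟨_, _, _, h⟩⟩
      · exact h
      · exfalso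
        simp only at h
        omega
      · exfalso
        simp only at h
        omega
    · intro h
      exact ⟨hne, Or.inl ⟨⟨rfl, rfl, rfl⟩, h⟩⟩
  rw [h1]
  unfold near lay
  simp only [if_true, abs_le]
  generalize cn k N m 0 i = c
  generalize (3 * (k : ℤ) + 3) * (i : ℤ) = A
  rcases hσ i with h | h <;> rw [h] <;> omega

theorem VCC_lt (k N m : ℕ) (fl : Fl) (σ : ℕ → ℤ) (ε : ℕ → ℕ → ℕ → ℤ) (hk : 1 ≤ k)
    (hσ : ∀ i, Sg (σ i)) (i i' j j' x x' y y' : ℕ)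
    (hu : good k N m fl (0, i, j, x, y)) (hv : good k N m fl (0, i', j', x', y'))
    (hlt : i < i') :
    (adj k N m (0, i, j, x, y) (0, i', j', x', y') ↔
      near k (lay k N m σ ε (0, i, j, x, y)) (lay k N m σ ε (0, i', j', x', y'))) := by
  obtain ⟨rfl, hc, hu'⟩ := VCC_loc hk hu
  obtain ⟨rfl, hc', hv'⟩ := VCC_loc hk hv
  have h1 : adj k N m (0, i, 0, x, y) (0, i', 0, x', y') ↔
      (y' = 0 ∧ cn k N m 0 i' ≤ x' + k ∧ x' ≤ cn k N m 0 i' + k ∧ i' = i + 1 ∧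
        y = 2 * k + 3) := by
    unfold adj
    constructor
    · rintro ⟨-, ⟨h, -⟩ | ⟨h1, h2, h3, h⟩ | ⟨_, _, _, h⟩⟩
      · exfalso
        obtain ⟨-, h, -⟩ := h
        simp only at h
        omega
      · simp only at h1 h2 h3 h
        refine ⟨h1, h2, h3, ?_⟩
        omega
      · exfalso
        simp only at h
        omega
    · rintro ⟨h1, h2, h3, h4, h5⟩
      refine ⟨?_, Or.inr (Or.inl ⟨h1, h2, h3, Or.inl ⟨rfl, rfl, h4, h5⟩⟩)⟩
      intro e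
      have := congrArg (fun u : Lb => u.2.1) e
      simp only at this
      omega
  rw [h1]
  unfold near lay
  simp only [if_true, abs_le]
  obtain ⟨t, rfl⟩ : ∃ t, i' = i + 1 + t := ⟨i' - (i + 1), by omega⟩
  have e1 : (3 * (k : ℤ) + 3) * ((i + 1 + t : ℕ) : ℤ) =
      (3 * (k : ℤ) + 3) * (i : ℤ) + (3 * (k : ℤ) + 3) + (3 * (k : ℤ) + 3) * (t : ℤ) := by
    push_cast
    ring
  rw [e1]
  generalize cn k N m 0 (i + 1 + t) = c' at *
  generalize cn k N m 0 i = c at *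
  generalize (3 * (k : ℤ) + 3) * (i : ℤ) = A
  rcases Nat.eq_zero_or_pos t with rfl | ht
  · simp only [Nat.cast_zero, mul_zero, add_zero, true_and]
    rcases hσ i with h | h <;> rw [h] <;> rcases hσ (i + 1) with h' | h' <;>
      rw [h'] <;> omega
  · have e2 : (3 * (k : ℤ) + 3) ≤ (3 * (k : ℤ) + 3) * (t : ℤ) := by
      have : (1 : ℤ) ≤ t := by exact_mod_cast ht
      nlinarith
    generalize (3 * (k : ℤ) + 3) * (t : ℤ) = B at *
    constructor
    · rintro ⟨_, _, _, h, _⟩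
      omega
    · rintro ⟨-, h, h'⟩
      omega

theorem t_VCC : S_VCC := by
  intro k N m fl σ ε hk hN hσ hε u v hu hv hne hu0 hv0
  obtain ⟨a, i, j, x, y⟩ := u
  obtain ⟨a', i', j', x', y'⟩ := v
  simp only at hu0 hv0
  subst hu0
  subst hv0
  rcases Nat.lt_trichotomy i i' with h | h | h
  · exact VCC_lt k N m fl σ ε hk hσ i i' j j' x x' y y' hu hv h
  · subst h
    exact VCC_same k N m fl σ ε hk hσ i j j' x x' y y' hu hv hne
  · have := VCC_lt k N m fl σ ε hk hσ i' i j' j x' x y' y hv hu h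
    constructor
    · intro h1
      exact VCC_near_symm (this.1 (VCC_adj_symm h1))
    · intro h1
      exact VCC_adj_symm (this.2 (VCC_near_symm h1))

end Pool.Agent.T2h28.SQ
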