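import Pool.Agent.T2h28.SQ.Stm2

set_option autoImplicit false

namespace Pool.Agent.T2h28.SQ

open Pool.Agent.NPC Pool.Agent.NPC.R671

theorem goodB_iff (k : ℕ) (φ : Fm) (u : Lb) :
    goodB k φ u = true ↔ good k (NN φ) φ.length (flg φ) u := by
  unfold goodB good body loc
  simp only [Bool.and_eq_true, Bool.or_eq_true, decide_eq_true_eq]

theorem linkB_iff (k N m : ℕ) (u v : Lb) : linkB k N m u v = true ↔ link k N m u v := by
  unfold linkB link
  simp only [Bool.and_eq_true, Bool.or_eq_true, decide_eq_true_eq, Bool.not_eq_true',
    decide_eq_false_iff_not, ne_eq]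

theorem t_VER : S_VER := by
  intro k φ hφ
  refine ⟨?_, ?_, ?_⟩
  · unfold verts
    apply List.Nodup.filter
    refine List.Nodup.product List.nodup_range (List.Nodup.product List.nodup_range
      (List.Nodup.product List.nodup_range (List.Nodup.product List.nodup_range List.nodup_range)))
  · intro u
    unfold verts
    rw [List.mem_filter, goodB_iff]
    constructor
    · exact fun h => h.2
    · intro h
      refine ⟨?_, h⟩
      obtain ⟨hb, hl⟩ := h
      obtain ⟨kd, i, j, x, y⟩ := u
      simp only at hb hl
      have hwd : wd k (NN φ) φ.length (flg φ) kd i j ≤ 2 * HH k φ.length + 2 * k + 3 := by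
        unfold wd
        split_ifs <;> omega
      have hcn : cn k (NN φ) φ.length kd i ≤ HH k φ.length + 1 + (k + 2) := by
        unfold cn
        split_ifs <;> omega
      have h1 : kd < 3 := by
        unfold body at hb
        omega
      have h2 : i < NN φ + 2 := by
        unfold body at hb
        omega
      have h3 : j < φ.length + 1 := by
        unfold body at hb
        omega
      have h4 : x < 2 * HH k φ.length + 2 * k + 5 := by
        unfold loc at hl
        omega
      have h5 : y < 2 * k + 4 := by
        unfold loc at hl
        omega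
      exact List.mem_product.2 ⟨List.mem_range.2 h1, List.mem_product.2 ⟨List.mem_range.2 h2,
        List.mem_product.2 ⟨List.mem_range.2 h3, List.mem_product.2 ⟨List.mem_range.2 h4,
        List.mem_range.2 h5⟩⟩⟩⟩
  · intro u v
    unfold adjB adj same
    simp only [Bool.and_eq_true, Bool.or_eq_true, decide_eq_true_eq, Bool.not_eq_true',
      decide_eq_false_iff_not, ne_eq, linkB_iff]
    tauto

end Pool.Agent.T2h28.SQ
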