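import Pool.Agent.T2h28.SQ.Stm2

set_option autoImplicit false

namespace Pool.Agent.T2h28.SQ

namespace WIN

theorem mem_win {k : ℕ} {c p : ℤ × ℤ} :
    p ∈ win k c ↔ (c.1 ≤ p.1 ∧ p.1 ≤ c.1 + k) ∧ c.2 ≤ p.2 ∧ p.2 ≤ c.2 + k := by
  unfold win
  rw [Finset.mem_product, Finset.mem_Icc, Finset.mem_Icc]

theorem card_win (k : ℕ) (c : ℤ × ℤ) : (win k c).card = (k + 1) * (k + 1) := by
  unfold win
  rw [Finset.card_product, Int.card_Icc, Int.card_Icc]
  congr 1 <;> omega

end WIN

open WIN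

theorem t_WIN : S_WIN_task := by
  intro hinj k w h f hk hw hh hf c hc
  set I : Finset (ℤ × ℤ) := (win k c).image f with hI
  have hne : I.Nonempty := by
    rw [hI, Finset.image_nonempty]
    exact ⟨c, mem_win.2 (by omega)⟩
  have hnear : ∀ P ∈ I, ∀ Q ∈ I, near k P Q := by
    intro P hP Q hQ
    rw [hI, Finset.mem_image] at hP hQ
    obtain ⟨p, hp, rfl⟩ := hP
    obtain ⟨q, hq, rfl⟩ := hQ
    rw [hf p (hc p hp) q (hc q hq)]
    rw [mem_win] at hp hq
    unfold near
    simp only [abs_le]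
    omega
  have hcard : I.card = (k + 1) * (k + 1) := by
    rw [hI, Finset.card_image_of_injOn, card_win]
    intro p hp q hq e
    exact hinj k w h f hk hw hh hf p (hc p hp) q (hc q hq) e
  obtain ⟨P1, hP1, h1⟩ := I.exists_min_image Prod.fst hne
  obtain ⟨P2, hP2, h2⟩ := I.exists_min_image Prod.snd hne
  refine ⟨(P1.1, P2.2), ?_⟩
  apply Finset.eq_of_subset_of_card_le
  · intro P hP
    rw [mem_win]
    have n1 := hnear P hP P1 hP1
    have n2 := hnear P hP P2 hP2
    have m1 := h1 P hP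
    have m2 := h2 P hP
    unfold near at n1 n2
    simp only [abs_le] at n1 n2
    simp only
    omega
  · rw [hcard, card_win]

end Pool.Agent.T2h28.SQ
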