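import Pool.Agent.T2h28.SQ.Fin
import Pool.Agent.T2h28.SQ.T_SQI
import Pool.Agent.T2h28.SQ.T_INJ
import Pool.Agent.T2h28.SQ.T_WIN
import Pool.Agent.T2h28.SQ.T_CRD
import Pool.Agent.T2h28.SQ.T_STP
import Pool.Agent.T2h28.SQ.T_AFF
import Pool.Agent.T2h28.SQ.T_RIG
import Pool.Agent.T2h28.SQ.T_FRA
import Pool.Agent.T2h28.SQ.T_PLC
import Pool.Agent.T2h28.SQ.T_BAS
import Pool.Agent.T2h28.SQ.T_DIR
import Pool.Agent.T2h28.SQ.T_CHE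
import Pool.Agent.T2h28.SQ.T_CHS
import Pool.Agent.T2h28.SQ.T_NRM
import Pool.Agent.T2h28.SQ.T_EXT
import Pool.Agent.T2h28.SQ.T_VCC
import Pool.Agent.T2h28.SQ.T_VCB
import Pool.Agent.T2h28.SQ.T_VBB
import Pool.Agent.T2h28.SQ.T_ROW
import Pool.Agent.T2h28.SQ.T_LOG
import Pool.Agent.T2h28.SQ.T_VER
import Pool.Agent.T2h28.SQ.T_RED
import Pool.Agent.T2h28.SQ.T_PLY
import Pool.Agent.T2h28.SQ.T_CMP
import Pool.Agent.T2h28.SQ.T_NPM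

/-!
# All statements of the project SQ
-/

set_option autoImplicit false

namespace Pool.Agent.T2h28.SQ

theorem s_WIN : S_WIN := t_WIN t_INJ
theorem s_STP : S_STP := t_STP t_INJ t_CRD
theorem s_RIG : S_RIG := t_RIG t_INJ s_WIN s_STP t_AFF
theorem s_PLC : S_PLC := t_PLC s_RIG t_FRA
theorem s_BAS : S_BAS := t_BAS t_FRA
theorem s_CHE : S_CHE := t_CHE s_BAS t_DIR
theorem s_CHS : S_CHS := t_CHS s_BAS t_DIR
theorem s_NRM : S_NRM := t_NRM s_PLC s_CHE s_CHS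
theorem s_RED : S_RED := t_RED t_SQI t_VER
theorem s_NPM : S_NPM := t_NPM t_SQI t_CMP

theorem s_ALL : S_ALL :=
  ⟨s_NRM, t_FRA, t_EXT, t_VCC, t_VCB, t_VBB, t_ROW, t_LOG, t_VER, s_RED, t_PLY, s_NPM⟩

end Pool.Agent.T2h28.SQ
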