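import Pool.Agent.T2h28.SQ.Stm2

set_option autoImplicit false

/-!
# Bodies attached to pins: the common argument for the tasks CHE and CHS
-/

namespace Pool.Agent.T2h28.SQ

namespace CHE

lemma cn_bounds (k N m : ℕ) (fl : Fl) (kd i j : ℕ) :
    k + 1 ≤ cn k N m kd i ∧ cn k N m kd i + k ≤ wd k N m fl kd i j := by
  unfold cn wd
  have hH : 3 * k + 3 ≤ HH k m := by
    unfold HH
    exact Nat.le_mul_of_pos_right _ (Nat.succ_pos m)
  split_ifs <;> omega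

lemma near_self (k : ℕ) (p : ℤ × ℤ) : near k p p := by
  unfold near
  rw [sub_self, sub_self, abs_zero]
  exact ⟨Int.natCast_nonneg k, Int.natCast_nonneg k⟩

/-- The common argument for the bodies attached to pins. -/
theorem attach (hBAS : S_BAS) (hDIR : S_DIR) (k N m : ℕ) (fl : Fl) (F : Lb → ℤ × ℤ)
    (hk : 1 ≤ k) (hN : 1 ≤ N) (hrep : Rep k N m fl F) (v : Lb) (hv : good k N m fl v)
    (n d : ℤ × ℤ) (hfr : Fr n d) (kd' i' j' : ℕ) (hb' : body N m kd' i' j') (o' a' b' : ℤ × ℤ)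
    (hPl : Pl k N m fl F kd' i' j' o' a' b')
    (hne : ¬ (v.1 = kd' ∧ v.2.1 = i' ∧ v.2.2.1 = j')) (hy : v.2.2.2.2 ≠ 0)
    (hlink : ∀ x y, loc k N m fl kd' i' j' x y → (link k N m v (kd', i', j', x, y) ↔
      y = 0 ∧ cn k N m kd' i' ≤ x + k ∧ x ≤ cn k N m kd' i' + k))
    (hvert : ∀ t s : ℤ, 1 ≤ t → t ≤ 2 * k + 3 → |s| ≤ k → ∃ w : Lb, good k N m fl w ∧
      F w = F v - t • d + s • n ∧ ∀ x y, loc k N m fl kd' i' j' x y →
        (w ≠ (kd', i', j', x, y) ∧ ¬ adj k N m w (kd', i', j', x, y))) :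
    b' = d ∧ (a' = n ∨ a' = -n) ∧
      o' + (cn k N m kd' i' : ℤ) • a' = F v + (k : ℤ) • b' := by
  have hbas := hBAS k N m fl F hk hN hrep kd' i' j' o' a' b' hb' hPl v hv hne hy hlink
  have hbas' : o' + (cn k N m kd' i' : ℤ) • a' = F v + (k : ℤ) • b' := by
    rw [hbas]; abel
  obtain ⟨hc1, hc2⟩ := cn_bounds k N m fl kd' i' j'
  have hdir := hDIR k (F v) n d a' b' hk hfr hPl.1 (by
    intro t s t' s' h1 h2 h3 h4 h5 h6 heq
    obtain ⟨w, hw, hFw, hwn⟩ := hvert t s h1 h2 h3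
    have h6' := abs_le.mp h6
    obtain ⟨x, hx⟩ := Int.eq_ofNat_of_zero_le (a := (cn k N m kd' i' : ℤ) + s') (by omega)
    obtain ⟨y, hy'⟩ := Int.eq_ofNat_of_zero_le h4
    have hloc : loc k N m fl kd' i' j' x y := by
      left
      refine ⟨?_, ?_, ?_⟩ <;> omega
    obtain ⟨hn1, hn2⟩ := hwn x y hloc
    have hF2 := hPl.2 x y hloc
    have hF : F w = F (kd', i', j', x, y) := by
      rw [hFw, heq, hF2]
      have e1 : (x : ℤ) = (cn k N m kd' i' : ℤ) + s' := by omega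
      have e2 : (y : ℤ) = t' := by omega
      rw [e1, e2, add_smul (cn k N m kd' i' : ℤ) s' a', ← add_assoc, hbas', add_smul (k : ℤ) t' b']
      abel
    apply hn2
    rw [hrep w (kd', i', j', x, y) hw ⟨hb', hloc⟩ hn1, hF]
    exact near_self k _)
  exact ⟨hdir.1, hdir.2, hbas'⟩

end CHE

end Pool.Agent.T2h28.SQ
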