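import Pool.Agent.T2h28.SQ.Stm2

/-!
# The assembly of the project SQ, from the statements of the tasks
-/

set_option autoImplicit false

namespace Pool.Agent.T2h28.SQ

open Pool.Agent.NPC Pool.Agent.NPC.R671

theorem fin_adj_comm (k N m : ℕ) (u v : Lb) (h : adj k N m u v) : adj k N m v u := by
  obtain ⟨hne, h⟩ := h
  refine ⟨fun e => hne e.symm, ?_⟩
  rcases h with ⟨⟨h1, h2, h3⟩, h4, h5, h6, h7⟩ | h | h
  · exact Or.inl ⟨⟨h1.symm, h2.symm, h3.symm⟩, h5, h4, h7, h6⟩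
  · exact Or.inr (Or.inr h)
  · exact Or.inr (Or.inl h)

theorem fin_near_comm (k : ℕ) (p q : ℤ × ℤ) : near k p q ↔ near k q p := by
  unfold near; rw [abs_sub_comm p.1, abs_sub_comm p.2]

/-- a representation gives reflections without conflicts -/
theorem fin_rev (hNRM : S_NRM) (hFRA : S_FRA) (hEXT : S_EXT) (k N m : ℕ) (fl : Fl) (hk : 1 ≤ k)
    (hN : 1 ≤ N) (h : ∃ F, Rep k N m fl F) : ∃ σ : ℕ → ℤ, (∀ i, Sg (σ i)) ∧
      ∃ ε : ℕ → ℕ → ℕ → ℤ, (∀ kd i j, Sg (ε kd i j)) ∧ NC N m fl σ ε := by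
  obtain ⟨F, hF⟩ := h
  obtain ⟨z, a, b, σ, ε, hab, hσ, hε, hL⟩ := hNRM k N m fl F hk hN hF
  refine ⟨σ, hσ, ε, hε, hEXT k N m fl σ ε hk hN hσ hε ?_⟩
  intro u v hu hv huv
  rw [hF u v hu hv huv, hL u hu, hL v hv]
  exact ((hFRA k a b hab).2 z _ _ _ _).1

/-- reflections without conflicts give a representation -/
theorem fin_fwd (hVCC : S_VCC) (hVCB : S_VCB) (hVBB : S_VBB) (k N m : ℕ) (fl : Fl)
    (σ : ℕ → ℤ) (ε : ℕ → ℕ → ℕ → ℤ) (hk : 1 ≤ k) (hN : 1 ≤ N) (hσ : ∀ i, Sg (σ i))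
    (hε : ∀ kd i j, Sg (ε kd i j)) (h : NC N m fl σ ε) : Rep k N m fl (lay k N m σ ε) := by
  intro u v hu hv huv
  by_cases h1 : u.1 = 0
  · by_cases h2 : v.1 = 0
    · exact hVCC k N m fl σ ε hk hN hσ hε u v hu hv huv h1 h2
    · exact hVCB k N m fl σ ε hk hN hσ hε h u v hu hv huv h1 h2
  · by_cases h2 : v.1 = 0
    · have h3 := hVCB k N m fl σ ε hk hN hσ hε h v u hv hu (fun e => huv e.symm) h2 h1
      rw [fin_near_comm, ← h3]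
      exact ⟨fin_adj_comm k N m u v, fin_adj_comm k N m v u⟩
    · exact hVBB k N m fl σ ε hk hN hσ hε h u v hu hv huv h1 h2

/-- all statements -/
def S_ALL : Prop := S_NRM ∧ S_FRA ∧ S_EXT ∧ S_VCC ∧ S_VCB ∧ S_VBB ∧ S_ROW ∧ S_LOG ∧ S_VER ∧
  S_RED ∧ S_PLY ∧ S_NPM

theorem fin_iff (h : S_ALL) (k : ℕ) (hk : 1 ≤ k) (φ : Fm) (h1 : Bounded3 φ) (h2 : φ ≠ []) :
    SAT3 φ ↔ Recog k (out k φ) := by
  obtain ⟨hNRM, hFRA, hEXT, hVCC, hVCB, hVBB, hROW, hLOG, hVER, hRED, hPLY, hNPM⟩ := h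
  have hl : 1 ≤ φ.length := List.length_pos_iff.2 h2
  have hN : 1 ≤ NN φ := by unfold NN; omega
  rw [hRED k φ hl, hLOG φ h1]
  constructor
  · rintro ⟨σ, hσ, h⟩
    obtain ⟨ε, hε, h⟩ := (hROW (NN φ) φ.length (flg φ) σ hN hσ).2 h
    exact ⟨_, fin_fwd hVCC hVCB hVBB k (NN φ) φ.length (flg φ) σ ε hk hN hσ hε h⟩
  · intro h
    obtain ⟨σ, hσ, h⟩ := fin_rev hNRM hFRA hEXT k (NN φ) φ.length (flg φ) hk hN h
    exact ⟨σ, hσ, (hROW (NN φ) φ.length (flg φ) σ hN hσ).1 h⟩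

theorem fin_mat (h : S_ALL) (k : ℕ) (φ : Fm) (h2 : φ ≠ []) :
    ∃ (n : ℕ) (G : SimpleGraph (Fin n)), adjMatrix G = out k φ := by
  obtain ⟨hNRM, hFRA, hEXT, hVCC, hVCB, hVBB, hROW, hLOG, hVER, hRED, hPLY, hNPM⟩ := h
  have hl : 1 ≤ φ.length := List.length_pos_iff.2 h2
  obtain ⟨-, -, hadj⟩ := hVER k φ hl
  refine ⟨_, listGraph (verts k φ) (fun u w => adjB k (NN φ) φ.length u w) ?_ ?_,
    adjMatrix_listGraph _ _ _ _⟩
  · intro a b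
    rw [Bool.eq_iff_iff, hadj, hadj]
    exact ⟨fin_adj_comm _ _ _ a b, fin_adj_comm _ _ _ b a⟩
  · intro a
    rw [← Bool.not_eq_true, hadj]
    exact fun h => h.1 rfl

theorem fin_recog {k n : ℕ} (G : SimpleGraph (Fin n)) : Recog k (adjMatrix G) ↔ LatSq k G := by
  constructor
  · rintro ⟨n', G', h1, h2⟩
    have hn : n' = n := by
      have := congrArg List.length h1
      simpa [adjMatrix] using this
    subst hn
    rw [← adjMatrix_inj h1]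
    exact h2
  · intro h
    exact ⟨n, G, rfl, h⟩

theorem fin_hard (h : S_ALL) (k : ℕ) (hk : 1 ≤ k) :
    HardPr (fun M => ∃ (n : ℕ) (G : SimpleGraph (Fin n)), adjMatrix G = M) (Recog k) :=
  hardPr_SAT3b.trans (f := out k) (h.2.2.2.2.2.2.2.2.2.2.1 k)
    (fun φ hφ => fin_mat h k φ hφ.2.2)
    (fun φ hφ => fin_iff h k hk φ hφ.2.1 hφ.2.2)

theorem fin_all (h : S_ALL) (k : ℕ) (hk : 1 ≤ k) : InNPP (Recog k) ∧ NPHardP (Recog k) ∧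
    ∀ L : Set (List Bool), InNP L → ∃ f : List Bool → List Bool, PolyTime f ∧
      ∀ x, ∃ (n : ℕ) (G : SimpleGraph (Fin n)), f x = bits (adjMatrix G) ∧ (x ∈ L ↔ LatSq k G) := by
  refine ⟨h.2.2.2.2.2.2.2.2.2.2.2 k, (fin_hard h k hk).toHardI.toNPHardP, fun L hL => ?_⟩
  obtain ⟨g, hg, hp, hgL⟩ := fin_hard h k hk L hL
  refine ⟨fun x => bits (g x), PC.toPolyTime hg, fun x => ?_⟩
  obtain ⟨n, G, hG⟩ := hp x
  refine ⟨n, G, by rw [hG], ?_⟩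
  rw [hgL x, ← hG, fin_recog]

end Pool.Agent.T2h28.SQ
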