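import Pool.Agent.H671R2.GraphEnc
import Pool.Agent.NPC.Sat2
import Pool.Agent.NPC.Dec

/-!
# Recognising intersection graphs of lattice squares of side `k` is NP-complete (MP_ae7730_lc, Q1)

For every fixed `k ≥ 1`.  Reduction from 3SAT, a logic engine made of rigid bodies.

`D = 3 k + 3`.  A *body* is a full rectangle of lattice points, at least `2 k + 1` wide, of height
`2 k + 3` (`y = 0, …, 2 k + 2`), plus one, two or three *pins* (single lattice points protruding by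
one unit): the end pin `(centre, 2 k + 3)`, and for the bodies `T_i` also two side pins.  The next
body is attached to a pin `v`: the pin is adjacent exactly to the `2 k + 1` central points of the
bottom row (`y = 0`) of the next body.  Everything is rigid up to reflections of the next body in
its own axis.

The chain `0, 1, …, N, N + 1` of kind `0`: the body `0` and the body `N + 1` are wide walls, the
bodies `1, …, N` are the rods `T_i`.  At the side pins of `T_i` two chains of bodies `0, …, m - 1`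
of kind `1` and `2` are attached; a reflection of `T_i` exchanges them.  The body `(kd, i, j)`
(`kd = 1, 2`) is symmetric of width `2 k + 1`, or has a flag (`fl kd i j = true`): then its width is
`2 k + 3`, and it can be reflected so that the flag points to the rod `i + 1` or to the rod `i - 1`.
Two flags in the same row in neighbouring rods pointing to each other are too close, and so is a
flag of the rod `1` or `N` pointing to the wall.  So a row is fine iff it contains a body without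
flag.

A vertex is `(kd, i, j, x, y)`: the body `(kd, i, j)` and local coordinates.
-/

set_option autoImplicit false

namespace Pool.Agent.T2h28.SQ

open Pool.Agent.NPC Pool.Agent.NPC.R671

/-! ### The problem -/

/-- The closed axis-parallel square of side `k` with lower left corner `p`. -/
def square (k : ℕ) (p : ℤ × ℤ) : Set (ℝ × ℝ) :=
  Set.Icc (p.1 : ℝ) ((p.1 : ℝ) + k) ×ˢ Set.Icc (p.2 : ℝ) ((p.2 : ℝ) + k)

/-- The class `S_k`: intersection graphs of squares of side `k` with corners in the integer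
lattice; distinct vertices may have the same square. -/
def LatSq (k : ℕ) {V : Type} (G : SimpleGraph V) : Prop :=
  ∃ c : V → ℤ × ℤ, ∀ u v, u ≠ v → (G.Adj u v ↔ (square k (c u) ∩ square k (c v)).Nonempty)

/-- The recognition problem for `S_k`: the yes-instances are the adjacency matrices (lists of rows)
of the graphs in `S_k`. -/
def Recog (k : ℕ) (M : List (List Bool)) : Prop :=
  ∃ (n : ℕ) (G : SimpleGraph (Fin n)), adjMatrix G = M ∧ LatSq k G

/-- Distance at most `k` in the maximum norm. -/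
def near (k : ℕ) (p q : ℤ × ℤ) : Prop := |p.1 - q.1| ≤ k ∧ |p.2 - q.2| ≤ k

/-! ### The construction -/

/-- A vertex: the body `(kd, i, j)` and the local coordinates `x`, `y`. -/
abbrev Lb : Type := ℕ × ℕ × ℕ × ℕ × ℕ

/-- half of the width of the walls -/
def HH (k m : ℕ) : ℕ := (3 * k + 3) * (m + 1)

/-- the flag predicate: does the body `(kd, i, j)` have a flag? -/
abbrev Fl : Type := ℕ → ℕ → ℕ → Bool

/-- the width of a body: the rectangle is `1 ≤ x ≤ wd`, `0 ≤ y ≤ 2 k + 2` -/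
def wd (k N m : ℕ) (fl : Fl) (kd i j : ℕ) : ℕ :=
  if kd = 0 then (if i = 0 ∨ i = N + 1 then 2 * HH k m + 1 else 2 * k + 3)
  else (if fl kd i j = true then 2 * k + 3 else 2 * k + 1)

/-- the axis of a body -/
def cn (k N m kd i : ℕ) : ℕ :=
  if kd = 0 then (if i = 0 ∨ i = N + 1 then HH k m + 1 else k + 2) else k + 1

/-- the bodies -/
def body (N m kd i j : ℕ) : Prop :=
  (kd = 0 ∧ i ≤ N + 1 ∧ j = 0) ∨ ((kd = 1 ∨ kd = 2) ∧ 1 ≤ i ∧ i ≤ N ∧ j < m)

/-- the local coordinates of the vertices of a body -/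
def loc (k N m : ℕ) (fl : Fl) (kd i j x y : ℕ) : Prop :=
  (1 ≤ x ∧ x ≤ wd k N m fl kd i j ∧ y ≤ 2 * k + 2) ∨ (x = cn k N m kd i ∧ y = 2 * k + 3) ∨
    (kd = 0 ∧ 1 ≤ i ∧ i ≤ N ∧ (x = 0 ∨ x = 2 * k + 4) ∧ y = k + 1)

/-- the vertices -/
def good (k N m : ℕ) (fl : Fl) (u : Lb) : Prop :=
  body N m u.1 u.2.1 u.2.2.1 ∧ loc k N m fl u.1 u.2.1 u.2.2.1 u.2.2.2.1 u.2.2.2.2

/-- `u` and `v` belong to the same body -/
def same (u v : Lb) : Prop := u.1 = v.1 ∧ u.2.1 = v.2.1 ∧ u.2.2.1 = v.2.2.1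

/-- `u` is the pin to which the body of `v` is attached, and `v` is one of the `2 k + 1` central
points of the bottom row. -/
def link (k N m : ℕ) (u v : Lb) : Prop :=
  v.2.2.2.2 = 0 ∧ cn k N m v.1 v.2.1 ≤ v.2.2.2.1 + k ∧ v.2.2.2.1 ≤ cn k N m v.1 v.2.1 + k ∧
    ((u.1 = 0 ∧ v.1 = 0 ∧ v.2.1 = u.2.1 + 1 ∧ u.2.2.2.2 = 2 * k + 3) ∨
     (u.1 = 0 ∧ v.2.1 = u.2.1 ∧ v.2.2.1 = 0 ∧ u.2.2.2.2 = k + 1 ∧
        ((v.1 = 1 ∧ u.2.2.2.1 = 2 * k + 4) ∨ (v.1 = 2 ∧ u.2.2.2.1 = 0))) ∨
     (u.1 ≠ 0 ∧ v.1 = u.1 ∧ v.2.1 = u.2.1 ∧ v.2.2.1 = u.2.2.1 + 1 ∧ u.2.2.2.2 = 2 * k + 3))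

/-- adjacency -/
def adj (k N m : ℕ) (u v : Lb) : Prop :=
  u ≠ v ∧ ((same u v ∧ u.2.2.2.1 ≤ v.2.2.2.1 + k ∧ v.2.2.2.1 ≤ u.2.2.2.1 + k ∧
      u.2.2.2.2 ≤ v.2.2.2.2 + k ∧ v.2.2.2.2 ≤ u.2.2.2.2 + k) ∨ link k N m u v ∨ link k N m v u)

/-- `F` is a representation of the graph by lattice points. -/
def Rep (k N m : ℕ) (fl : Fl) (F : Lb → ℤ × ℤ) : Prop :=
  ∀ u v, good k N m fl u → good k N m fl v → u ≠ v → (adj k N m u v ↔ near k (F u) (F v))

/-- The layout with reflections `σ i = ± 1` of the bodies of kind `0` and `ε kd i j = ± 1` of the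
others. -/
def lay (k N m : ℕ) (σ : ℕ → ℤ) (ε : ℕ → ℕ → ℕ → ℤ) (u : Lb) : ℤ × ℤ :=
  if u.1 = 0 then
    (σ u.2.1 * ((u.2.2.2.1 : ℤ) - cn k N m u.1 u.2.1), (3 * k + 3) * (u.2.1 : ℤ) + u.2.2.2.2)
  else
    ((if u.1 = 1 then σ u.2.1 else - σ u.2.1) *
        (2 * k + 2 + (3 * k + 3) * (u.2.2.1 : ℤ) + u.2.2.2.2),
      (3 * k + 3) * (u.2.1 : ℤ) + (k + 1) + ε u.1 u.2.1 u.2.2.1 * ((u.2.2.2.1 : ℤ) - (k + 1)))

/-- plus or minus one -/
def Sg (s : ℤ) : Prop := s = 1 ∨ s = -1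

/-- the kind of the chain of the rod `i` on the side `τ` -/
def kdt (σ : ℕ → ℤ) (τ : ℤ) (i : ℕ) : ℕ := if σ i = τ then 1 else 2

/-- The reflections are without conflicts. -/
def NC (N m : ℕ) (fl : Fl) (σ : ℕ → ℤ) (ε : ℕ → ℕ → ℕ → ℤ) : Prop :=
  ∀ τ : ℤ, Sg τ → ∀ j < m,
    (fl (kdt σ τ 1) 1 j = true → ε (kdt σ τ 1) 1 j = 1) ∧
    (fl (kdt σ τ N) N j = true → ε (kdt σ τ N) N j = -1) ∧
    ∀ i, 1 ≤ i → i < N → fl (kdt σ τ i) i j = true → fl (kdt σ τ (i + 1)) (i + 1) j = true →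
      ¬ (ε (kdt σ τ i) i j = 1 ∧ ε (kdt σ τ (i + 1)) (i + 1) j = -1)

/-! ### The instance of a formula -/

/-- formulas -/
abbrev Fm : Type := List (Lit ℕ × Lit ℕ × Lit ℕ)

/-- the `j`-th clause -/
def cls (φ : Fm) (j : ℕ) : Lit ℕ × Lit ℕ × Lit ℕ := φ.getD j ((true, 0), (true, 0), (true, 0))

/-- the number of rods: the variables are `0, …, 3 m - 1` (rods `1, …, 3 m`), and one more (rod
`3 m + 1`) for a new variable `z` which is put into every clause -/
def NN (φ : Fm) : ℕ := 3 * φ.length + 1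

/-- is `l` one of the literals of the clause? -/
def inC (l : Lit ℕ) (c : Lit ℕ × Lit ℕ × Lit ℕ) : Bool :=
  decide (l = c.1) || (decide (l = c.2.1) || decide (l = c.2.2))

/-- the flags: the body of kind `1` of the rod `i` in the row `j` has no flag iff the positive
literal of the variable `i - 1` is in the clause `j` (with `z` added), the body of kind `2` has no
flag iff the negative literal is in it -/
def flg (φ : Fm) (kd i j : ℕ) : Bool :=
  if kd = 1 then !(decide (i = NN φ) || inC (true, i - 1) (cls φ j))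
  else !(inC (false, i - 1) (cls φ j))

/-- the vertices as a test -/
def goodB (k : ℕ) (φ : Fm) (u : Lb) : Bool :=
  ((decide (u.1 = 0) && (decide (u.2.1 ≤ NN φ + 1) && decide (u.2.2.1 = 0))) ||
    ((decide (u.1 = 1) || decide (u.1 = 2)) && (decide (1 ≤ u.2.1) && (decide (u.2.1 ≤ NN φ) &&
      decide (u.2.2.1 < φ.length))))) &&
  ((decide (1 ≤ u.2.2.2.1) && (decide (u.2.2.2.1 ≤ wd k (NN φ) φ.length (flg φ) u.1 u.2.1 u.2.2.1) &&
      decide (u.2.2.2.2 ≤ 2 * k + 2))) ||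
    ((decide (u.2.2.2.1 = cn k (NN φ) φ.length u.1 u.2.1) && decide (u.2.2.2.2 = 2 * k + 3)) ||
    (decide (u.1 = 0) && (decide (1 ≤ u.2.1) && (decide (u.2.1 ≤ NN φ) &&
      ((decide (u.2.2.2.1 = 0) || decide (u.2.2.2.1 = 2 * k + 4)) &&
        decide (u.2.2.2.2 = k + 1)))))))

/-- the list of the vertices -/
def verts (k : ℕ) (φ : Fm) : List Lb :=
  (List.range 3 ×ˢ (List.range (NN φ + 2) ×ˢ (List.range (φ.length + 1) ×ˢ
    (List.range (2 * HH k φ.length + 2 * k + 5) ×ˢ List.range (2 * k + 4))))).filter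
      (fun u => goodB k φ u)

/-- the link relation as a test -/
def linkB (k N m : ℕ) (u v : Lb) : Bool :=
  decide (v.2.2.2.2 = 0) && (decide (cn k N m v.1 v.2.1 ≤ v.2.2.2.1 + k) &&
  (decide (v.2.2.2.1 ≤ cn k N m v.1 v.2.1 + k) &&
    ((decide (u.1 = 0) && (decide (v.1 = 0) && (decide (v.2.1 = u.2.1 + 1) &&
        decide (u.2.2.2.2 = 2 * k + 3)))) ||
     ((decide (u.1 = 0) && (decide (v.2.1 = u.2.1) && (decide (v.2.2.1 = 0) &&
        (decide (u.2.2.2.2 = k + 1) &&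
        ((decide (v.1 = 1) && decide (u.2.2.2.1 = 2 * k + 4)) ||
          (decide (v.1 = 2) && decide (u.2.2.2.1 = 0))))))) ||
     (!(decide (u.1 = 0)) && (decide (v.1 = u.1) && (decide (v.2.1 = u.2.1) &&
        (decide (v.2.2.1 = u.2.2.1 + 1) && decide (u.2.2.2.2 = 2 * k + 3)))))))))

/-- adjacency as a test -/
def adjB (k N m : ℕ) (u v : Lb) : Bool :=
  !(decide (u = v)) &&
    ((decide (u.1 = v.1) && (decide (u.2.1 = v.2.1) && (decide (u.2.2.1 = v.2.2.1) &&
      (decide (u.2.2.2.1 ≤ v.2.2.2.1 + k) && (decide (v.2.2.2.1 ≤ u.2.2.2.1 + k) &&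
      (decide (u.2.2.2.2 ≤ v.2.2.2.2 + k) && decide (v.2.2.2.2 ≤ u.2.2.2.2 + k))))))) ||
    (linkB k N m u v || linkB k N m v u))

/-- the output of the reduction: the adjacency matrix -/
def out (k : ℕ) (φ : Fm) : List (List Bool) :=
  (verts k φ).map (fun u => (verts k φ).map (fun w => adjB k (NN φ) φ.length u w))

end Pool.Agent.T2h28.SQ
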