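import Pool.Agent.T2h28.SQ.Stm

/-!
# The tasks of the project SQ
-/

set_option autoImplicit false

namespace Pool.Agent.T2h28.SQ

open Pool.Agent.NPC Pool.Agent.NPC.R671

/-! ### Part A: rigidity of a rectangle -/

/-- A frame of the lattice: `a`, `b` are perpendicular unit vectors. -/
def Fr (a b : ℤ × ℤ) : Prop :=
  ((a = (1, 0) ∨ a = (-1, 0)) ∧ (b = (0, 1) ∨ b = (0, -1))) ∨
    ((a = (0, 1) ∨ a = (0, -1)) ∧ (b = (1, 0) ∨ b = (-1, 0)))

/-- the rectangle `1 ≤ x ≤ w`, `0 ≤ y ≤ h` -/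
def rect (w h : ℕ) : Set (ℤ × ℤ) := {p | 1 ≤ p.1 ∧ p.1 ≤ w ∧ 0 ≤ p.2 ∧ p.2 ≤ h}

/-- `f` is a representation of the rectangle -/
def RepR (k w h : ℕ) (f : ℤ × ℤ → ℤ × ℤ) : Prop :=
  ∀ p ∈ rect w h, ∀ q ∈ rect w h, (near k (f p) (f q) ↔ near k p q)

/-- the window (square of `(k + 1)²` points) with lower left corner `c` -/
noncomputable def win (k : ℕ) (c : ℤ × ℤ) : Finset (ℤ × ℤ) :=
  Finset.Icc c.1 (c.1 + k) ×ˢ Finset.Icc c.2 (c.2 + k)

/-- Task `SQI` (30 lines).  Two closed intervals `[x, x + k]`, `[x', x' + k]` meet iff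
`|x - x'| ≤ k` (take `max x x'`). -/
def S_SQI : Prop := ∀ (k : ℕ) (p q : ℤ × ℤ), (square k p ∩ square k q).Nonempty ↔ near k p q

/-- Task `INJ` (50 lines).  Suppose `f p = f q` and (wlog, by symmetry) `p.1 < q.1`, or the same for
the second coordinates.  Then every `r` of the rectangle is near `p` iff it is near `q`.  If
`q.1 + k ≤ w` take `r = (q.1 + k, q.2)`: near `q`, not near `p`.  Otherwise `q.1 > w - k ≥ k + 1`; take
`r = (max 1 (p.1 - k), p.2)`: near `p`, and `q.1 - r.1 ≥ k + 1`.  For the second coordinates: if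
`q.2 + k ≤ h` take `(q.1, q.2 + k)`, otherwise `q.2 ≥ k + 1` and `r = (p.1, max 0 (p.2 - k))`. -/
def S_INJ : Prop := ∀ (k w h : ℕ) (f : ℤ × ℤ → ℤ × ℤ), 1 ≤ k → 2 * k + 1 ≤ w → 2 * k ≤ h →
  RepR k w h f → ∀ p ∈ rect w h, ∀ q ∈ rect w h, f p = f q → p = q

/-- Task `WIN` (80 lines, from `INJ`).  The image of a window under `f` is a window.  The points of
`win k c` are pairwise near, hence the images are pairwise near; let `c'` be the pair of the minima
of the first and of the second coordinates of the image; then the image is contained in `win k c'`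
(every first coordinate is between the minimum and the minimum plus `k`), and both have `(k + 1)²`
elements (`Finset.card_image_of_injOn`, `Finset.card_product`, `Int.card_Icc`), so they are equal
(`Finset.eq_of_subset_of_card_le`). -/
def S_WIN : Prop := ∀ (k w h : ℕ) (f : ℤ × ℤ → ℤ × ℤ), 1 ≤ k → 2 * k + 1 ≤ w → 2 * k ≤ h →
  RepR k w h f → ∀ c : ℤ × ℤ, (∀ p ∈ win k c, p ∈ rect w h) → ∃ c', (win k c).image f = win k c'

/-- Task `WIN` (see `S_WIN`). -/
def S_WIN_task : Prop := S_INJ → S_WIN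

/-- Task `CRD` (60 lines, no dependencies).  The number of common points of two windows determines
the type of the offset.  The intersection is a product of two intervals, with
`max 0 (k + 1 - |d.1 - c.1|)` and `max 0 (k + 1 - |d.2 - c.2|)` points.  Put `s = |d.1 - c.1|`,
`t = |d.2 - c.2|`.  `(k+1-s)(k+1-t) = k (k+1)`: if `s, t ≥ 1` then the left side is at most
`k²`, so `s = 0` or `t = 0`, and then the other one is `1`.  `(k+1-s)(k+1-t) = k²`: if `s, t ≥ 1` then
equality only for `s = t = 1`; if `s = 0` then `k + 1` divides `k²`, so it divides `1`, against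
`k ≥ 1`.  (Only the three consequences below are needed.) -/
def S_CRD : Prop := ∀ (k : ℕ) (c d c' d' : ℤ × ℤ), 1 ≤ k →
  (win k c ∩ win k d).card = (win k c' ∩ win k d').card →
    (|d.1 - c.1| + |d.2 - c.2| = 1 → |d'.1 - c'.1| + |d'.2 - c'.2| = 1) ∧
    (|d.1 - c.1| = 1 → |d.2 - c.2| = 1 → |d'.1 - c'.1| = 1 ∧ |d'.2 - c'.2| = 1) ∧
    (c ≠ d → c' ≠ d')

/-- Task `STP` (40 lines, from `INJ`, `CRD`).  As `f` is injective on the rectangle, the image of
`win k c ∩ win k d` is the intersection of the images (`Finset.image_inter_of_injOn` or by hand), so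
`(win k c ∩ win k d).card = (win k c' ∩ win k d').card`. -/
def S_STP : Prop := ∀ (k w h : ℕ) (f : ℤ × ℤ → ℤ × ℤ), 1 ≤ k → 2 * k + 1 ≤ w → 2 * k ≤ h →
  RepR k w h f → ∀ c d c' d' : ℤ × ℤ, (∀ p ∈ win k c, p ∈ rect w h) →
    (∀ p ∈ win k d, p ∈ rect w h) → (win k c).image f = win k c' → (win k d).image f = win k d' →
    (|d.1 - c.1| + |d.2 - c.2| = 1 → |d'.1 - c'.1| + |d'.2 - c'.2| = 1) ∧
    (|d.1 - c.1| = 1 → |d.2 - c.2| = 1 → |d'.1 - c'.1| = 1 ∧ |d'.2 - c'.2| = 1) ∧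
    (c ≠ d → c' ≠ d')

/-- Task `STP` (see `S_STP`). -/
def S_STP_task : Prop := S_INJ → S_CRD → S_STP

/-- Task `AFF` (150 lines, no dependencies).  A map `g` of a grid `1 ≤ c.1 ≤ A`, `0 ≤ c.2 ≤ B`
(`A ≥ 2`, `B ≥ 1`) which maps steps to steps, diagonal steps to diagonal steps, and is injective, is
an isometry.  Proof: `H i j = g (i+1, j) - g (i, j)` and `V i j = g (i, j+1) - g (i, j)` are unit
vectors.  `H i j + V (i+1) j = V i j + H i (j+1)` is the difference of a diagonal step, so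
`H i j ⊥ V (i+1) j` and `V i j ⊥ H i (j+1)`; and `g (i+1, j) - g (i, j+1) = H i j - V i j` is one as
well, so `H i j ⊥ V i j`.  Comparing coordinates: `H i j = H i (j+1)` and `V (i+1) j = V i j`.
Further `H i j` and `H (i+1) j` are both perpendicular to `V (i+1) j`, so they are equal or opposite;
not opposite since `g (i, j) ≠ g (i+2, j)`.  The same for `V`.  So `H` and `V` are constant. -/
def S_AFF : Prop := ∀ (A B : ℤ) (g : ℤ × ℤ → ℤ × ℤ), 2 ≤ A → 1 ≤ B →
  (∀ c d : ℤ × ℤ, 1 ≤ c.1 → c.1 ≤ A → 0 ≤ c.2 → c.2 ≤ B → 1 ≤ d.1 → d.1 ≤ A → 0 ≤ d.2 → d.2 ≤ B →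
    (|d.1 - c.1| + |d.2 - c.2| = 1 → |(g d).1 - (g c).1| + |(g d).2 - (g c).2| = 1) ∧
    (|d.1 - c.1| = 1 → |d.2 - c.2| = 1 → |(g d).1 - (g c).1| = 1 ∧ |(g d).2 - (g c).2| = 1) ∧
    (c ≠ d → g c ≠ g d)) →
  ∃ o a b : ℤ × ℤ, Fr a b ∧ ∀ c : ℤ × ℤ, 1 ≤ c.1 → c.1 ≤ A → 0 ≤ c.2 → c.2 ≤ B →
    g c = o + c.1 • a + c.2 • b

/-- The rigidity of rectangles. -/
def S_RIG : Prop := ∀ (k w h : ℕ) (f : ℤ × ℤ → ℤ × ℤ), 1 ≤ k → 2 * k + 1 ≤ w → 2 * k ≤ h →
  RepR k w h f → ∃ o a b : ℤ × ℤ, Fr a b ∧ ∀ p ∈ rect w h, f p = o + p.1 • a + p.2 • b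

/-- Task `RIG` (150 lines).  The windows `win k c` with `1 ≤ c.1 ≤ w - k`, `0 ≤ c.2 ≤ h - k` are in
the rectangle; `WIN` gives `g c` with `(win k c).image f = win k (g c)`; by `STP` and `AFF`
(`A = w - k`, `B = h - k`) we get `g c = o' + c.1 • a + c.2 • b`.  The affine map `L p = o + p.1 • a +
p.2 • b`, where `o = o'` corrected by `k` in the coordinates in which `a` or `b` is negative
(`o = o' + (k, 0)` if the first coordinate of `a + b` is `- 1`, and so on), satisfies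
`(win k c).image L = win k (g c)` for all `c`.  For `p` in the rectangle let `q` be the point with
`L q = f p` (`L` is a bijection of the lattice).  For a window in the rectangle: `p ∈ win k c` iff
`f p ∈ (win k c).image f` (by `INJ`) iff `L q ∈ (win k c).image L` iff `q ∈ win k c`.  Hence `q` is in
the rectangle, and `p` and `q` are in the same windows.  So `p = q`: if e.g. `p.1 < q.1` (then
`q.1 ≤ p.1 + k` as there is a common window), a window with first corner coordinate `p.1 + 1` contains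
`q` and not `p` if `p.1 + 1 ≤ w - k`; otherwise `p.1 ≥ w - k ≥ k + 1` and a window with
first corner coordinate `p.1 - k` contains `p` and not `q`.  The other three cases are the same
(second coordinate: `0` and `h - k ≥ k` instead of `1` and `w - k`). -/
def S_RIG_task : Prop := S_INJ → S_WIN → S_STP → S_AFF → S_RIG

/-! ### Part B: the representation is a layout -/

/-- The body `(kd, i, j)` is placed by the frame `o, a, b`. -/
def Pl (k N m : ℕ) (fl : Fl) (F : Lb → ℤ × ℤ) (kd i j : ℕ) (o a b : ℤ × ℤ) : Prop :=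
  Fr a b ∧ ∀ x y, loc k N m fl kd i j x y → F (kd, i, j, x, y) = o + (x : ℤ) • a + (y : ℤ) • b

/-- Task `FRA` (60 lines, no dependencies).  Coordinates with respect to a frame: every point is
`o + X • a + Y • b`, and two points are near iff their coordinates are near. -/
def S_FRA : Prop := ∀ (k : ℕ) (a b : ℤ × ℤ), Fr a b →
  (∀ o p : ℤ × ℤ, ∃ X Y : ℤ, p = o + X • a + Y • b) ∧
  ∀ (o : ℤ × ℤ) (X Y X' Y' : ℤ),
    (near k (o + X • a + Y • b) (o + X' • a + Y' • b) ↔ |X - X'| ≤ k ∧ |Y - Y'| ≤ k) ∧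
    (o + X • a + Y • b = o + X' • a + Y' • b → X = X' ∧ Y = Y')

/-- Task `PLC` (200 lines).  Every body is placed.  For the rectangle apply `RIG` with `h = 2 k + 2`
and `w = wd …` to `f p = F (kd, i, j, p.1.toNat, p.2.toNat)` (two different vertices of the same body
are adjacent iff their local coordinates are near; `link` never holds inside a body).  For a pin write
its image as `o + X • a + Y • b` (`FRA`).
End pin `(c, 2 k + 3)`, `c = cn`, `c - k ≥ 1`, `c + k ≤ wd`: it is near `(c ± k, 2 k + 2)`, so `X = c`;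
it is near `(c, 2 k + 2)` and `(c, k + 3)` but not near `(c, k + 2)`; so `k + 2 ≤ Y ≤ 2 k + 3` and
`|Y - (k + 2)| ≥ k + 1`, so `Y = 2 k + 3`.
Side pin `(0, k + 1)` (`kd = 0`, `1 ≤ i ≤ N`, `wd = 2 k + 3`): near `(1, 1)`, `(1, 2 k + 1)`, so
`Y = k + 1`; near `(1, k + 1)`, `(k, k + 1)`, not near `(k + 1, k + 1)`, so `X = 0`.
Side pin `(2 k + 4, k + 1)`: near `(2 k + 3, 1)`, `(2 k + 3, 2 k + 1)`, so `Y = k + 1`; near
`(k + 4, k + 1)` and `(2 k + 3, k + 1)`, not near `(k + 3, k + 1)`, so `X = 2 k + 4`. -/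
def S_PLC : Prop := ∀ (k N m : ℕ) (fl : Fl) (F : Lb → ℤ × ℤ), 1 ≤ k → 1 ≤ N → Rep k N m fl F →
  ∀ kd i j, body N m kd i j → ∃ o a b, Pl k N m fl F kd i j o a b

/-- Task `PLC` (see `S_PLC`). -/
def S_PLC_task : Prop := S_RIG → S_FRA → S_PLC

/-- Task `BAS` (100 lines, from `FRA`).  The pin `v` to which the body `(kd, i, j)` is attached is at
the local coordinates `(c, - k)` of this body.  `v` is a vertex outside of the body whose neighbours
in the body are exactly the `(x, 0)` with `|x - c| ≤ k` (`link … (x, y) v` fails as `y` of `v` is not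
`0`).  Write `F v = o + X • a + Y • b`.  Near `(c - k, 0)` and `(c + k, 0)`, so `X = c` and `|Y| ≤ k`;
not near `(c, 1)`, so `|Y - 1| ≥ k + 1`, so `Y = - k`.  (`c - k ≥ 1`, `c + k ≤ wd` in all cases.) -/
def S_BAS : Prop := ∀ (k N m : ℕ) (fl : Fl) (F : Lb → ℤ × ℤ), 1 ≤ k → 1 ≤ N → Rep k N m fl F →
  ∀ kd i j o a b, body N m kd i j → Pl k N m fl F kd i j o a b →
  ∀ v : Lb, good k N m fl v → ¬ (v.1 = kd ∧ v.2.1 = i ∧ v.2.2.1 = j) → v.2.2.2.2 ≠ 0 →
    (∀ x y, loc k N m fl kd i j x y → (link k N m v (kd, i, j, x, y) ↔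
      y = 0 ∧ cn k N m kd i ≤ x + k ∧ x ≤ cn k N m kd i + k)) →
    F v = o + (cn k N m kd i : ℤ) • a - (k : ℤ) • b

/-- Task `BAS` (see `S_BAS`). -/
def S_BAS_task : Prop := S_FRA → S_BAS

/-- Task `DIR` (80 lines, no dependencies).  The body attached to a pin `p` grows in the direction `d`
of the pin.  The unit vector `b'` is `d`, `- d`, `n` or `- n`.  If `b' = - d`, then `t = k`, `s = 0`,
`t' = 0`, `s' = 0` is a coincidence.  If `b' = ± n`, then `a' = ± d`, and `t = 1`, `s = ± k`,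
`t' = 0`, `s' = ± 1` with `s' • a' = - d` is a coincidence. -/
def S_DIR : Prop := ∀ (k : ℕ) (p n d a' b' : ℤ × ℤ), 1 ≤ k → Fr n d → Fr a' b' →
  (∀ t s t' s' : ℤ, 1 ≤ t → t ≤ 2 * k + 3 → |s| ≤ k → 0 ≤ t' → t' ≤ 2 * k + 2 → |s'| ≤ k →
    p - t • d + s • n ≠ p + ((k : ℤ) + t') • b' + s' • a') →
  b' = d ∧ (a' = n ∨ a' = -n)

/-- A body attached to an end pin. -/
def S_CHE : Prop := ∀ (k N m : ℕ) (fl : Fl) (F : Lb → ℤ × ℤ), 1 ≤ k → 1 ≤ N → Rep k N m fl F →
  ∀ kd i j i' j', body N m kd i j → body N m kd i' j' →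
    ((kd = 0 ∧ i' = i + 1 ∧ j' = j) ∨ (kd ≠ 0 ∧ i' = i ∧ j' = j + 1)) →
  ∀ o a b o' a' b', Pl k N m fl F kd i j o a b → Pl k N m fl F kd i' j' o' a' b' →
    b' = b ∧ (a' = a ∨ a' = -a) ∧
      o' + (cn k N m kd i' : ℤ) • a' = o + (cn k N m kd i : ℤ) • a + (3 * (k : ℤ) + 3) • b

/-- Task `CHE` (150 lines).  The end pin `v = (kd, i, j, c, 2 k + 3)` is at
`p = o + c • a + (2 k + 3) • b`, and `BAS` gives `p = o' + c' • a' - k • b'`.  Use `DIR` with
`n = a`, `d = b`: `p - t • b + s • a` is the image of the vertex `(c + s, 2 k + 3 - t)` of the body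
`(kd, i, j)`, and `p + (k + t') • b' + s' • a'` is the image of the vertex `(c' + s', t')` of the body
`(kd, i', j')`; they are different vertices and not adjacent for `t ≥ 1` (the first one is not a
pin, and has no `link` to the other: `y = 2 k + 3 - t ≤ 2 k + 2`, and the side pin case needs
`i' = i`, `kd = 0`, `kd' ≠ 0`), hence their images are not near, in particular different. -/
def S_CHE_task : Prop := S_BAS → S_DIR → S_CHE

/-- A body attached to a side pin. -/
def S_CHS : Prop := ∀ (k N m : ℕ) (fl : Fl) (F : Lb → ℤ × ℤ), 1 ≤ k → 1 ≤ N → Rep k N m fl F →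
  ∀ i s, 1 ≤ i → i ≤ N → 0 < m → (s = 1 ∨ s = 2) →
  ∀ o a b o' a' b', Pl k N m fl F 0 i 0 o a b → Pl k N m fl F s i 0 o' a' b' →
    b' = (if s = 1 then a else -a) ∧ (a' = b ∨ a' = -b) ∧
      o' + ((k : ℤ) + 1) • a' = o + ((k : ℤ) + 2) • a + (2 * (k : ℤ) + 2) • (if s = 1 then a else -a) +
        ((k : ℤ) + 1) • b

/-- Task `CHS` (150 lines).  For `s = 1` the pin is `v = (0, i, 0, 2 k + 4, k + 1)`, at
`p = o + (2 k + 4) • a + (k + 1) • b`, and `BAS` gives `p = o' + (k + 1) • a' - k • b'`.  Use `DIR`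
with `n = b`, `d = a` (`Fr b a`): `p - t • a + s • b` is the image of the vertex
`(2 k + 4 - t, k + 1 + s)` of the body `(0, i, 0)` (`1 ≤ t ≤ 2 k + 3`, `|s| ≤ k`).  For `s = 2` the
pin is `(0, i, 0, 0, k + 1)` and `d = - a`: the vertex is `(t, k + 1 + s)`. -/
def S_CHS_task : Prop := S_BAS → S_DIR → S_CHS

/-- Every representation is a layout in some frame. -/
def S_NRM : Prop := ∀ (k N m : ℕ) (fl : Fl) (F : Lb → ℤ × ℤ), 1 ≤ k → 1 ≤ N → Rep k N m fl F →
  ∃ (z a b : ℤ × ℤ) (σ : ℕ → ℤ) (ε : ℕ → ℕ → ℕ → ℤ), Fr a b ∧ (∀ i, Sg (σ i)) ∧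
    (∀ kd i j, Sg (ε kd i j)) ∧ ∀ u, good k N m fl u →
      F u = z + (lay k N m σ ε u).1 • a + (lay k N m σ ε u).2 • b

/-- Task `NRM` (200 lines).  Let `z = o₀ + c₀ • a₀`, `a = a₀`, `b = b₀` for the body `(0, 0, 0)`.
Induction on `i` with `CHE`: the body `(0, i, 0)` has `b_i = b`, `a_i = σ i • a`, and
`o_i + c_i • a_i = z + ((3 k + 3) i) • b`.  Then for `s = 1, 2`, by `CHS` and induction on `j` with
`CHE`: with `τ = σ i` for `s = 1` and `τ = - σ i` for `s = 2` the body `(s, i, j)` has `b' = τ • a`,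
`a' = ε • b` and `o' + (k + 1) • a' = z + (τ (2 k + 2 + (3 k + 3) j)) • a +
((3 k + 3) i + k + 1) • b`.  Now `F (kd, i, j, x, y) = (o' + c' • a') + (x - c') • a' + y • b'`.
Choose `σ i`, `ε kd i j` with `Classical.choose` (value `1` outside of the bodies). -/
def S_NRM_task : Prop := S_PLC → S_CHE → S_CHS → S_NRM

/-- Task `EXT` (150 lines, no dependencies).  If the layout is a representation then there are no
conflicts.  Let `kd = kdt σ τ i`; the side of the body `(kd, i, j)` is `τ` (`kd = 1` and `σ i = τ`, or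
`kd = 2` and `- σ i = τ`).
Rod `1`: suppose `fl kd 1 j = true` and `ε kd 1 j = - 1`.  Let `v = (kd, 1, j, 2 k + 3, 0)`; its
layout is `(τ (2 k + 2 + (3 k + 3) j), 3 k + 2)`.  The vertex `u = (0, 0, 0, x, 2 k + 2)` of the wall
with `σ 0 (x - HH - 1) = τ (2 k + 2 + (3 k + 3) j)` (`1 ≤ x ≤ 2 HH + 1`) has the layout
`(same, 2 k + 2)`; so they are near; but they are not adjacent.
Rod `N`: if `ε = 1`: `v = (kd, N, j, 2 k + 3, 0)` has second coordinate `(3 k + 3) N + 2 k + 3`, and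
`u = (0, N + 1, 0, x, 0)` has `(3 k + 3) (N + 1)`.
Rods `i`, `i + 1` with `ε = 1` and `ε' = - 1`: the vertices `(kd, i, j, 2 k + 3, 0)` and
`(kd', i + 1, j, 2 k + 3, 0)` have the same first coordinate, and second coordinates with difference
`k - 1`. -/
def S_EXT : Prop := ∀ (k N m : ℕ) (fl : Fl) (σ : ℕ → ℤ) (ε : ℕ → ℕ → ℕ → ℤ), 1 ≤ k → 1 ≤ N →
  (∀ i, Sg (σ i)) → (∀ kd i j, Sg (ε kd i j)) → Rep k N m fl (lay k N m σ ε) → NC N m fl σ ε

/-! ### Part C: a layout without conflicts is a representation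

`D = 3 k + 3`.  Write `(P, Q)` for the layout of a vertex.  Use for `i < i'`: `D i' ≥ D i + D`, and for
`i + 2 ≤ i'`: `D i' ≥ D i + 2 D` (`nlinarith` or `Nat.mul_le_mul`); after that everything is linear
(`Sg` is used by `rcases`). -/

/-- Task `VCC` (150 lines).  Both vertices of kind `0` (bodies `i`, `i'`).  Same body: the differences
of the coordinates are `± (x - x')` and `y - y'`.  `i < i'` (wlog; `adj` and `near` are symmetric):
`Q' - Q = D (i' - i) + y' - y ≥ D - (2 k + 3) = k`, with equality iff `i' = i + 1`, `y = 2 k + 3` and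
`y' = 0`; in this case `u` is the end pin, `P = 0`, and `|P' - P| = |x' - c'|`; so near iff
`|x' - c'| ≤ k` iff `link`. -/
def S_VCC : Prop := ∀ (k N m : ℕ) (fl : Fl) (σ : ℕ → ℤ) (ε : ℕ → ℕ → ℕ → ℤ), 1 ≤ k → 1 ≤ N →
  (∀ i, Sg (σ i)) → (∀ kd i j, Sg (ε kd i j)) →
  ∀ u v, good k N m fl u → good k N m fl v → u ≠ v → u.1 = 0 → v.1 = 0 →
    (adj k N m u v ↔ near k (lay k N m σ ε u) (lay k N m σ ε v))

/-- Task `VCB` (200 lines).  `u` of kind `0` (body `i`), `v` of kind `1` or `2` (body `(kd', i', j')`,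
side `τ`).  `|P'| ≥ 2 k + 2`.
If `1 ≤ i ≤ N`: the rectangle has `|P| ≤ k + 1`, the end pin has `P = 0`, both give
`|P - P'| ≥ k + 1`, and there is no link.  A side pin has `|P| = k + 2`, so `|P - P'| ≤ k` iff `P` has
the sign `τ` and `j' = 0`, `y' = 0`; then near iff `i = i'` and `|x' - (k + 1)| ≤ k` (if `i ≠ i'` then
`|Q - Q'| ≥ D - (k + 2) > k`), and the sign is right iff the pin is `x = 2 k + 4` for `kd' = 1` and
`x = 0` for `kd' = 2`: this is `link`.
If `i = 0`: the end pin has `P = 0`; for the rectangle `Q ≤ 2 k + 2`, and `Q' ≥ D + 1` unless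
`i' = 1`, the body has a flag and `ε = - 1`, which is excluded by the condition on the rod `1` (with
this `τ`: `kdt σ τ 1 = kd'`).  If `i = N + 1`: `Q ≥ D (N + 1)` and `Q' ≤ D N + 2 k + 1`, by the
condition on the rod `N`.  No link. -/
def S_VCB : Prop := ∀ (k N m : ℕ) (fl : Fl) (σ : ℕ → ℤ) (ε : ℕ → ℕ → ℕ → ℤ), 1 ≤ k → 1 ≤ N →
  (∀ i, Sg (σ i)) → (∀ kd i j, Sg (ε kd i j)) → NC N m fl σ ε →
  ∀ u v, good k N m fl u → good k N m fl v → u ≠ v → u.1 = 0 → v.1 ≠ 0 →
    (adj k N m u v ↔ near k (lay k N m σ ε u) (lay k N m σ ε v))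

/-- Task `VBB` (250 lines).  Both vertices of kind `1` or `2`: bodies `(kd, i, j)`, `(kd', i', j')`
with sides `τ`, `τ'`.  Same body: `|P - P'| = |y - y'|`, `|Q - Q'| = |x - x'|`.
`τ ≠ τ'`: `|P - P'| ≥ 4 k + 4`, and not linked (linked bodies have the same kind and rod).
`τ = τ'`, `j < j'` (wlog): `|P' - P| ≥ D - (2 k + 3) = k`, with equality iff `j' = j + 1`,
`y = 2 k + 3`, `y' = 0`; then `u` is the end pin, `Q = D i + k + 1`, and near iff `i = i'` and
`|x' - (k + 1)| ≤ k` (if `i ≠ i'`: `|Q - Q'| ≥ D - (k + 2) > k`); and `i = i'`, `τ = τ'` give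
`kd = kd'`.
`τ = τ'`, `j = j'`, `i < i'` (wlog): not linked, and `Q' - Q ≥ 2 D - 2 (k + 2) > k` for `i' ≥ i + 2`,
and for `i' = i + 1`: `Q - (D i + k + 1) ≤ k` unless the body has a flag and `ε = 1` (then
`≤ k + 2`), `(D i' + k + 1) - Q' ≤ k` unless it has a flag and `ε' = - 1` (then `≤ k + 2`); not both by
`NC`; so `Q' - Q ≥ D - (2 k + 2) = k + 1`.  `τ = τ'`, `j = j'`, `i = i'`: the same body. -/
def S_VBB : Prop := ∀ (k N m : ℕ) (fl : Fl) (σ : ℕ → ℤ) (ε : ℕ → ℕ → ℕ → ℤ), 1 ≤ k → 1 ≤ N →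
  (∀ i, Sg (σ i)) → (∀ kd i j, Sg (ε kd i j)) → NC N m fl σ ε →
  ∀ u v, good k N m fl u → good k N m fl v → u ≠ v → u.1 ≠ 0 → v.1 ≠ 0 →
    (adj k N m u v ↔ near k (lay k N m σ ε u) (lay k N m σ ε v))

/-! ### Part D: logic -/

/-- Task `ROW` (80 lines).  Given `σ`, there is an `ε` without conflicts iff every row on every side
contains a body without flag.  If: for the side `τ` and the row `j` let `r` be a rod without flag;
put `ε kd i j = 1` if `i < r` and `- 1` otherwise, where `τ = σ i` for `kd = 1` and `τ = - σ i` for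
`kd = 2` (for `kd = kdt σ τ i` this is the given `τ`).  Only if: if all bodies of the row have flags
then `ε = 1` for the rod `1`, hence by induction for all rods up to `N`, against the condition for
`N`. -/
def S_ROW : Prop := ∀ (N m : ℕ) (fl : Fl) (σ : ℕ → ℤ), 1 ≤ N → (∀ i, Sg (σ i)) →
  ((∃ ε : ℕ → ℕ → ℕ → ℤ, (∀ kd i j, Sg (ε kd i j)) ∧ NC N m fl σ ε) ↔
    ∀ τ, Sg τ → ∀ j < m, ∃ i, 1 ≤ i ∧ i ≤ N ∧ fl (kdt σ τ i) i j = false)

/-- Task `LOG` (120 lines).  (`Bounded3` is only needed for the first direction: the rod of a literal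
is `variable + 1 ≤ 3 m`.)  If `x` is a satisfying assignment put `σ i = 1` iff `i ≤ 3 m` and
`x (i - 1) = true`.  Side `1`, row `j`: a true literal `(true, v)` of the clause gives the rod
`i = v + 1` with `σ i = 1`, `kdt = 1`, no flag; `(false, v)` gives `σ i = - 1`, `kdt = 2`, no flag.
Side `- 1`: the rod `i = NN φ` has `σ i = - 1`, `kdt = 1`, no flag.
Conversely, if `σ (NN φ) = - 1` then `x v = (σ (v + 1) = 1)` is satisfying (side `1`; the rod `NN φ`
has `kdt = 2`, and then `(false, 3 m)` in the clause is also true); if `σ (NN φ) = 1` then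
`x v = (σ (v + 1) = - 1)` is satisfying (side `- 1`). -/
def S_LOG : Prop := ∀ φ : Fm, Bounded3 φ → (SAT3 φ ↔ ∃ σ : ℕ → ℤ, (∀ i, Sg (σ i)) ∧
  ∀ τ, Sg τ → ∀ j < φ.length, ∃ i, 1 ≤ i ∧ i ≤ NN φ ∧ flg φ (kdt σ τ i) i j = false)

/-! ### Part E: the reduction and the class NP -/

/-- Task `VER` (100 lines).  The list of the vertices. -/
def S_VER : Prop := ∀ (k : ℕ) (φ : Fm), 1 ≤ φ.length → (verts k φ).Nodup ∧
  (∀ u, u ∈ verts k φ ↔ good k (NN φ) φ.length (flg φ) u) ∧
  (∀ u v, adjB k (NN φ) φ.length u v = true ↔ adj k (NN φ) φ.length u v)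

/-- The reduction, for the matrix. -/
def S_RED : Prop := ∀ (k : ℕ) (φ : Fm), 1 ≤ φ.length →
  (Recog k (out k φ) ↔ ∃ F, Rep k (NN φ) φ.length (flg φ) F)

/-- Task `RED` (120 lines).  `out k φ` is the adjacency matrix of `listGraph (verts k φ) (adjB …)`
(`adjMatrix_listGraph` in `H671R2/GraphEnc.lean`; `adjB` is symmetric and irreflexive), `adjMatrix` is
injective (`adjMatrix_inj`; compare also the numbers of vertices), and `SQI` translates the squares.
From `c : Fin n → ℤ × ℤ` define `F u = c` of an index of `u`; from `F` define `c i = F (verts[i])`. -/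
def S_RED_task : Prop := S_SQI → S_VER → S_RED

/-- Task `PLY` (150 lines): the reduction is polynomial-time computable.  Use `fun_prop` with
`Pool.Agent.H671R2.PolyAuto`; example: `Pool/Agent/T2h8/PT/T_POLY.lean`, `Pool/Agent/T2h8/GEO/Red.lean`
(`poly_product` for the products of lists). -/
def S_PLY : Prop := ∀ k : ℕ, Poly (out k)

/-- Task `CMP` (120 lines).  The coordinates can be compressed.  For a finite set `A` of integers with
minimum `a₀` put `g t = #{s : a₀ ≤ s < t, ∃ a ∈ A, a ≤ s ≤ a + k}`.  For `t ≤ t'` in `A`: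
if `t' - t ≤ k` then all `s` with `t ≤ s < t'` are counted, `g t' - g t = t' - t`; if
`t' - t ≥ k + 1` then `s = t, …, t + k` are counted, `g t' - g t ≥ k + 1`.  And
`g t ≤ #A (k + 1)`.  Apply it to both coordinates of `c`. -/
def S_CMP : Prop := ∀ (k n : ℕ) (c : Fin n → ℤ × ℤ), ∃ c' : Fin n → ℕ × ℕ,
  (∀ u, (c' u).1 ≤ n * (k + 1) ∧ (c' u).2 ≤ n * (k + 1)) ∧
  ∀ u v, (near k (c u) (c v) ↔
    near k (((c' u).1 : ℤ), ((c' u).2 : ℤ)) (((c' v).1 : ℤ), ((c' v).2 : ℤ)))

/-- Membership in `NP`. -/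
def S_NPM : Prop := ∀ k : ℕ, InNPP (Recog k)

/-- Task `NPM` (200 lines): use `inNPP_of` of `Pool.Agent.NPC.Dec`; example
`Pool/Agent/T2h8/PT/T_NP.lean`.  The certificate is a list of pairs of natural numbers, of the same
length as the matrix, with entries at most `n (k + 1)` (`CMP`).  Verification: all rows have length
`n`, the entry `(u, v)` is `true` iff `u ≠ v` and the points `u`, `v` of the certificate are near
(differences of natural numbers: `x ≤ x' + k` and `x' ≤ x + k`). -/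
def S_NPM_task : Prop := S_SQI → S_CMP → S_NPM

end Pool.Agent.T2h28.SQ
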