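import Pool.Agent.T2h28.SQ.Att

set_option autoImplicit false

/-!
# Task CHE: a body attached to an end pin
-/

namespace Pool.Agent.T2h28.SQ

theorem t_CHE : S_CHE_task := by
  intro hBAS hDIR k N m fl F hk hN hrep kd i j i' j' hb hb' hrel o a b o' a' b' hPl hPl'
  obtain ⟨hc1, hc2⟩ := CHE.cn_bounds k N m fl kd i j
  have hlocv : loc k N m fl kd i j (cn k N m kd i) (2 * k + 3) := Or.inr (Or.inl ⟨rfl, rfl⟩)
  have hFv : F (kd, i, j, cn k N m kd i, 2 * k + 3) =
      o + (cn k N m kd i : ℤ) • a + (2 * (k : ℤ) + 3) • b := by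
    have h := hPl.2 _ _ hlocv
    push_cast at h
    exact h
  have h := CHE.attach hBAS hDIR k N m fl F hk hN hrep (kd, i, j, cn k N m kd i, 2 * k + 3)
    ⟨hb, hlocv⟩ a b hPl.1 kd i' j' hb' o' a' b' hPl' (by
      rintro ⟨-, h1, h2⟩
      simp only at h1 h2
      omega) (by simp) (by
      intro x y hl
      unfold link
      simp only
      constructor
      · rintro ⟨h1, h2, h3, -⟩
        exact ⟨h1, h2, h3⟩
      · rintro ⟨h1, h2, h3⟩
        refine ⟨h1, h2, h3, ?_⟩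
        rcases hrel with ⟨h4, h5, h6⟩ | ⟨h4, h5, h6⟩
        · exact Or.inl ⟨h4, h4, h5, trivial⟩
        · exact Or.inr (Or.inr ⟨h4, trivial, h5, h6, trivial⟩)) (by
      intro t s h1 h2 h3
      have h3' := abs_le.mp h3
      obtain ⟨x, hx⟩ := Int.eq_ofNat_of_zero_le (a := (cn k N m kd i : ℤ) + s) (by omega)
      obtain ⟨y, hy⟩ := Int.eq_ofNat_of_zero_le (a := 2 * (k : ℤ) + 3 - t) (by omega)
      have hloc : loc k N m fl kd i j x y := by
        left
        refine ⟨?_, ?_, ?_⟩ <;> omega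
      refine ⟨(kd, i, j, x, y), ⟨hb, hloc⟩, ?_, ?_⟩
      · rw [hFv, hPl.2 x y hloc]
        have e1 : (x : ℤ) = (cn k N m kd i : ℤ) + s := by omega
        have e2 : (y : ℤ) = 2 * (k : ℤ) + 3 - t := by omega
        rw [e1, e2, add_smul, sub_smul]
        abel
      · intro x' y' hl'
        refine ⟨?_, ?_⟩
        · intro he
          simp only [Prod.mk.injEq] at he
          omega
        · unfold adj same link
          simp only
          rintro ⟨-, hadj⟩
          rcases hadj with ⟨⟨-, g1, g2⟩, -⟩ | ⟨g1, g2, g3, g4⟩ | ⟨g1, g2, g3, g4⟩ <;> omega)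
  obtain ⟨h1, h2, h3⟩ := h
  refine ⟨h1, h2, ?_⟩
  rw [h3, hFv, h1]
  rw [show (3 * (k : ℤ) + 3) = (2 * (k : ℤ) + 3) + k by ring, add_smul (2 * (k : ℤ) + 3) (k : ℤ) b]
  abel

end Pool.Agent.T2h28.SQ
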