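import Pool.Agent.T2h28.SQ.Stm2
import Pool.Agent.H671R2.PolyAuto

/-!
# Task NPM: membership in NP
-/

set_option autoImplicit false

namespace Pool.Agent.T2h28.SQ.NPMt

open Pool.Agent.NPC Pool.Agent.NPC.R671 Pool.Agent.T2h28.SQ

/-- test of nearness -/
def nearB (k : ℕ) (p q : ℕ × ℕ) : Bool :=
  decide (p.1 ≤ q.1 + k) && (decide (q.1 ≤ p.1 + k) &&
    (decide (p.2 ≤ q.2 + k) && decide (q.2 ≤ p.2 + k)))

/-- test of a row -/
def rowB (k : ℕ) (M : List (List Bool)) (w : List (ℕ × ℕ)) (i : ℕ) : Bool :=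
  decide ((M.getD i []).length = M.length) &&
    (List.range M.length).all fun j =>
      decide ((M.getD i []).getD j false =
        (!(decide (i = j)) && nearB k (w.getD i (0, 0)) (w.getD j (0, 0))))

/-- the verifier -/
def ver (k : ℕ) (x : List (List Bool) × List (ℕ × ℕ)) : Bool :=
  decide (x.2.length = x.1.length) && (List.range x.1.length).all fun i => rowB k x.1 x.2 i

section
variable {α : Type} [TEnc α]

@[fun_prop] theorem p_rl {β : Type} [TEnc β] {l : α → List β} (hl : Poly l) :
    Poly (fun a => List.range (l a).length) := Poly.range_length hl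

@[fun_prop] theorem p_near (k : ℕ) {p q : α → ℕ × ℕ} (hp : Poly p) (hq : Poly q) :
    Poly (fun a => nearB k (p a) (q a)) := by unfold nearB; fun_prop

@[fun_prop] theorem p_row (k : ℕ) {M : α → List (List Bool)} {w : α → List (ℕ × ℕ)} {i : α → ℕ}
    (hM : Poly M) (hw : Poly w) (hi : Poly i) : Poly (fun a => rowB k (M a) (w a) (i a)) := by
  unfold rowB; fun_prop

end

theorem p_ver (k : ℕ) : Poly (ver k) := by unfold ver; fun_prop

theorem nearB_iff (k : ℕ) (p q : ℕ × ℕ) : nearB k p q = true ↔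
    near k ((p.1 : ℤ), (p.2 : ℤ)) ((q.1 : ℤ), (q.2 : ℤ)) := by
  unfold nearB near
  simp only [Bool.and_eq_true, decide_eq_true_eq, abs_le]
  omega

theorem rowB_iff (k : ℕ) (M : List (List Bool)) (w : List (ℕ × ℕ)) (i : ℕ) : rowB k M w i = true ↔
    (M.getD i []).length = M.length ∧ ∀ j < M.length, ((M.getD i []).getD j false = true ↔
      i ≠ j ∧ nearB k (w.getD i (0, 0)) (w.getD j (0, 0)) = true) := by
  unfold rowB
  simp only [Bool.and_eq_true, decide_eq_true_eq, List.all_eq_true, List.mem_range]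
  refine and_congr_right fun _ => forall_congr' fun j => imp_congr_right fun _ => ?_
  rw [Bool.eq_iff_iff]
  simp only [Bool.and_eq_true, Bool.not_eq_true', decide_eq_false_iff_not, ne_eq]

theorem ver_iff (k : ℕ) (M : List (List Bool)) (w : List (ℕ × ℕ)) : ver k (M, w) = true ↔
    w.length = M.length ∧ ∀ i < M.length, (M.getD i []).length = M.length ∧
      ∀ j < M.length, ((M.getD i []).getD j false = true ↔
        i ≠ j ∧ nearB k (w.getD i (0, 0)) (w.getD j (0, 0)) = true) := by
  unfold ver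
  simp only [Bool.and_eq_true, decide_eq_true_eq, List.all_eq_true, List.mem_range, rowB_iff]

theorem getD_row {n : ℕ} (G : SimpleGraph (Fin n)) (i : ℕ) (hi : i < n) :
    ((adjMatrix G).getD i []).length = n ∧ ∀ (j : ℕ) (hj : j < n),
      (((adjMatrix G).getD i []).getD j false = true ↔ G.Adj ⟨i, hi⟩ ⟨j, hj⟩) := by
  classical
  have h1 : (adjMatrix G).getD i [] = List.ofFn fun j => decide (G.Adj ⟨i, hi⟩ j) := by
    unfold adjMatrix
    rw [List.getD_eq_getElem _ _ (by rw [List.length_ofFn]; exact hi), List.getElem_ofFn]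
  rw [h1]
  refine ⟨List.length_ofFn, fun j hj => ?_⟩
  rw [List.getD_eq_getElem _ _ (by rw [List.length_ofFn]; exact hj), List.getElem_ofFn,
    decide_eq_true_eq]

theorem getD_ofFn {α : Type} {n : ℕ} (c : Fin n → α) (d : α) (i : ℕ) (hi : i < n) :
    (List.ofFn c).getD i d = c ⟨i, hi⟩ := by
  rw [List.getD_eq_getElem _ _ (by rw [List.length_ofFn]; exact hi), List.getElem_ofFn]

theorem length_adjMatrix {n : ℕ} (G : SimpleGraph (Fin n)) : (adjMatrix G).length = n :=
  List.length_ofFn

theorem main (hS : S_SQI) (hC : S_CMP) (k : ℕ) (M : List (List Bool)) :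
    Recog k M ↔ ∃ w : List (ℕ × ℕ),
      sz w ≤ (Polynomial.X * (Polynomial.C (8 * (k + 1)) * Polynomial.X + 4) + 1 :
        Polynomial ℕ).eval (sz M) ∧ ver k (M, w) = true := by
  constructor
  · rintro ⟨n, G, rfl, c, hc⟩
    obtain ⟨c', h1, h2⟩ := hC k n c
    refine ⟨List.ofFn c', ?_, ?_⟩
    · have h3 : ∀ a ∈ List.ofFn c', sz a ≤ 8 * (n * (k + 1)) + 3 := by
        intro a ha
        obtain ⟨u, rfl⟩ := (List.mem_ofFn' _ _).1 ha
        have e1 := sz_nat_le (c' u).1
        have e2 := Poly.size_le_self (c' u).1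
        have e3 := sz_nat_le (c' u).2
        have e4 := Poly.size_le_self (c' u).2
        have e5 := (h1 u).1
        have e6 := (h1 u).2
        have e7 : sz (c' u) = sz (c' u).1 + sz (c' u).2 + 1 := sz_pair _ _
        omega
      have h4 := sz_le_length_mul _ _ h3
      rw [List.length_ofFn] at h4
      have h5 := length_lt_sz (adjMatrix G)
      rw [length_adjMatrix] at h5
      simp only [Polynomial.eval_add, Polynomial.eval_mul, Polynomial.eval_C, Polynomial.eval_X,
        Polynomial.eval_one, Polynomial.eval_ofNat]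
      refine h4.trans (Nat.add_le_add_right (Nat.mul_le_mul h5.le ?_) 1)
      have h6 : n * (k + 1) ≤ (k + 1) * sz (adjMatrix G) := by
        rw [mul_comm]
        exact Nat.mul_le_mul_left _ h5.le
      rw [mul_assoc]
      omega
    · rw [ver_iff, length_adjMatrix, List.length_ofFn]
      refine ⟨rfl, fun i hi => ⟨(getD_row G i hi).1, fun j hj => ?_⟩⟩
      rw [(getD_row G i hi).2 j hj, getD_ofFn _ _ i hi, getD_ofFn _ _ j hj, nearB_iff, ← h2]
      by_cases hij : (⟨i, hi⟩ : Fin n) = ⟨j, hj⟩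
      · rw [hij]
        have h3 : i = j := congrArg Fin.val hij
        simp [h3]
      · rw [hc _ _ hij, hS]
        have h3 : i ≠ j := fun h => hij (Fin.ext h)
        simp [h3]
  · rintro ⟨w, -, h⟩
    rw [ver_iff] at h
    obtain ⟨h1, h2⟩ := h
    let c : Fin M.length → ℤ × ℤ := fun i =>
      (((w.getD i (0, 0)).1 : ℤ), ((w.getD i (0, 0)).2 : ℤ))
    have hsym : ∀ p q : ℤ × ℤ, near k p q → near k q p := fun p q h => by
      unfold near at h ⊢
      rwa [abs_sub_comm q.1, abs_sub_comm q.2]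
    let G : SimpleGraph (Fin M.length) :=
      { Adj := fun i j => i ≠ j ∧ near k (c i) (c j)
        symm := ⟨fun i j h => ⟨h.1.symm, hsym _ _ h.2⟩⟩
        loopless := ⟨fun i h => h.1 rfl⟩ }
    refine ⟨M.length, G, ?_, c, fun u v huv => ?_⟩
    · apply List.ext_getElem (length_adjMatrix G)
      intro i hi hi'
      have e1 := getD_row G i hi'
      have e2 := h2 i hi'
      rw [List.getD_eq_getElem _ _ hi] at e1
      rw [List.getD_eq_getElem _ _ hi'] at e2
      apply List.ext_getElem (e1.1.trans e2.1.symm)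
      intro j hj hj'
      have hj2 : j < M.length := by rw [← e2.1]; exact hj'
      have e3 := e1.2 j hj2
      have e4 := e2.2 j hj2
      rw [List.getD_eq_getElem _ _ hj] at e3
      rw [List.getD_eq_getElem _ _ hj'] at e4
      rw [Bool.eq_iff_iff, e3, e4, nearB_iff]
      show (_ ∧ _) ↔ _
      refine and_congr ?_ Iff.rfl
      simp only [ne_eq, Fin.mk.injEq]
    · rw [hS]
      exact ⟨fun h => h.2, fun h => ⟨huv, h⟩⟩

end Pool.Agent.T2h28.SQ.NPMt

namespace Pool.Agent.T2h28.SQ

theorem t_NPM : S_NPM_task := fun hS hC k =>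
  Pool.Agent.NPC.inNPP_of (NPMt.p_ver k) _ (NPMt.main hS hC k)

end Pool.Agent.T2h28.SQ
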